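import Pool.Agent.helper96.PP2.SpecC

namespace Pool.Agent.PP2

open Topology Matrix

theorem FIN_closed_Sg {R : Type} [CommRing R] [TopologicalSpace R] [IsTopologicalRing R]
    [T2Space R] (J : Ideal R) (hJ : IsClosed (J : Set R)) :
    IsClosed (Sg J : Set (GL (Fin 2) R)) := by
  have h1 : (Sg J : Set (GL (Fin 2) R)) = {g : GL (Fin 2) R | Matrix.det (g : M2 R) = 1} ∩
      ⋂ i : Fin 2, ⋂ j : Fin 2, {g : GL (Fin 2) R | ((g : M2 R) - 1) i j ∈ J} := by
    ext g
    simp only [SetLike.mem_coe, Lib_mem_Sg, Set.mem_inter_iff, Set.mem_ofPred_eq, Set.mem_iInter]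
  rw [h1]
  have hc : Continuous (fun g : GL (Fin 2) R => (g : M2 R)) := Units.continuous_val
  refine IsClosed.inter (isClosed_eq hc.matrix_det continuous_const) ?_
  refine isClosed_iInter fun i => isClosed_iInter fun j => ?_
  have h2 : Continuous (fun g : GL (Fin 2) R => ((g : M2 R) - 1) i j) :=
    (hc.sub continuous_const).matrix_elem i j
  exact hJ.preimage h2

theorem FIN_unit {S : Type} [CommRing S] [TopologicalSpace S] [IsTopologicalRing S]
    [CompactSpace S] [T2Space S] (p : ℕ)
    (hb : ∀ U ∈ 𝓝 (0 : S), ∃ I : Ideal S, IsOpen (I : Set S) ∧ (I : Set S) ⊆ U)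
    (hn : ∀ I : Ideal S, IsOpen (I : Set S) → ∃ n : ℕ, (p : S) ^ n ∈ I) (hodd : p % 2 = 1) :
    IsUnit (2 : S) := by
  have h1 : IsUnit (1 + (p : S)) := by
    let K : Set S := Set.range (fun x : S => (1 + (p : S)) * x)
    have hK : IsClosed K := (isCompact_range (by fun_prop)).isClosed
    have h1K : (1 : S) ∈ K := by
      rw [← hK.closure_eq, mem_closure_iff_nhds]
      intro V hV
      have hV' : (fun x : S => 1 + x) ⁻¹' V ∈ 𝓝 (0 : S) := by
        apply ContinuousAt.preimage_mem_nhds (by fun_prop)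
        simpa using hV
      obtain ⟨I, hI, hIV⟩ := hb _ hV'
      obtain ⟨n, hpn⟩ := hn I hI
      refine ⟨1 - (-(p : S)) ^ n, ?_, ?_⟩
      · have : -(-(p : S)) ^ n ∈ I := by
          apply I.neg_mem
          rw [neg_pow]
          exact I.mul_mem_left _ hpn
        have h3 := hIV this
        simpa [sub_eq_add_neg] using h3
      · refine ⟨∑ i ∈ Finset.range n, (-(p : S)) ^ i, ?_⟩
        have h4 := mul_neg_geom_sum (-(p : S)) n
        simpa using h4
    obtain ⟨y, hy⟩ := h1K
    exact IsUnit.of_mul_eq_one y hy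
  have h2 : (1 + (p : S)) = 2 * (((p + 1) / 2 : ℕ) : S) := by
    have : 1 + p = 2 * ((p + 1) / 2) := by omega
    have h3 := congrArg (Nat.cast : ℕ → S) this
    push_cast at h3
    rw [h3]
  rw [h2] at h1
  exact isUnit_of_mul_isUnit_left h1

theorem FIN_derived {G : Type} [Group G] (G1 : Subgroup G) (h : commutator G ≤ G1) (n : ℕ) :
    derivedSeries G (n + 1) ≤ (derivedSeries G1 n).map G1.subtype := by
  induction n with
  | zero =>
    intro x hx
    have hx1 : x ∈ commutator G := by
      rw [zero_add, derivedSeries_one] at hx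
      exact hx
    exact ⟨⟨x, h hx1⟩, by simp, rfl⟩
  | succ n ih =>
    rw [derivedSeries_succ G (n + 1), derivedSeries_succ G1 n, Subgroup.map_commutator]
    exact Subgroup.commutator_mono ih ih

theorem FIN_row (hCLS : CLS_stmt) (hISO : ISO_stmt) (hMTH : MTH_stmt) (_ : TDG_stmt)
    (hIDL : IDL_stmt) (hJNI : JNI_stmt) (hGCJ : GCJ_stmt) (hPRM : PRM_stmt) (hQTR : QTR_stmt) :
    FIN_stmt := by
  intro p R _ _ _ _ _ _ G _ _ _ _ _ _ ρ hp hp2 hG hcd hρ hinj
  have hodd : p % 2 = 1 := by
    rcases hp.eq_two_or_odd with h | h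
    · exact absurd h hp2
    · exact h
  have basisR := hIDL R
  obtain ⟨J, hJ1, hJ2, hJ3⟩ := hJNI R
  obtain ⟨S, _, _, π, hS1, hS2, hS3, hπc, hπs, hπk, hSb, hSp⟩ := hQTR p R basisR
  have := hS1
  have := hS2
  have := hS3
  obtain ⟨JS, hJS1, hJS2, hJS3⟩ := hJNI S
  have hset : Setup p S JS := ⟨hSb, hJS3, hJS2, (hJS1 _).2 hSp⟩
  letI : Invertible (2 : S) := (FIN_unit p hSb hSp hodd).invertible
  -- the commutator subgroup
  let G1 : Subgroup G := (commutator G).topologicalClosure
  have hG1c : IsClosed (G1 : Set G) := (commutator G).isClosed_topologicalClosure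
  have hG1 : H3Zero p G1 := hCLS p G hp hcd G1 hG1c
  have : CompactSpace G1 := isCompact_iff_compactSpace.1 hG1c.isCompact
  have hcJ : ∀ g ∈ G1, ρ g ∈ Sg J := by
    have h1 : commutator G ≤ (Sg J).comap ρ := by
      rw [commutator_def, Subgroup.commutator_le]
      intro g _ h _
      rw [Subgroup.mem_comap, commutatorElement_def]
      exact hGCJ p R J G ρ hp hp2 hJ1 hG hρ g h
    have h2 : IsClosed (((Sg J).comap ρ : Subgroup G) : Set G) :=
      (FIN_closed_Sg J hJ2).preimage hρ
    exact fun g hg => Subgroup.topologicalClosure_minimal _ h1 h2 hg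
  -- the map to GL_2(S)
  let μ : GL (Fin 2) R →* GL (Fin 2) S := Matrix.GeneralLinearGroup.map π
  have hμ : Continuous μ := by
    have h1 : Continuous (RingHom.mapMatrix π : M2 R →+* M2 S) :=
      continuous_id.matrix_map hπc
    exact Continuous.units_map (RingHom.mapMatrix π : M2 R →+* M2 S).toMonoidHom h1
  have hμe : ∀ (g : GL (Fin 2) R) (i j : Fin 2), (μ g : M2 S) i j = π ((g : M2 R) i j) :=
    fun g i j => rfl
  have hπone : ∀ i j : Fin 2, π ((1 : M2 R) i j) = (1 : M2 S) i j := by
    intro i j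
    rw [Matrix.one_apply, Matrix.one_apply]
    split_ifs <;> simp
  have hμS : ∀ g : GL (Fin 2) R, g ∈ Sg J → μ g ∈ Sg JS := by
    intro g hg
    rw [Lib_mem_Sg] at hg ⊢
    refine ⟨?_, fun i j => ?_⟩
    · have h1 : (μ g : M2 S) = π.mapMatrix (g : M2 R) := rfl
      rw [h1, ← RingHom.map_det, hg.1, map_one]
    · rw [Matrix.sub_apply, hμe, ← hπone, ← map_sub, hJS1]
      intro I hI
      have hI' : IsOpen ((I.comap π : Ideal R) : Set R) := hI.preimage hπc
      obtain ⟨n, hn⟩ := (hJ1 _).1 (hg.2 i j) _ hI'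
      refine ⟨n, ?_⟩
      rw [Ideal.mem_comap, map_pow] at hn
      exact hn
  let ρ' : G1 →* GL (Fin 2) S := μ.comp (ρ.comp G1.subtype)
  have hρ'c : Continuous ρ' := hμ.comp (hρ.comp continuous_subtype_val)
  have hρ'i : Function.Injective ρ' := by
    rw [injective_iff_map_eq_one]
    intro g hg
    have h1 : ρ g.1 = 1 := by
      apply hPRM p R J hp basisR hJ3 (ρ g.1) (hcJ g.1 g.2)
      · intro n i j
        refine (hπk _).1 ?_ n
        have h2 : (μ (ρ g.1) : M2 S) i j = (1 : M2 S) i j := by
          have : μ (ρ g.1) = 1 := hg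
          rw [this]; rfl
        rw [Matrix.sub_apply, map_sub, ← hμe, h2, hπone, sub_self]
      · intro I hI
        let κ : G →* GL (Fin 2) (R ⧸ I) := (Matrix.GeneralLinearGroup.map (Ideal.Quotient.mk I)).comp ρ
        have hκ : ∀ h : G, h ∈ κ.ker ↔ ∀ i j : Fin 2, ((ρ h : M2 R) - 1) i j ∈ I := by
          intro h
          rw [MonoidHom.mem_ker]
          constructor
          · intro h3 i j
            have h4 := congrArg (fun u : GL (Fin 2) (R ⧸ I) =>
              (u : Matrix (Fin 2) (Fin 2) (R ⧸ I)) i j) h3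
            have h5 : Ideal.Quotient.mk I ((ρ h : M2 R) i j)
                = (1 : Matrix (Fin 2) (Fin 2) (R ⧸ I)) i j := h4
            rw [← Ideal.Quotient.eq_zero_iff_mem, Matrix.sub_apply, map_sub, h5]
            rw [Matrix.one_apply, Matrix.one_apply]
            split_ifs <;> simp
          · intro h3
            apply Units.ext
            ext i j
            have h4 := h3 i j
            rw [← Ideal.Quotient.eq_zero_iff_mem, Matrix.sub_apply, map_sub, sub_eq_zero] at h4
            have h5 : Ideal.Quotient.mk I ((ρ h : M2 R) i j)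
                = (1 : Matrix (Fin 2) (Fin 2) (R ⧸ I)) i j := by
              rw [h4, Matrix.one_apply, Matrix.one_apply]
              split_ifs <;> simp
            exact h5
        have hκo : IsOpen (κ.ker : Set G) := by
          have h3 : (κ.ker : Set G) = ⋂ i : Fin 2, ⋂ j : Fin 2,
              {h : G | ((ρ h : M2 R) - 1) i j ∈ I} := by
            ext h
            simp only [SetLike.mem_coe, hκ, Set.mem_iInter, Set.mem_ofPred_eq]
          rw [h3]
          refine isOpen_iInter_of_finite fun i => isOpen_iInter_of_finite fun j => ?_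
          have h4 : Continuous (fun h : G => ((ρ h : M2 R) - 1) i j) :=
            ((Units.continuous_val.comp hρ).sub continuous_const).matrix_elem i j
          exact hI.preimage h4
        obtain ⟨k, hk⟩ := hG κ.ker hκo inferInstance
        refine ⟨k, ?_⟩
        have h5 := Subgroup.pow_index_mem κ.ker g.1
        rw [hk] at h5
        have h6 := (hκ _).1 h5
        rw [map_pow] at h6
        exact h6
    apply Subtype.ext
    apply hinj
    rw [h1]
    simp
  -- the image
  let Γ : Subgroup (GL (Fin 2) S) := ρ'.range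
  have hΓc : IsClosed (Γ : Set (GL (Fin 2) S)) := by
    have : (Γ : Set (GL (Fin 2) S)) = Set.range ρ' := MonoidHom.coe_range ρ'
    rw [this]
    exact (isCompact_range hρ'c).isClosed
  have hΓS : Γ ≤ Sg JS := by
    rintro _ ⟨g, rfl⟩
    exact hμS _ (hcJ g.1 g.2)
  let e0 : G1 ≃* Γ := MonoidHom.ofInjective hρ'i
  have he0 : Continuous e0 := by
    apply Continuous.subtype_mk hρ'c
  let e : G1 ≃ₜ* Γ :=
    { e0 with
      continuous_toFun := he0
      continuous_invFun := (Continuous.homeoOfEquivCompactToT2 (f := e0.toEquiv) he0).symm.continuous }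
  have hΓ : H3Zero p Γ := hISO p G1 Γ e hG1
  have hder := hMTH p S JS hp hp2 hset Γ hΓS hΓc hΓ
  have hder1 : derivedSeries G1 3 = ⊥ := by
    rw [eq_bot_iff]
    intro x hx
    have h1 : e0 x ∈ derivedSeries Γ 3 := by
      have h2 := map_derivedSeries_le_derivedSeries e0.toMonoidHom 3
      exact h2 ⟨x, hx, rfl⟩
    rw [hder, Subgroup.mem_bot] at h1
    rw [Subgroup.mem_bot]
    exact e0.injective (by rw [h1, map_one])
  have h4 := FIN_derived G1 (commutator G).le_topologicalClosure 3
  rw [hder1, Subgroup.map_bot] at h4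
  exact le_bot_iff.1 h4

end Pool.Agent.PP2
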