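import Pool.Agent.helper96.PP2.SpecC

namespace Pool.Agent.PP2

open Topology Matrix

/-- the stabiliser ring as an additive group -/
def IDX_S {R : Type} [CommRing R] (N' : AddSubgroup (M2 R)) : AddSubgroup R where
  carrier := {s | ∀ W ∈ N', s • W ∈ N'}
  zero_mem' := fun W _ => by rw [zero_smul]; exact N'.zero_mem
  add_mem' := fun hs ht W hW => by rw [add_smul]; exact N'.add_mem (hs W hW) (ht W hW)
  neg_mem' := fun hs W hW => by rw [neg_smul]; exact N'.neg_mem (hs W hW)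

theorem IDX_S_closed {R : Type} [CommRing R] [TopologicalSpace R] [IsTopologicalRing R]
    (N' : AddSubgroup (M2 R)) (h : IsClosed (N' : Set (M2 R))) :
    IsClosed (IDX_S N' : Set R) := by
  have h1 : (IDX_S N' : Set R) = ⋂ W ∈ N', (fun s : R => s • W) ⁻¹' (N' : Set (M2 R)) := by
    ext s
    simp [IDX_S]
  rw [h1]
  exact isClosed_biInter fun W _ => h.preimage (by fun_prop)

section

variable {p : ℕ} {R : Type} [CommRing R] [TopologicalSpace R] [IsTopologicalRing R]
  [CompactSpace R] [T2Space R] [Invertible (2 : R)] {J : Ideal R}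

theorem IDX_diff (hSQU : SQU_stmt) (hp : p.Prime) (hp2 : p ≠ 2) (hset : Setup p R J)
    (N' : AddSubgroup (M2 R)) (hA : Adm J N') (a b D : R) (X : M2 R) (haJ : a - 1 ∈ J)
    (hbJ : b - 1 ∈ J) (haS : a - 1 ∈ IDX_S N') (hbS : b - 1 ∈ IDX_S N')
    (hab : (b - a) * (b + a) = ⅟(2 : R) * D) (hD : D • X ∈ N') : (a - b) • X ∈ N' := by
  have hh := Lib_half (R := R)
  have hj : ⅟(2 : R) * ((a - 1) + (b - 1)) ∈ J := J.mul_mem_left _ (J.add_mem haJ hbJ)
  have hjS : ⅟(2 : R) * ((a - 1) + (b - 1)) ∈ IDX_S N' := by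
    intro W hW
    rw [mul_smul]
    exact hA.half _ ((IDX_S N').add_mem haS hbS W hW)
  obtain ⟨y, _, hy, hyS⟩ := (hSQU p R J hp hp2 hset).1 _ hj
  have hyS' : y ∈ IDX_S N' := by
    apply hyS (IDX_S N') (IDX_S_closed N' hA.closed) _ hjS
    intro s hs t ht W hW
    rw [mul_smul]
    exact hs _ (ht W hW)
  have h1 : a - b = -(⅟(2 : R) * (⅟(2 : R) * ((1 + y) * D))) := by
    have h2 : (b - a) * (2 * (1 + ⅟(2 : R) * ((a - 1) + (b - 1)))) = ⅟(2 : R) * D := by
      linear_combination hab + ((b - a) * (a + b - 2)) * hh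
    have h3 : 2 * (b - a) = ⅟(2 : R) * ((1 + y) * D) := by
      linear_combination (1 + y) * h2 - (2 * (b - a)) * hy
    linear_combination (-⅟(2 : R)) * h3 + (b - a) * hh
  rw [h1, neg_smul, mul_smul, mul_smul, mul_smul, add_smul, one_smul]
  exact N'.neg_mem (hA.half _ (hA.half _ (N'.add_mem hD (hyS' _ hD))))

end

theorem IDX_row (hHAV : HAV_stmt) (hSQU : SQU_stmt) (hEXI : EXI_stmt) (hAMU : AMU_stmt)
    (hSUB : SUB_stmt) : IDX_stmt := by
  intro p R _ _ _ _ _ _ J hp hp2 hset N' N hI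
  have hh := Lib_half (R := R)
  have hN := ((hSUB p R J hp hp2 hset).2 N hI.adm).1
  have hN' := ((hSUB p R J hp hp2 hset).2 N' hI.adm').1
  have hle : ∀ g, g ∈ ES J N' → g ∈ ES J N := fun g hg => by
    rw [hN' g] at hg
    exact (hN g).2 ⟨hg.1, hI.le hg.2⟩
  have hS : ∀ g ∈ ES J N, ht g - 1 ∈ IDX_S N' := by
    intro g hg
    have hg' := (hN g).1 hg
    intro W hW
    exact hAMU p R J hp hp2 hset g hg'.1 N' N' hI.adm'.closed le_rfl
      (fun Z hZ => hI.b2 Z hZ _ hg'.2 _ hg'.2) W hW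
  have hmulN' : ∀ g ∈ ES J N, ∀ W ∈ N', ht g • W ∈ N' := by
    intro g hg W hW
    have h1 := N'.add_mem hW (hS g hg W hW)
    have h2 : W + (ht g - 1) • W = ht g • W := by rw [sub_smul, one_smul]; abel
    rwa [h2] at h1
  -- the criterion
  have hcrit : ∀ g ∈ ES J N, ∀ h ∈ ES J N, (g⁻¹ * h ∈ ES J N' ↔ TH h - TH g ∈ N') := by
    intro g hg h hhm
    have hg' := (hN g).1 hg
    have hh' := (hN h).1 hhm
    constructor
    · intro hk
      set k := g⁻¹ * h with hkdef
      have hk' := (hN' k).1 hk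
      have hgk : h = g * k := by rw [hkdef]; group
      have e1 : TH h = ht g • TH k + ht k • TH g + ⅟(2 : R) • Br (TH g) (TH k) := by
        conv_lhs => rw [hgk]
        exact Lib_TH_mul g k
      have e2 : TH h - TH g = ht g • TH k - (1 - ht k) • TH g - ⅟(2 : R) • Br (TH k) (TH g) := by
        rw [e1, Lib_Br_swap (TH g) (TH k), sub_smul, one_smul, smul_neg]
        abel
      rw [e2]
      refine N'.sub_mem (N'.sub_mem (hmulN' g hg _ hk'.2) ?_) ?_
      · refine IDX_diff hSQU hp hp2 hset N' hI.adm' 1 (ht k) (Bf (TH k) (TH k)) (TH g) ?_ ?_ ?_ ?_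
          ?_ ?_
        · rw [sub_self]; exact J.zero_mem
        · exact Lib_ht_sub_one J k hk'.1
        · rw [sub_self]; exact (IDX_S N').zero_mem
        · exact hS k (hle k hk)
        · have := Lib_ht_sq J k hk'.1
          linear_combination this
        · exact hI.b1 _ hk'.2 _ (hI.le hk'.2) _ hg'.2
      · exact hI.adm'.half _ (hI.br _ hk'.2 _ hg'.2)
    · intro hW
      have hsg : g⁻¹ * h ∈ Sg J := (Sg J).mul_mem ((Sg J).inv_mem hg'.1) hh'.1
      rw [hN']
      refine ⟨hsg, ?_⟩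
      rw [Lib_TH_mul, Lib_TH_inv J g hg'.1, Lib_ht_inv J g hg'.1]
      have e1 : ht g • TH h + ht h • -TH g + ⅟(2 : R) • Br (-TH g) (TH h)
          = ht g • (TH h - TH g) + (ht g - ht h) • TH g + ⅟(2 : R) • Br (TH h - TH g) (TH g) := by
        have e2 : Br (TH h - TH g) (TH g) = Br (-TH g) (TH h) := by
          rw [sub_eq_add_neg, Lib_add_Br, Lib_neg_Br, Lib_neg_Br, Lib_Br_self, neg_zero, add_zero,
            Lib_Br_swap (TH h) (TH g)]
        rw [e2, smul_sub, sub_smul, smul_neg]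
        abel
      rw [e1]
      refine N'.add_mem (N'.add_mem (hmulN' g hg _ hW) ?_) (hI.adm'.half _ (hI.br _ hW _ hg'.2))
      refine IDX_diff hSQU hp hp2 hset N' hI.adm' (ht g) (ht h) (Bf (TH h - TH g) (TH h + TH g))
        (TH g) (Lib_ht_sub_one J g hg'.1) (Lib_ht_sub_one J h hh'.1) (hS g hg) (hS h hhm) ?_ ?_
      · have e3 := Lib_ht_sq J g hg'.1
        have e4 := Lib_ht_sq J h hh'.1
        have e5 : Bf (TH h - TH g) (TH h + TH g) = Bf (TH h) (TH h) - Bf (TH g) (TH g) := by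
          simp only [Lib_Bf, Matrix.sub_apply, Matrix.add_apply]; ring
        rw [e5]
        linear_combination e4 - e3
      · exact hI.b1 _ hW _ (N.add_mem hh'.2 hg'.2) _ hg'.2
  refine ⟨hcrit, ?_, ?_⟩
  · -- the index
    have hmem : ∀ g : ES J N, TH g.1 ∈ N := fun g => ((hN g.1).1 g.2).2
    let f : ES J N → (N ⧸ N'.addSubgroupOf N) := fun g => QuotientAddGroup.mk ⟨TH g.1, hmem g⟩
    have hf : ∀ g h : ES J N, (QuotientGroup.leftRel ((ES J N').subgroupOf (ES J N))) g h ↔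
        f g = f h := by
      intro g h
      rw [QuotientGroup.leftRel_apply, Subgroup.mem_subgroupOf]
      have e1 : ((g⁻¹ * h : ES J N) : GL (Fin 2) R) = g.1⁻¹ * h.1 := rfl
      rw [e1, hcrit g.1 g.2 h.1 h.2]
      simp only [f]
      rw [QuotientAddGroup.eq, AddSubgroup.mem_addSubgroupOf]
      have e2 : ((-(⟨TH g.1, hmem g⟩ : N) + ⟨TH h.1, hmem h⟩ : N) : M2 R) = TH h.1 - TH g.1 := by
        change -TH g.1 + TH h.1 = TH h.1 - TH g.1
        abel
      rw [e2]
    let F : (ES J N ⧸ (ES J N').subgroupOf (ES J N)) → (N ⧸ N'.addSubgroupOf N) :=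
      Quotient.lift f (fun a b hab => (hf a b).1 hab)
    have hFb : Function.Bijective F := by
      constructor
      · intro a b
        refine Quotient.inductionOn₂ a b fun x y hxy => ?_
        exact Quotient.sound ((hf x y).2 hxy)
      · intro b
        obtain ⟨⟨X, hX⟩, rfl⟩ := QuotientAddGroup.mk_surjective b
        obtain ⟨g, hg, hgX⟩ := (hEXI p R J hp hp2 hset).1 X (hI.adm.tr X hX) (hI.adm.ent X hX)
        have hgN : g ∈ ES J N := (hN g).2 ⟨hg, by rw [hgX]; exact hX⟩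
        refine ⟨Quotient.mk _ ⟨g, hgN⟩, ?_⟩
        change f ⟨g, hgN⟩ = _
        simp only [f]
        congr 1
        exact Subtype.ext hgX
    have := Nat.card_congr (Equiv.ofBijective F hFb)
    exact this
  · -- normality
    intro g hg h hhm
    have hg' := (hN g).1 hg
    have hh' := (hN' h).1 hhm
    have hhN := hle h hhm
    rw [hN']
    refine ⟨(Sg J).mul_mem ((Sg J).mul_mem hg'.1 hh'.1) ((Sg J).inv_mem hg'.1), ?_⟩
    have e1 : TH (g * h * g⁻¹) = ht g • (ht g • TH h) - ht g • Br (TH h) (TH g)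
        - ⅟(2 : R) • (Bf (TH h) (TH g) • TH g)
        + ⅟(2 : R) • (⅟(2 : R) • Br (Br (TH h) (TH g)) (TH g)) := by
      have e2 : ⅟(2 : R) • (ht g • Br (TH h) (TH g)) + ⅟(2 : R) • (ht g • Br (TH h) (TH g))
          = ht g • Br (TH h) (TH g) := by
        rw [← two_smul R, smul_smul, mul_invOf_self, one_smul]
      rw [Lib_TH_mul (g * h) g⁻¹, Lib_TH_inv J g hg'.1, Lib_ht_inv J g hg'.1, Lib_ht_mul,
        Lib_TH_mul g h, Lib_Br_neg, Lib_add_Br, Lib_add_Br, Lib_smul_Br, Lib_smul_Br, Lib_smul_Br,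
        Lib_Br_self, smul_zero, add_zero, Lib_Br_swap (TH g) (TH h), Lib_neg_Br,
        Lib_Bf_comm (TH g) (TH h)]
      simp only [smul_add, smul_neg, add_smul, mul_smul]
      rw [smul_comm (ht g) (ht h) (TH g), smul_comm (ht g) (⅟(2 : R)) (Br (TH h) (TH g))]
      conv_rhs => rw [← e2]
      abel
    rw [e1]
    have hbr := hI.br _ hh'.2 _ hg'.2
    refine N'.add_mem (N'.sub_mem (N'.sub_mem (hmulN' g hg _ (hmulN' g hg _ hh'.2))
      (hmulN' g hg _ hbr)) (hI.adm'.half _ (hI.b1 _ hh'.2 _ hg'.2 _ hg'.2)))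
      (hI.adm'.half _ (hI.adm'.half _ (hI.br _ hbr _ hg'.2)))

end Pool.Agent.PP2
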