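import Pool.Agent.helper96.PP2.SpecB

namespace Pool.Agent.PP2

open Topology Matrix

/-- traceless matrices with entries in `J` -/
def LTR_K {R : Type} [CommRing R] (J : Ideal R) : AddSubgroup (M2 R) where
  carrier := {X | Matrix.trace X = 0 ∧ ∀ i j, X i j ∈ J}
  zero_mem' := ⟨Matrix.trace_zero _ _, fun _ _ => J.zero_mem⟩
  add_mem' := by
    rintro X Y ⟨h1, h2⟩ ⟨h3, h4⟩
    exact ⟨by rw [Matrix.trace_add, h1, h3, add_zero], fun i j => J.add_mem (h2 i j) (h4 i j)⟩
  neg_mem' := by
    rintro X ⟨h1, h2⟩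
    exact ⟨by rw [Matrix.trace_neg, h1, neg_zero], fun i j => J.neg_mem (h2 i j)⟩

theorem LTR_K_closed {R : Type} [CommRing R] [TopologicalSpace R] [IsTopologicalRing R]
    [T2Space R] (J : Ideal R) (hJ : IsClosed (J : Set R)) :
    IsClosed (LTR_K J : Set (M2 R)) := by
  have h1 : (LTR_K J : Set (M2 R)) = {X : M2 R | Matrix.trace X = 0} ∩
      ⋂ i : Fin 2, ⋂ j : Fin 2, (fun X : M2 R => X i j) ⁻¹' (J : Set R) := by
    ext X
    simp [LTR_K]
  rw [h1]
  refine IsClosed.inter (isClosed_eq (continuous_id.matrix_trace) continuous_const) ?_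
  refine isClosed_iInter fun i => isClosed_iInter fun j => hJ.preimage ?_
  exact continuous_id.matrix_elem i j

theorem LTR_row : LTR_stmt := by
  intro p R _ _ _ _ _ _ J hp hp2 hset Γ hΓ n
  have hK := LTR_K_closed J hset.closed
  have hall : ∀ n, Lc Γ n ≤ LTR_K J := by
    intro n
    have h0 : LL Γ ≤ LTR_K J := by
      apply AddSubgroup.topologicalClosure_minimal _ _ hK
      rw [AddSubgroup.closure_le]
      rintro _ ⟨g, hg, rfl⟩
      exact ⟨Lib_trace_TH g, fun i j => Lib_TH_ent J g (hΓ hg) i j⟩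
    cases n with
    | zero => exact h0
    | succ n =>
      apply AddSubgroup.topologicalClosure_minimal _ _ hK
      rw [AddSubgroup.closure_le]
      rintro _ ⟨X, hX, Y, _, rfl⟩
      refine ⟨Lib_trace_Br X Y, fun i j => ?_⟩
      have hXe := (h0 hX).2
      simp only [Br, Matrix.sub_apply, Matrix.mul_apply, Fin.sum_univ_two]
      refine J.sub_mem (J.add_mem (J.mul_mem_right _ (hXe _ _)) (J.mul_mem_right _ (hXe _ _)))
        (J.add_mem (J.mul_mem_left _ (hXe _ _)) (J.mul_mem_left _ (hXe _ _)))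
  refine ⟨?_, fun X hX => hall n hX⟩
  cases n with
  | zero => exact AddSubgroup.isClosed_topologicalClosure _
  | succ n => exact AddSubgroup.isClosed_topologicalClosure _

end Pool.Agent.PP2
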