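import Pool.Agent.helper96.PP2.SpecB

namespace Pool.Agent.PP2

open Topology Matrix

theorem TDG_R {p : ℕ} {R : Type} [CommRing R] [TopologicalSpace R] [IsTopologicalRing R]
    [T2Space R] {J : Ideal R} (h : Setup p R J) : TotallyDisconnectedSpace R := by
  have : TotallySeparatedSpace R := by
    rw [totallySeparatedSpace_iff_exists_isClopen]
    intro x y hxy
    have h1 : {x - y}ᶜ ∈ 𝓝 (0 : R) := by
      apply isOpen_compl_singleton.mem_nhds
      simp only [Set.mem_compl_iff, Set.mem_singleton_iff]
      intro h0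
      exact hxy (sub_eq_zero.1 h0.symm)
    obtain ⟨I, hI, hIU⟩ := h.basis _ h1
    have hIc : IsClosed (I : Set R) := (I.toAddSubgroup).isClosed_of_isOpen hI
    refine ⟨(fun z : R => x - z) ⁻¹' (I : Set R), ⟨hIc.preimage (by fun_prop), hI.preimage (by fun_prop)⟩,
      ?_, ?_⟩
    · simp
    · intro hy
      exact hIU hy rfl
  infer_instance

theorem TDG_row : TDG_stmt := by
  intro p R _ _ _ _ _ J h
  have hR : TotallyDisconnectedSpace R := TDG_R h
  have hM : TotallyDisconnectedSpace (M2 R) :=
    inferInstanceAs (TotallyDisconnectedSpace (Fin 2 → Fin 2 → R))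
  have hMc : CompactSpace (M2 R) := inferInstanceAs (CompactSpace (Fin 2 → Fin 2 → R))
  have hMt : T2Space (M2 R) := inferInstanceAs (T2Space (Fin 2 → Fin 2 → R))
  have hMo : CompactSpace (M2 R)ᵐᵒᵖ := MulOpposite.opHomeomorph.compactSpace
  have hce : IsClosedEmbedding (Units.embedProduct (M2 R)) := Units.isClosedEmbedding_embedProduct
  refine ⟨hce.compactSpace, inferInstance, ?_⟩
  constructor
  intro t _ ht
  have h1 : (Units.val '' t : Set (M2 R)).Subsingleton :=
    (isTotallyDisconnected_of_totallyDisconnectedSpace (Set.univ : Set (M2 R))) _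
      (Set.subset_univ _) (ht.image _ Units.continuous_val.continuousOn)
  intro x hx y hy
  apply Units.ext
  exact h1 ⟨x, hx, rfl⟩ ⟨y, hy, rfl⟩

end Pool.Agent.PP2
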