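import Pool.Agent.helper96.PP2.SpecC

namespace Pool.Agent.PP2

open Topology Matrix

theorem UCO_row (hAMU : AMU_stmt) (hSUB : SUB_stmt) (hPMV : PMV_stmt) : UCO_stmt := by
  intro p R _ _ _ _ _ _ J hp hp2 hset V hV j g hg h hh
  have hmem : ∀ m (k : GL (Fin 2) R), k ∈ ES J (sN ((p : R) ^ m) V) ↔
      k ∈ Sg J ∧ TH k ∈ sN ((p : R) ^ m) V := fun m =>
    ((hSUB p R J hp hp2 hset).2 _ (hPMV p R J hp hp2 hset V hV m m le_rfl).1).1
  rw [hmem] at hg hh ⊢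
  obtain ⟨hgS, x, hx, hgx⟩ := hg
  obtain ⟨hhS, y, hy, hhy⟩ := hh
  have hgx' : TH g = (p : R) ^ (2 + j) • x := hgx.symm
  have hhy' : TH h = (p : R) ^ (2 + j) • y := hhy.symm
  refine ⟨(Sg J).mul_mem ((Sg J).mul_mem ((Sg J).mul_mem hgS hhS) ((Sg J).inv_mem hgS))
    ((Sg J).inv_mem hhS), ?_⟩
  let K : AddSubgroup (M2 R) := sN ((p : R) ^ (4 + 2 * j)) V
  have hK : Adm J K := (hPMV p R J hp hp2 hset V hV _ _ le_rfl).1
  have hmK : ∀ W ∈ V, (p : R) ^ (4 + 2 * j) • W ∈ K := fun W hW => ⟨W, hW, rfl⟩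
  have hKle : K ≤ sN ((p : R) ^ (2 + (j + 2))) V := by
    have hI := (hPMV p R J hp hp2 hset V hV (2 + (j + 2)) (4 + 2 * j) (by omega)).2
    exact hI.le
  apply hKle
  -- multiplication by the form of elements of V preserves K
  have hform : ∀ u ∈ V, ∀ v ∈ V, ∀ W ∈ K, Bf u v • W ∈ K := by
    rintro u hu v hv _ ⟨w, hw, rfl⟩
    refine ⟨Bf u v • w, hV.bf u hu v hv w hw, ?_⟩
    change (p : R) ^ (4 + 2 * j) • (Bf u v • w) = Bf u v • ((p : R) ^ (4 + 2 * j) • w)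
    rw [smul_comm]
  have hnat : ∀ (n : ℕ), ∀ W ∈ K, ((p : R) ^ n) • W ∈ K := by
    intro n W hW
    have : ((p : R) ^ n) • W = (p ^ n) • W := by
      rw [← Nat.cast_pow, Nat.cast_smul_eq_nsmul]
    rw [this]
    exact K.nsmul_mem hW _
  have hBf : ∀ u ∈ V, ∀ v ∈ V, ∀ W ∈ K,
      Bf ((p : R) ^ (2 + j) • u) ((p : R) ^ (2 + j) • v) • W ∈ K := by
    intro u hu v hv W hW
    rw [Lib_smul_Bf, Lib_Bf_smul, ← mul_assoc, ← pow_add, mul_smul]
    exact hnat _ _ (hform u hu v hv W hW)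
  have hg1 : ∀ W ∈ K, ht g • W ∈ K := by
    intro W hW
    have h1 := hAMU p R J hp hp2 hset g hgS K K hK.closed le_rfl
      (fun Z hZ => by rw [hgx']; exact hBf x hx x hx Z hZ) W hW
    have h2 := K.add_mem h1 hW
    have h3 : (ht g - 1) • W + W = ht g • W := by rw [sub_smul, one_smul]; abel
    rwa [h3] at h2
  have hh1 : ∀ W ∈ K, ht h • W ∈ K := by
    intro W hW
    have h1 := hAMU p R J hp hp2 hset h hhS K K hK.closed le_rfl
      (fun Z hZ => by rw [hhy']; exact hBf y hy y hy Z hZ) W hW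
    have h2 := K.add_mem h1 hW
    have h3 : (ht h - 1) • W + W = ht h • W := by rw [sub_smul, one_smul]; abel
    rwa [h3] at h2
  have hZ : Br (TH g) (TH h) = (p : R) ^ (4 + 2 * j) • Br x y := by
    rw [hgx', hhy', Lib_smul_Br, Lib_Br_smul, smul_smul, ← pow_add]
    congr 2
    omega
  have hZK : Br (TH g) (TH h) ∈ K := by
    rw [hZ]
    exact hmK _ (hV.br x hx y hy)
  have hZ2 : ∀ w ∈ V, Br (Br (TH g) (TH h)) ((p : R) ^ (2 + j) • w) ∈ K := by
    intro w hw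
    rw [hZ, Lib_smul_Br, Lib_Br_smul, smul_comm]
    exact hnat _ _ (hmK _ (hV.br _ (hV.br x hx y hy) w hw))
  rw [Lib_TH_comm J g h hgS hhS]
  refine K.sub_mem (K.sub_mem ?_ ?_) ?_
  · rw [add_smul, mul_smul, mul_smul]
    refine K.add_mem (hg1 _ (hh1 _ hZK)) (hK.half _ ?_)
    have := hBf x hx y hy _ hZK
    rw [← hgx', ← hhy'] at this
    exact this
  · rw [mul_smul]
    refine hK.half _ (hg1 _ ?_)
    have := hZ2 y hy
    rw [← hhy'] at this
    exact this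
  · rw [mul_smul]
    refine hK.half _ (hh1 _ ?_)
    have := hZ2 x hx
    rw [← hgx'] at this
    exact this

end Pool.Agent.PP2
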