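import Pool.Agent.helper75.PP2.OPN
import Pool.Agent.helper90.PP2.CLS
import Pool.Agent.helper72.PP2.ISO
import Pool.Agent.helper35.PP2.TRS
import Pool.Agent.helper77.PP2.TOR
import Pool.Agent.helper27.PP2.ABH
import Pool.Agent.helper27.PP2.ABI
import Pool.Agent.helper17.PP2.E2R
import Pool.Agent.helper17.PP2.E1R
import Pool.Agent.helper48.PP2.SBM
import Pool.Agent.helper32.PP2.EUL
import Pool.Agent.helper99.PP2.SHA
import Pool.Agent.helper77.PP2.CIN
import Pool.Agent.helper96.PP2.KEY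
import Pool.Agent.helper54.PP2.SEC
import Pool.Agent.helper27.PP2.INF
import Pool.Agent.helper72.PP2.H2U
import Pool.Agent.helper30.PP2.H1U
import Pool.Agent.helper27.PP2.H2L
import Pool.Agent.helper72.PP2.SHF
import Pool.Agent.helper54.PP2.IXN
import Pool.Agent.helper8.PP2.FNB
import Pool.Agent.helper1.PP2.HAV
import Pool.Agent.helper1.PP2.SQR
import Pool.Agent.helper1.PP2.SQU
import Pool.Agent.helper78.PP2.EXI
import Pool.Agent.helper30.PP2.AMU
import Pool.Agent.helper2.PP2.SUB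
import Pool.Agent.helper96.PP2.LTR
import Pool.Agent.helper1.PP2.LBR
import Pool.Agent.helper35.PP2.LBF
import Pool.Agent.helper1.PP2.LLE
import Pool.Agent.helper87.PP2.LCM
import Pool.Agent.helper49.PP2.LCT
import Pool.Agent.helper17.PP2.LSM
import Pool.Agent.helper1.PP2.ADM
import Pool.Agent.helper31.PP2.CMN
import Pool.Agent.helper96.PP2.TDG
import Pool.Agent.helper2.PP2.DEN
import Pool.Agent.helper73.PP2.APX
import Pool.Agent.helper34.PP2.SOL
import Pool.Agent.helper49.PP2.HCL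
import Pool.Agent.helper96.PP2.IDX
import Pool.Agent.helper10.PP2.CTM
import Pool.Agent.helper47.PP2.MOX
import Pool.Agent.helper47.PP2.PID
import Pool.Agent.helper85.PP2.POW
import Pool.Agent.helper11.PP2.FIT
import Pool.Agent.helper79.PP2.AFI
import Pool.Agent.helper52.PP2.TFL
import Pool.Agent.helper73.PP2.VAD
import Pool.Agent.helper73.PP2.RNK
import Pool.Agent.helper47.PP2.PMV
import Pool.Agent.helper62.PP2.PWT
import Pool.Agent.helper82.PP2.UPI
import Pool.Agent.helper25.PP2.UBA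
import Pool.Agent.helper76.PP2.URT
import Pool.Agent.helper96.PP2.UCO
import Pool.Agent.helper62.PP2.UNF
import Pool.Agent.helper77.PP2.MTH
import Pool.Agent.helper11.PP2.IDL
import Pool.Agent.helper72.PP2.JNI
import Pool.Agent.helper31.PP2.ABP
import Pool.Agent.helper52.PP2.GCJ
import Pool.Agent.helper68.PP2.PRM
import Pool.Agent.helper78.PP2.QTR
import Pool.Agent.helper96.PP2.FIN

/-!
# Assembly of the rows pg:
-/

namespace Pool.Agent.PP2

theorem a_OPN : OPN_stmt := OPN_row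

theorem a_CLS : CLS_stmt := CLS_row a_OPN

theorem a_ISO : ISO_stmt := ISO_row

theorem a_TRS : TRS_stmt := TRS_row

theorem a_TOR : TOR_stmt := TOR_row a_TRS a_CLS

theorem a_ABH : ABH_stmt := ABH_row

theorem a_ABI : ABI_stmt := ABI_row a_ABH

theorem a_E2R : E2R_stmt := E2R_row

theorem a_E1R : E1R_stmt := E1R_row

theorem a_SBM : SBM_stmt := SBM_row

theorem a_EUL : EUL_stmt := EUL_row a_E2R a_E1R a_SBM

theorem a_SHA : SHA_stmt := SHA_row

theorem a_CIN : CIN_stmt := CIN_row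

theorem a_KEY : KEY_stmt := KEY_row

theorem a_SEC : SEC_stmt := SEC_row a_KEY

theorem a_INF : INF_stmt := INF_row a_SEC

theorem a_H2U : H2U_stmt := H2U_row a_INF

theorem a_H1U : H1U_stmt := H1U_row

theorem a_H2L : H2L_stmt := H2L_row

theorem a_SHF : SHF_stmt := SHF_row

theorem a_IXN : IXN_stmt := IXN_row

theorem a_FNB : FNB_stmt := FNB_row a_EUL a_SHA a_CIN a_H2U a_H1U a_H2L a_SHF a_IXN

theorem a_HAV : HAV_stmt := HAV_row

theorem a_SQR : SQR_stmt := SQR_row a_HAV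

theorem a_SQU : SQU_stmt := SQU_row

theorem a_EXI : EXI_stmt := EXI_row a_SQR a_SQU

theorem a_AMU : AMU_stmt := AMU a_HAV a_SQR a_SQU

theorem a_SUB : SUB_stmt := SUB_row a_AMU

theorem a_LTR : LTR_stmt := LTR_row

theorem a_LBR : LBR_stmt := LBR_row

theorem a_LBF : LBF_stmt := LBF_row a_HAV

theorem a_LLE : LLE_stmt := LLE_row a_LBR

theorem a_LCM : LCM_stmt := LCM_row a_LBF

theorem a_LCT : LCT_stmt := LCT_row a_HAV a_LTR a_LLE

theorem a_LSM : LSM_stmt := LSM_row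

theorem a_ADM : ADM_stmt := ADM_row a_HAV a_LTR a_LLE a_LCM

theorem a_CMN : CMN_stmt := CMN_row a_HAV a_AMU a_LTR a_LLE a_LCM a_LCT

theorem a_TDG : TDG_stmt := TDG_row

theorem a_DEN : DEN_stmt := DEN_row a_HAV a_AMU a_LTR a_LLE a_LCT a_CMN a_TDG

theorem a_APX : APX_stmt := APX_row a_HAV a_AMU a_SQU a_SUB a_LTR a_LLE a_LCT a_LSM a_ADM a_DEN

theorem a_SOL : SOL_stmt := SOL_row a_SUB a_LTR a_ADM a_CMN

theorem a_HCL : HCL_stmt := HCL_row a_CLS a_ISO a_TDG

theorem a_IDX : IDX_stmt := IDX_row a_HAV a_SQU a_EXI a_AMU a_SUB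

theorem a_CTM : CTM_stmt := CTM_row a_HAV a_LCM

theorem a_MOX : MOX_stmt := MOX_row a_HAV

theorem a_PID : PID_stmt := PID_row a_HAV a_MOX

theorem a_POW : POW_stmt := POW_row a_HAV a_SQR a_SQU a_SUB a_MOX

theorem a_FIT : FIT_stmt := FIT_row

theorem a_AFI : AFI_stmt := AFI_row a_ABI a_HAV a_SUB a_IDX a_MOX a_PID a_POW a_FIT a_TDG

theorem a_TFL : TFL_stmt := TFL_row a_TOR a_SUB a_LTR a_ADM a_EXI a_APX a_HCL a_IDX a_CTM a_MOX a_PID a_AFI a_TDG

theorem a_VAD : VAD_stmt := VAD_row a_HAV a_SUB a_LTR a_LLE a_ADM a_APX a_HCL a_CTM a_MOX a_AFI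

theorem a_RNK : RNK_stmt := RNK_row a_SQU

theorem a_PMV : PMV_stmt := PMV_row a_HAV

theorem a_PWT : PWT_stmt := PWT_row a_HAV a_SQR a_SQU

theorem a_UPI : UPI_stmt := UPI_row a_SQU a_EXI a_SUB a_PMV a_PWT

theorem a_UBA : UBA_stmt := UBA_row a_SQU a_SUB a_PMV

theorem a_URT : URT_stmt := URT_row a_HAV a_EXI a_SUB a_IDX a_MOX a_PMV a_PWT a_UBA a_TDG

theorem a_UCO : UCO_stmt := UCO_row a_AMU a_SUB a_PMV

theorem a_UNF : UNF_stmt := UNF_row a_SUB a_IDX a_PMV a_UPI a_URT a_UBA a_UCO a_TDG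

theorem a_MTH : MTH_stmt := MTH_row a_FNB a_SUB a_ADM a_APX a_SOL a_TDG a_HCL a_TFL a_VAD a_RNK a_PMV a_UNF

theorem a_IDL : IDL_stmt := IDL_row

theorem a_JNI : JNI_stmt := JNI_row

theorem a_ABP : ABP_stmt := ABP_row

theorem a_GCJ : GCJ_stmt := GCJ_row a_ABP

theorem a_PRM : PRM_stmt := PRM_row

theorem a_QTR : QTR_stmt := QTR_row

theorem a_FIN : FIN_stmt := FIN_row a_CLS a_ISO a_MTH a_TDG a_IDL a_JNI a_GCJ a_PRM a_QTR

end Pool.Agent.PP2
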