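import Mathlib

/-!
# Continuous cochains and the vanishing of the third cohomology group

The definitions used in the statement of the theorem on pro-p groups of cohomological
dimension at most two (MP_655a6f_al).
-/

namespace Pool.Agent.PP2

section Coh

variable {G : Type} [Group G] {A : Type} [AddCommGroup A] [DistribMulAction G A]

/-- The first coboundary. -/
def d1 (h : G → A) (a b : G) : A := a • h b - h (a * b) + h a

/-- The second coboundary. -/
def d2 (h : G → G → A) (a b c : G) : A := a • h b c - h (a * b) c + h a (b * c) - h a b

/-- The third coboundary. -/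
def d3 (f : G → G → G → A) (a b c d : G) : A :=
  a • f b c d - f (a * b) c d + f a (b * c) d - f a b (c * d) + f a b c

end Coh

/-- A locally constant (that is, continuous) function of two variables. -/
def LC2 {G A : Type} [TopologicalSpace G] (h : G → G → A) : Prop :=
  IsLocallyConstant (fun x : G × G => h x.1 x.2)

/-- A locally constant (that is, continuous) function of three variables. -/
def LC3 {G A : Type} [TopologicalSpace G] (f : G → G → G → A) : Prop :=
  IsLocallyConstant (fun x : G × G × G => f x.1 x.2.1 x.2.2)

/-- The action of `G` on the discrete module `A` is continuous: all stabilisers are open. -/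
def Smooth (G : Type) [Group G] [TopologicalSpace G] (A : Type) [AddCommGroup A]
    [DistribMulAction G A] : Prop :=
  ∀ a : A, IsOpen {g : G | g • a = a}

/-- `H^3(G, A) = 0` for every finite discrete `G`-module `A` of `p`-power order
(cohomology by continuous cochains). -/
def H3Zero (p : ℕ) (G : Type) [Group G] [TopologicalSpace G] : Prop :=
  ∀ (A : Type) [AddCommGroup A] [DistribMulAction G A],
    Finite A → (∃ k : ℕ, Nat.card A = p ^ k) → Smooth G A →
    ∀ f : G → G → G → A, LC3 f → (∀ a b c d : G, d3 f a b c d = 0) →
      ∃ h : G → G → A, LC2 h ∧ ∀ a b c : G, f a b c = d2 h a b c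

/-- Every open normal subgroup has `p`-power index. -/
def ProP (p : ℕ) (G : Type) [Group G] [TopologicalSpace G] : Prop :=
  ∀ U : Subgroup G, IsOpen (U : Set G) → U.Normal → ∃ k : ℕ, U.index = p ^ k

end Pool.Agent.PP2
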