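import Pool.Agent.helper96.PP2.Coh

/-!
# Pro-p groups of cohomological dimension at most two that are linear of degree two

Definitions for MP_655a6f_al (rows pg:). Two parts.

Part 1: cohomology of a topological group with coefficients in a discrete module, by
inhomogeneous locally constant cochains, in degrees at most three.

Part 2: two by two matrices over a compact commutative ring, the map Theta of Pink
and the Lie rings attached to a closed subgroup of the congruence group of SL_2.
-/

namespace Pool.Agent.PP2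

open Topology Matrix

/-! ## Part 1. Cohomology (see also Coh.lean) -/

section Groups

variable (G : Type) [Group G] [TopologicalSpace G] (A : Type) [AddCommGroup A]
  [DistribMulAction G A]

/-- Fixed elements. -/
def H0 : AddSubgroup A where
  carrier := {m | ∀ g : G, g • m = m}
  zero_mem' := fun g => smul_zero g
  add_mem' := by
    intro a b ha hb g
    rw [smul_add, ha g, hb g]
  neg_mem' := by
    intro a ha g
    rw [smul_neg, ha g]

/-- Continuous 1-cocycles. -/
def Z1 : AddSubgroup (G → A) where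
  carrier := {f | IsLocallyConstant f ∧ ∀ a b : G, d1 f a b = 0}
  zero_mem' := ⟨IsLocallyConstant.const 0, fun a b => by simp [d1]⟩
  add_mem' := by
    rintro f g ⟨hf, hf'⟩ ⟨hg, hg'⟩
    refine ⟨hf.add hg, fun a b => ?_⟩
    have h1 := hf' a b
    have h2 := hg' a b
    simp only [d1] at h1 h2
    simp only [d1, Pi.add_apply, smul_add]
    have : a • f b + a • g b - (f (a * b) + g (a * b)) + (f a + g a)
        = (a • f b - f (a * b) + f a) + (a • g b - g (a * b) + g a) := by abel
    rw [this, h1, h2, add_zero]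
  neg_mem' := by
    rintro f ⟨hf, hf'⟩
    refine ⟨hf.neg, fun a b => ?_⟩
    have h1 := hf' a b
    simp only [d1] at h1
    simp only [d1, Pi.neg_apply, smul_neg]
    have : -(a • f b) - -f (a * b) + -f a = -(a • f b - f (a * b) + f a) := by abel
    rw [this, h1, neg_zero]

/-- 1-coboundaries. -/
def B1 : AddSubgroup (G → A) where
  carrier := {f | ∃ m : A, ∀ g : G, f g = g • m - m}
  zero_mem' := ⟨0, fun g => by simp⟩
  add_mem' := by
    rintro f g ⟨m, hm⟩ ⟨n, hn⟩
    refine ⟨m + n, fun x => ?_⟩
    rw [Pi.add_apply, hm x, hn x, smul_add]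
    abel
  neg_mem' := by
    rintro f ⟨m, hm⟩
    refine ⟨-m, fun x => ?_⟩
    rw [Pi.neg_apply, hm x, smul_neg]
    abel

/-- Continuous 2-cocycles. -/
def Z2 : AddSubgroup (G → G → A) where
  carrier := {f | LC2 f ∧ ∀ a b c : G, d2 f a b c = 0}
  zero_mem' := ⟨IsLocallyConstant.const 0, fun a b c => by simp [d2]⟩
  add_mem' := by
    rintro f g ⟨hf, hf'⟩ ⟨hg, hg'⟩
    refine ⟨IsLocallyConstant.add hf hg, fun a b c => ?_⟩
    have h1 := hf' a b c
    have h2 := hg' a b c
    simp only [d2] at h1 h2
    simp only [d2, Pi.add_apply, smul_add]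
    have : a • f b c + a • g b c - (f (a * b) c + g (a * b) c) + (f a (b * c) + g a (b * c))
          - (f a b + g a b)
        = (a • f b c - f (a * b) c + f a (b * c) - f a b)
          + (a • g b c - g (a * b) c + g a (b * c) - g a b) := by abel
    rw [this, h1, h2, add_zero]
  neg_mem' := by
    rintro f ⟨hf, hf'⟩
    refine ⟨IsLocallyConstant.neg hf, fun a b c => ?_⟩
    have h1 := hf' a b c
    simp only [d2] at h1
    simp only [d2, Pi.neg_apply, smul_neg]
    have : -(a • f b c) - -f (a * b) c + -f a (b * c) - -f a b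
        = -(a • f b c - f (a * b) c + f a (b * c) - f a b) := by abel
    rw [this, h1, neg_zero]

/-- 2-coboundaries. -/
def B2 : AddSubgroup (G → G → A) where
  carrier := {f | ∃ h : G → A, IsLocallyConstant h ∧ ∀ a b : G, f a b = d1 h a b}
  zero_mem' := ⟨0, IsLocallyConstant.const 0, fun a b => by simp [d1]⟩
  add_mem' := by
    rintro f g ⟨h, hh, hf⟩ ⟨k, hk, hg⟩
    refine ⟨h + k, hh.add hk, fun a b => ?_⟩
    rw [Pi.add_apply, Pi.add_apply, hf, hg]
    simp only [d1, Pi.add_apply, smul_add]
    abel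
  neg_mem' := by
    rintro f ⟨h, hh, hf⟩
    refine ⟨-h, hh.neg, fun a b => ?_⟩
    rw [Pi.neg_apply, Pi.neg_apply, hf]
    simp only [d1, Pi.neg_apply, smul_neg]
    abel

/-- The order of `H^1(G, A)` (zero if infinite). -/
noncomputable def h1 : ℕ := (B1 G A).relIndex (Z1 G A)

/-- The order of `H^2(G, A)` (zero if infinite). -/
noncomputable def h2 : ℕ := (B2 G A).relIndex (Z2 G A)

/-- The order of `H^0(G, A)`. -/
noncomputable def h0 : ℕ := Nat.card (H0 G A)

end Groups

/-- The field with `p` elements, as a module with trivial action of every group. -/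
def Fp (p : ℕ) : Type := ZMod p

instance instAddCommGroupFp (p : ℕ) : AddCommGroup (Fp p) :=
  inferInstanceAs (AddCommGroup (ZMod p))

instance (priority := high) instActFp (p : ℕ) (G : Type) [Group G] : DistribMulAction G (Fp p) where
  smul _ a := a
  one_smul _ := rfl
  mul_smul _ _ _ := rfl
  smul_zero _ := rfl
  smul_add _ _ _ := rfl

/-- The induced module as an additive subgroup: functions on `G` with values in `F_p`
invariant under left translation by the subgroup `N`. -/
def IndFs (p : ℕ) {G : Type} [Group G] (N : Subgroup G) : AddSubgroup (G → ZMod p) where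
  carrier := {f | ∀ v ∈ N, ∀ x : G, f (v * x) = f x}
  zero_mem' := fun _ _ _ => rfl
  add_mem' := by
    intro f g hf hg v hv x
    rw [Pi.add_apply, Pi.add_apply, hf v hv x, hg v hv x]
  neg_mem' := by
    intro f hf v hv x
    rw [Pi.neg_apply, Pi.neg_apply, hf v hv x]

/-- The induced module. -/
abbrev IndF (p : ℕ) {G : Type} [Group G] (N : Subgroup G) : Type := IndFs p N

/-- `G` acts on the induced module by right translation. -/
instance instActIndF (p : ℕ) {G : Type} [Group G] (N : Subgroup G) :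
    DistribMulAction G (IndF p N) where
  smul g f := ⟨fun x => f.1 (x * g), fun v hv x => by
    have h := f.2 v hv (x * g)
    rw [← mul_assoc] at h
    exact h⟩
  one_smul f := by
    apply Subtype.ext
    funext x
    change f.1 (x * 1) = f.1 x
    rw [mul_one]
  mul_smul g h f := by
    apply Subtype.ext
    funext x
    change f.1 (x * (g * h)) = f.1 (x * g * h)
    rw [mul_assoc]
  smul_zero g := rfl
  smul_add g f f' := rfl

/-- A uniform filtration of the topological group `U`. -/
structure Unif (p : ℕ) (U : Type) [Group U] [TopologicalSpace U] (F : ℕ → Subgroup U) :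
    Prop where
  top : F 0 = ⊤
  anti : Antitone F
  op : ∀ j, IsOpen (F j : Set U)
  nor : ∀ j, (F j).Normal
  basis : ∀ V ∈ 𝓝 (1 : U), ∃ j, (F j : Set U) ⊆ V
  com : ∀ j, ∀ x ∈ F j, ∀ y ∈ F j, x * y * x⁻¹ * y⁻¹ ∈ F (j + 2)
  pow : ∀ j, ∀ x ∈ F j, x ^ p ∈ F (j + 1)
  inj : ∀ x y : U, x ^ p = y ^ p → x = y
  root : ∀ j, ∀ y ∈ F (j + 1), ∃ x ∈ F j, x ^ p = y

/-! ## Part 2. Matrices -/

/-- Two by two matrices. -/
abbrev M2 (R : Type) : Type := Matrix (Fin 2) (Fin 2) R

section Mat

variable {R : Type} [CommRing R]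

/-- The Lie bracket. -/
def Br (X Y : M2 R) : M2 R := X * Y - Y * X

/-- The trace form. -/
def Bf (X Y : M2 R) : R := Matrix.trace (X * Y)

/-- The alternating trilinear form. -/
def Tf (X Y Z : M2 R) : R := Bf X (Br Y Z)

/-- The congruence group of `SL_2` of the ideal `J`, inside `GL_2`. -/
def Sg (J : Ideal R) : Subgroup (GL (Fin 2) R) :=
  (Matrix.GeneralLinearGroup.det : GL (Fin 2) R →* Rˣ).ker ⊓
    (Matrix.GeneralLinearGroup.map (Ideal.Quotient.mk J)).ker

/-- `C X`, for a subring `C` and a matrix `X`. -/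
def CX (C : Subring R) (X : M2 R) : AddSubgroup (M2 R) :=
  C.toAddSubgroup.map (LinearMap.toSpanSingleton R (M2 R) X).toAddMonoidHom

/-- `c N`, for a scalar `c` and an additive group `N` of matrices. -/
def sN (c : R) (N : AddSubgroup (M2 R)) : AddSubgroup (M2 R) :=
  N.map (DistribSMul.toAddMonoidHom (M2 R) c)

variable [Invertible (2 : R)]

/-- The map of Pink: the traceless part of a matrix. -/
def Th (g : M2 R) : M2 R := g - (⅟(2 : R) * Matrix.trace g) • (1 : M2 R)

/-- The map of Pink on invertible matrices. -/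
def TH (g : GL (Fin 2) R) : M2 R := Th (g : M2 R)

/-- Half of the trace. -/
def ht (g : GL (Fin 2) R) : R := ⅟(2 : R) * Matrix.trace (g : M2 R)

/-- The subgroup generated by the elements of the congruence group with Theta in `N`. -/
def ES (J : Ideal R) (N : AddSubgroup (M2 R)) : Subgroup (GL (Fin 2) R) :=
  Subgroup.closure {g | g ∈ Sg J ∧ TH g ∈ N}

end Mat

/-- Standing assumptions on the pair `(R, J)`: the open ideals are a basis at zero, `J` is a
closed topologically nilpotent ideal containing `p`. -/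
structure Setup (p : ℕ) (R : Type) [CommRing R] [TopologicalSpace R] (J : Ideal R) : Prop where
  basis : ∀ U ∈ 𝓝 (0 : R), ∃ I : Ideal R, IsOpen (I : Set R) ∧ (I : Set R) ⊆ U
  nil : ∀ I : Ideal R, IsOpen (I : Set R) → ∃ n : ℕ, J ^ n ≤ I
  closed : IsClosed (J : Set R)
  pmem : (p : R) ∈ J

/-- Admissible additive groups of matrices. -/
structure Adm {R : Type} [CommRing R] [TopologicalSpace R] [Invertible (2 : R)] (J : Ideal R)
    (N : AddSubgroup (M2 R)) : Prop where
  closed : IsClosed (N : Set (M2 R))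
  tr : ∀ X ∈ N, Matrix.trace X = 0
  ent : ∀ X ∈ N, ∀ i j, X i j ∈ J
  half : ∀ X ∈ N, ⅟(2 : R) • X ∈ N
  br : ∀ X ∈ N, ∀ Y ∈ N, Br X Y ∈ N
  bf : ∀ X ∈ N, ∀ Y ∈ N, ∀ Z ∈ N, Bf X Y • Z ∈ N

/-- `N'` is an ideal of `N`. -/
structure IdP {R : Type} [CommRing R] [TopologicalSpace R] [Invertible (2 : R)] (J : Ideal R)
    (N' N : AddSubgroup (M2 R)) : Prop where
  le : N' ≤ N
  adm' : Adm J N'
  adm : Adm J N
  br : ∀ W ∈ N', ∀ U ∈ N, Br W U ∈ N'
  b1 : ∀ W ∈ N', ∀ U ∈ N, ∀ V ∈ N, Bf W U • V ∈ N'
  b2 : ∀ W ∈ N', ∀ U ∈ N, ∀ V ∈ N, Bf U V • W ∈ N'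

section Lie

variable {R : Type} [CommRing R] [TopologicalSpace R] [IsTopologicalRing R] [Invertible (2 : R)]

/-- The closed additive group generated by the traceless parts of the elements of `Γ`. -/
def LL (Γ : Subgroup (GL (Fin 2) R)) : AddSubgroup (M2 R) :=
  (AddSubgroup.closure (TH '' (Γ : Set (GL (Fin 2) R)))).topologicalClosure

/-- The descending sequence `L_1 = Lc 0`, `L_2 = Lc 1`, ... -/
def Lc (Γ : Subgroup (GL (Fin 2) R)) : ℕ → AddSubgroup (M2 R)
  | 0 => LL Γ
  | n + 1 => (AddSubgroup.closure {Z | ∃ X ∈ LL Γ, ∃ Y ∈ Lc Γ n, Z = Br X Y}).topologicalClosure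

/-- The closed subring generated by the values of the trace form. -/
def Ct (Γ : Subgroup (GL (Fin 2) R)) : Subring R :=
  (Subring.closure {c | ∃ X ∈ LL Γ, ∃ Y ∈ LL Γ, c = Bf X Y}).topologicalClosure

end Lie

end Pool.Agent.PP2
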