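import Pool.Agent.helper96.PP2.SpecB

namespace Pool.Agent.PP2

open Topology Matrix Filter

theorem HAV_pow {p : ℕ} {R : Type} [CommRing R] [TopologicalSpace R] {J : Ideal R}
    (h : Setup p R J) : Tendsto (fun n : ℕ => (p : R) ^ n) atTop (𝓝 0) := by
  rw [tendsto_def]
  intro U hU
  obtain ⟨I, hI, hIU⟩ := h.basis U hU
  obtain ⟨n, hn⟩ := h.nil I hI
  rw [mem_atTop_sets]
  refine ⟨n, fun m hm => ?_⟩
  apply hIU
  have h1 : (p : R) ^ m ∈ J ^ m := Ideal.pow_mem_pow h.pmem m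
  exact hn (Ideal.pow_le_pow_right hm h1)

theorem HAV_half {p : ℕ} {R : Type} [CommRing R] [TopologicalSpace R] [IsTopologicalRing R]
    [Invertible (2 : R)] {J : Ideal R} (hodd : p % 2 = 1) (h : Setup p R J) :
    Tendsto (fun n : ℕ => (((p ^ n + 1) / 2 : ℕ) : R)) atTop (𝓝 (⅟(2 : R))) := by
  have h1 : ∀ n : ℕ, (((p ^ n + 1) / 2 : ℕ) : R) = ⅟(2 : R) * ((p : R) ^ n + 1) := by
    intro n
    have h2 : p ^ n % 2 = 1 := by rw [Nat.pow_mod, hodd]; simp
    have h3 : 2 * ((p ^ n + 1) / 2) = p ^ n + 1 := by omega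
    have h4 := congrArg (Nat.cast : ℕ → R) h3
    rw [Nat.cast_mul, Nat.cast_add, Nat.cast_pow, Nat.cast_one, Nat.cast_ofNat] at h4
    rw [← h4, ← mul_assoc, invOf_mul_self, one_mul]
  simp only [h1]
  have h5 := ((HAV_pow h).add_const (1 : R)).const_mul (⅟(2 : R))
  simpa using h5

theorem HAV_row : HAV_stmt := by
  intro p R _ _ _ _ _ _ J hp hp2 h
  have hodd : p % 2 = 1 := by
    rcases hp.eq_two_or_odd with h | h
    · exact absurd h hp2
    · exact h
  have ht := HAV_half hodd h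
  constructor
  · intro N hN X hX
    have h1 : Tendsto (fun n : ℕ => (((p ^ n + 1) / 2 : ℕ) : R) • X) atTop (𝓝 (⅟(2 : R) • X)) :=
      ht.smul_const X
    refine hN.mem_of_tendsto h1 (Eventually.of_forall fun n => ?_)
    rw [Nat.cast_smul_eq_nsmul]
    exact N.nsmul_mem hX _
  · intro N hN x hx
    have h1 : Tendsto (fun n : ℕ => (((p ^ n + 1) / 2 : ℕ) : R) * x) atTop (𝓝 (⅟(2 : R) * x)) :=
      ht.mul_const x
    refine hN.mem_of_tendsto h1 (Eventually.of_forall fun n => ?_)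
    rw [← nsmul_eq_mul]
    exact N.nsmul_mem hx _

end Pool.Agent.PP2
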