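import Pool.Agent.helper96.PP2.SpecA

namespace Pool.Agent.PP2

theorem KEY_pw {Q : Type} [Group Q] (A B d : Q) (hdB : Commute d B)
    (h : B * A = d * A * B) (n : ℕ) : B ^ n * A = d ^ n * A * B ^ n := by
  induction n with
  | zero => simp
  | succ n ih =>
    have e1 : Commute (B ^ n) d := (hdB.pow_right n).symm
    calc B ^ (n + 1) * A = B ^ n * (B * A) := by rw [pow_succ, mul_assoc]
      _ = B ^ n * (d * A * B) := by rw [h]
      _ = (B ^ n * d) * A * B := by group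
      _ = d * B ^ n * A * B := by rw [e1.eq]
      _ = d * (B ^ n * A) * B := by group
      _ = d * (d ^ n * A * B ^ n) * B := by rw [ih]
      _ = d ^ (n + 1) * A * B ^ (n + 1) := by
        rw [pow_succ' d n, pow_succ B n]; group

theorem KEY_cl2 {Q : Type} [Group Q] (A B d : Q) (hdA : Commute d A) (hdB : Commute d B)
    (h : B * A = d * A * B) (n : ℕ) : (A * B) ^ n = d ^ (n.choose 2) * A ^ n * B ^ n := by
  induction n with
  | zero => simp
  | succ n ih =>
    have e1 : Commute (A ^ n) (d ^ n) := ((hdA.pow_right n).pow_left n).symm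
    calc (A * B) ^ (n + 1) = (A * B) ^ n * (A * B) := pow_succ _ _
      _ = d ^ (n.choose 2) * A ^ n * (B ^ n * A) * B := by rw [ih]; group
      _ = d ^ (n.choose 2) * A ^ n * (d ^ n * A * B ^ n) * B := by
        rw [KEY_pw A B d hdB h n]
      _ = d ^ (n.choose 2) * (A ^ n * d ^ n) * A * B ^ n * B := by group
      _ = d ^ (n.choose 2) * (d ^ n * A ^ n) * A * B ^ n * B := by rw [e1.eq]
      _ = (d ^ (n.choose 2) * d ^ n) * (A ^ n * A) * (B ^ n * B) := by group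
      _ = d ^ ((n + 1).choose 2) * A ^ (n + 1) * B ^ (n + 1) := by
        rw [← pow_add, ← pow_succ, ← pow_succ]
        congr 3
        rw [Nat.choose_succ_succ' n 1, Nat.choose_one_right, add_comm]

theorem KEY_cl3 {Q : Type} [Group Q] (p : ℕ) (hp : p.Prime) (hp2 : p ≠ 2) (A B c : Q)
    (hcA : Commute c A) (hcB : Commute c B) (hc : c ^ p = 1) (h : A * B * A⁻¹ * B⁻¹ = c) :
    (A * B) ^ p = A ^ p * B ^ p := by
  have h1 : B * A = c⁻¹ * A * B := by
    rw [← h]; group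
  rw [KEY_cl2 A B c⁻¹ hcA.inv_left hcB.inv_left h1 p]
  have h2 : p ∣ p.choose 2 := by
    apply hp.dvd_choose_self (by norm_num)
    have := hp.two_le
    omega
  obtain ⟨k, hk⟩ := h2
  rw [hk, pow_mul, inv_pow, hc, inv_one, one_pow, one_mul]

theorem KEY_step (p : ℕ) (U : Type) [Group U] [TopologicalSpace U] (F : ℕ → Subgroup U) (E : Type)
    [Group E] (π : E →* U) (s : U → E) (hp : p.Prime) (hp2 : p ≠ 2) (hU : Unif p U F)
    (hπ : Function.Surjective π) (hz : ∀ z ∈ π.ker, z ^ p = 1 ∧ ∀ e : E, z * e = e * z)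
    (hs : ∀ e : E, s ((π e) ^ p) = e ^ p) (j : ℕ)
    (hm : ∀ v ∈ F (j + 2), ∀ w ∈ F (j + 2), s (v * w) = s v * s w) :
    ∀ v ∈ F (j + 1), ∀ w ∈ F (j + 1), s (v * w) = s v * s w := by
  have hs1 : s 1 = 1 := by
    have := hs 1
    rwa [map_one, one_pow, one_pow] at this
  have hroot : ∀ i, ∀ v ∈ F (i + 1), ∃ e : E, π e ∈ F i ∧ (π e) ^ p = v ∧ s v = e ^ p := by
    intro i v hv
    obtain ⟨x, hx, hxv⟩ := hU.root i v hv
    obtain ⟨e, he⟩ := hπ x
    refine ⟨e, he ▸ hx, by rw [he, hxv], ?_⟩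
    rw [← hs e, he, hxv]
  have hπs : ∀ i, ∀ v ∈ F (i + 1), π (s v) = v := by
    intro i v hv
    obtain ⟨e, _, he2, he3⟩ := hroot i v hv
    rw [he3, map_pow, he2]
  let M : Subgroup E :=
    { carrier := {m | ∃ v ∈ F (j + 2), s v = m}
      one_mem' := ⟨1, (F (j + 2)).one_mem, hs1⟩
      mul_mem' := by
        rintro _ _ ⟨v, hv, rfl⟩ ⟨w, hw, rfl⟩
        exact ⟨v * w, (F (j + 2)).mul_mem hv hw, hm v hv w hw⟩
      inv_mem' := by
        rintro _ ⟨v, hv, rfl⟩
        refine ⟨v⁻¹, (F (j + 2)).inv_mem hv, ?_⟩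
        have := hm v hv v⁻¹ ((F (j + 2)).inv_mem hv)
        rw [mul_inv_cancel, hs1] at this
        exact eq_inv_of_mul_eq_one_right this.symm }
  have hMmem : ∀ m, m ∈ M ↔ ∃ v ∈ F (j + 2), s v = m := fun m => Iff.rfl
  have hMn : M.Normal := by
    constructor
    rintro _ ⟨v, hv, rfl⟩ g
    obtain ⟨e, _, he2, he3⟩ := hroot (j + 1) v hv
    refine ⟨π g * v * (π g)⁻¹, (hU.nor (j + 2)).conj_mem v hv (π g), ?_⟩
    have h1 : g * e ^ p * g⁻¹ = (g * e * g⁻¹) ^ p := by rw [conj_pow]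
    rw [he3, h1, ← hs (g * e * g⁻¹)]
    congr 1
    rw [← he2]
    simp only [map_mul, map_inv, conj_pow]
  have hMπ : ∀ m ∈ M, π m ∈ F (j + 2) ∧ (π m = 1 → m = 1) := by
    rintro _ ⟨v, hv, rfl⟩
    rw [hπs (j + 1) v hv]
    refine ⟨hv, fun h => ?_⟩
    rw [h, hs1]
  -- the product formula modulo M
  have ha : ∀ a b : E, π a ∈ F j → π b ∈ F j → ∃ m ∈ M, (a * b) ^ p = a ^ p * b ^ p * m := by
    intro a b hpa hpb
    have hcπ : π (a * b * a⁻¹ * b⁻¹) ∈ F (j + 2) := by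
      simp only [map_mul, map_inv]
      exact hU.com j _ hpa _ hpb
    set c0 := a * b * a⁻¹ * b⁻¹ with hc0
    let m0 := s (π c0)
    have hm0 : m0 ∈ M := ⟨π c0, hcπ, rfl⟩
    let z := m0⁻¹ * c0
    have hzk : z ∈ π.ker := by
      rw [MonoidHom.mem_ker]
      simp only [z, m0, map_mul, map_inv, hπs (j + 1) _ hcπ, inv_mul_cancel]
    have hzz := hz z hzk
    let q := QuotientGroup.mk' M
    have hq : q c0 = q z := by
      have : c0 = m0 * z := by simp [z]
      have hq0 : q m0 = 1 := (QuotientGroup.eq_one_iff m0).2 hm0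
      rw [this, map_mul, hq0, one_mul]
    have hcomm : ∀ e : E, Commute (q z) (q e) := fun e => by
      show q z * q e = q e * q z
      rw [← map_mul, ← map_mul, hzz.2 e]
    have key := KEY_cl3 p hp hp2 (q a) (q b) (q z) (hcomm a) (hcomm b)
      (by rw [← map_pow, hzz.1, map_one])
      (by rw [← hq, hc0]; simp only [map_mul, map_inv])
    have key2 : q ((a ^ p * b ^ p)⁻¹ * (a * b) ^ p) = 1 := by
      rw [map_mul, map_inv, map_mul, map_pow, map_pow, map_pow, map_mul, key, inv_mul_cancel]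
    refine ⟨(a ^ p * b ^ p)⁻¹ * (a * b) ^ p, (QuotientGroup.eq_one_iff _).1 key2, ?_⟩
    group
  -- changing the argument by an element of F (j + 2)
  have hb : ∀ v ∈ F (j + 1), ∀ k ∈ F (j + 2), ∃ m ∈ M, s (v * k) = s v * m := by
    intro v hv k hk
    have hvk : v * k ∈ F (j + 1) := (F (j + 1)).mul_mem hv (hU.anti (by omega) hk)
    obtain ⟨e, he1, he2, he3⟩ := hroot j v hv
    obtain ⟨f, hf1, hf2, hf3⟩ := hroot j (v * k) hvk
    have hr : π (e⁻¹ * f) ∈ F j := by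
      rw [map_mul, map_inv]
      exact (F j).mul_mem ((F j).inv_mem he1) hf1
    obtain ⟨m, hm1, hm2⟩ := ha e (e⁻¹ * f) he1 hr
    rw [mul_inv_cancel_left] at hm2
    -- the p-th power of r is in F (j + 2)
    have h3 : π ((e⁻¹ * f) ^ p) ∈ F (j + 2) := by
      have h4 : (e⁻¹ * f) ^ p = (e ^ p)⁻¹ * f ^ p * m⁻¹ := by
        rw [hm2]; group
      rw [h4, map_mul, map_mul, map_inv, map_inv, map_pow, map_pow, he2, hf2]
      have h5 : v⁻¹ * (v * k) * (π m)⁻¹ = k * (π m)⁻¹ := by group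
      rw [h5]
      exact (F (j + 2)).mul_mem hk ((F (j + 2)).inv_mem (hMπ m hm1).1)
    have h6 : (e⁻¹ * f) ^ p ∈ M := by
      refine ⟨π ((e⁻¹ * f) ^ p), h3, ?_⟩
      rw [map_pow, hs]
    refine ⟨(e⁻¹ * f) ^ p * m, M.mul_mem h6 hm1, ?_⟩
    rw [hf3, he3, hm2, mul_assoc]
  intro v hv w hw
  obtain ⟨e, he1, he2, he3⟩ := hroot j v hv
  obtain ⟨f, hf1, hf2, hf3⟩ := hroot j w hw
  obtain ⟨m, hm1, hm2⟩ := ha e f he1 hf1
  have h1 : s (π (e * f) ^ p) = s v * s w * m := by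
    rw [hs, hm2, he3, hf3]
  have h2 : π (e * f) ^ p = v * w * π m := by
    rw [← map_pow, hm2, map_mul, map_mul, map_pow, map_pow, he2, hf2]
  have hvw : v * w ∈ F (j + 1) := (F (j + 1)).mul_mem hv hw
  have hmF := (hMπ m hm1).1
  have hvwm : v * w * π m ∈ F (j + 1) := (F (j + 1)).mul_mem hvw (hU.anti (by omega) hmF)
  obtain ⟨m', hm'1, hm'2⟩ := hb (v * w * π m) hvwm (π m)⁻¹ ((F (j + 2)).inv_mem hmF)
  rw [mul_inv_cancel_right, ← h2, h1] at hm'2
  have h3 : π (m * m') = 1 := by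
    have h4 := congrArg π hm'2
    rw [hπs j (v * w) hvw, mul_assoc, map_mul, map_mul, hπs j v hv, hπs j w hw] at h4
    exact (mul_eq_left).1 h4.symm
  have h5 := (hMπ (m * m') (M.mul_mem hm1 hm'1)).2 h3
  rw [hm'2, mul_assoc, h5, mul_one]

theorem KEY_row : KEY_stmt := by
  intro p U _ _ F E _ π s n hp hp2 hU hπ hz hs hn hbase
  have main : ∀ k : ℕ, k + 1 ≤ n → ∀ v ∈ F (n - k), ∀ w ∈ F (n - k), s (v * w) = s v * s w := by
    intro k
    induction k with
    | zero => intro _; simpa using hbase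
    | succ k ih =>
      intro hk
      have h1 := ih (by omega)
      have e1 : n - k = (n - (k + 1) - 1) + 2 := by omega
      have e2 : n - (k + 1) = (n - (k + 1) - 1) + 1 := by omega
      rw [e1] at h1
      rw [e2]
      exact KEY_step p U F E π s hp hp2 hU hπ hz hs _ h1
  have := main (n - 1) (by omega)
  have e : n - (n - 1) = 1 := by omega
  rwa [e] at this

end Pool.Agent.PP2
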