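import Pool.Agent.helper96.PP2.Defs

/-!
# Basic lemmas for the rows pg: (matrices)
-/

namespace Pool.Agent.PP2

open Topology Matrix

section Alg

variable {R : Type} [CommRing R]

theorem Lib_trace (X : M2 R) : Matrix.trace X = X 0 0 + X 1 1 := Matrix.trace_fin_two X

theorem Lib_Bf (X Y : M2 R) :
    Bf X Y = X 0 0 * Y 0 0 + X 0 1 * Y 1 0 + (X 1 0 * Y 0 1 + X 1 1 * Y 1 1) := by
  simp [Bf, Matrix.trace_fin_two, Matrix.mul_apply, Fin.sum_univ_two]

theorem Lib_Bf_comm (X Y : M2 R) : Bf X Y = Bf Y X := by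
  rw [Lib_Bf, Lib_Bf]; ring

theorem Lib_Br_swap (X Y : M2 R) : Br X Y = -Br Y X := by
  simp [Br]

theorem Lib_Br_self (X : M2 R) : Br X X = 0 := by simp [Br]

theorem Lib_Br_add (X Y Z : M2 R) : Br X (Y + Z) = Br X Y + Br X Z := by
  simp only [Br]; noncomm_ring

theorem Lib_add_Br (X Y Z : M2 R) : Br (X + Y) Z = Br X Z + Br Y Z := by
  simp only [Br]; noncomm_ring

theorem Lib_Br_neg (X Y : M2 R) : Br X (-Y) = -Br X Y := by
  simp only [Br]; noncomm_ring

theorem Lib_neg_Br (X Y : M2 R) : Br (-X) Y = -Br X Y := by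
  simp only [Br]; noncomm_ring

theorem Lib_Br_smul (c : R) (X Y : M2 R) : Br X (c • Y) = c • Br X Y := by
  simp only [Br, Matrix.mul_smul, Matrix.smul_mul, smul_sub]

theorem Lib_smul_Br (c : R) (X Y : M2 R) : Br (c • X) Y = c • Br X Y := by
  simp only [Br, Matrix.mul_smul, Matrix.smul_mul, smul_sub]

theorem Lib_Bf_add (X Y Z : M2 R) : Bf X (Y + Z) = Bf X Y + Bf X Z := by
  simp only [Lib_Bf, Matrix.add_apply]; ring

theorem Lib_add_Bf (X Y Z : M2 R) : Bf (X + Y) Z = Bf X Z + Bf Y Z := by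
  simp only [Lib_Bf, Matrix.add_apply]; ring

theorem Lib_Bf_neg (X Y : M2 R) : Bf X (-Y) = -Bf X Y := by
  simp only [Lib_Bf, Matrix.neg_apply]; ring

theorem Lib_neg_Bf (X Y : M2 R) : Bf (-X) Y = -Bf X Y := by
  simp only [Lib_Bf, Matrix.neg_apply]; ring

theorem Lib_Bf_smul (c : R) (X Y : M2 R) : Bf X (c • Y) = c * Bf X Y := by
  simp only [Lib_Bf, Matrix.smul_apply, smul_eq_mul]; ring

theorem Lib_smul_Bf (c : R) (X Y : M2 R) : Bf (c • X) Y = c * Bf X Y := by
  simp only [Lib_Bf, Matrix.smul_apply, smul_eq_mul]; ring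

/-- traceless matrices anticommute up to the trace form -/
theorem Lib_anti (X Y : M2 R) (hX : Matrix.trace X = 0) (hY : Matrix.trace Y = 0) :
    X * Y + Y * X = Bf X Y • (1 : M2 R) := by
  rw [Matrix.trace_fin_two] at hX hY
  have h1 : X 1 1 = -X 0 0 := by linear_combination hX
  have h2 : Y 1 1 = -Y 0 0 := by linear_combination hY
  rw [Lib_Bf]
  ext i j
  fin_cases i <;> fin_cases j <;>
    simp [Matrix.mul_apply, Fin.sum_univ_two, h1, h2] <;> ring

theorem Lib_trace_Br (X Y : M2 R) : Matrix.trace (Br X Y) = 0 := by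
  simp only [Br, Matrix.trace_sub, Matrix.trace_mul_comm X Y, sub_self]

/-- the double bracket formula -/
theorem Lib_I1 (X Y Z : M2 R) (hX : Matrix.trace X = 0) (hY : Matrix.trace Y = 0)
    (hZ : Matrix.trace Z = 0) :
    Br X (Br Y Z) = (2 : R) • (Bf X Y • Z - Bf X Z • Y) := by
  rw [Matrix.trace_fin_two] at hX hY hZ
  have h1 : X 1 1 = -X 0 0 := by linear_combination hX
  have h2 : Y 1 1 = -Y 0 0 := by linear_combination hY
  have h3 : Z 1 1 = -Z 0 0 := by linear_combination hZ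
  rw [Lib_Bf, Lib_Bf]
  ext i j
  fin_cases i <;> fin_cases j <;>
    simp [Br, Matrix.mul_apply, Fin.sum_univ_two, h1, h2, h3] <;> ring

/-- the Cramer formula -/
theorem Lib_I2 (X Y Z W : M2 R) (hX : Matrix.trace X = 0) (hY : Matrix.trace Y = 0)
    (hZ : Matrix.trace Z = 0) (hW : Matrix.trace W = 0) :
    Tf X Y Z • W = Bf W X • Br Y Z + Bf W Y • Br Z X + Bf W Z • Br X Y := by
  rw [Matrix.trace_fin_two] at hX hY hZ hW
  have h1 : X 1 1 = -X 0 0 := by linear_combination hX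
  have h2 : Y 1 1 = -Y 0 0 := by linear_combination hY
  have h3 : Z 1 1 = -Z 0 0 := by linear_combination hZ
  have h4 : W 1 1 = -W 0 0 := by linear_combination hW
  simp only [Tf, Lib_Bf]
  ext i j
  fin_cases i <;> fin_cases j <;>
    simp [Br, Matrix.mul_apply, Fin.sum_univ_two, h1, h2, h3, h4] <;> ring

theorem Lib_Tf_cycle (X Y Z : M2 R) : Tf X Y Z = Tf Y Z X := by
  simp only [Tf, Lib_Bf, Br, Matrix.sub_apply, Matrix.mul_apply, Fin.sum_univ_two]; ring

theorem Lib_Tf_swap (X Y Z : M2 R) : Tf X Z Y = -Tf X Y Z := by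
  simp only [Tf, Lib_Bf, Br, Matrix.sub_apply, Matrix.mul_apply, Fin.sum_univ_two]; ring

theorem Lib_Tf_self (X Y : M2 R) : Tf X X Y = 0 := by
  simp only [Tf, Lib_Bf, Br, Matrix.sub_apply, Matrix.mul_apply, Fin.sum_univ_two]; ring

theorem Lib_mem_Sg (J : Ideal R) (g : GL (Fin 2) R) :
    g ∈ Sg J ↔ Matrix.det (g : M2 R) = 1 ∧ ∀ i j, ((g : M2 R) - 1) i j ∈ J := by
  simp only [Sg, Subgroup.mem_inf, MonoidHom.mem_ker]
  constructor
  · rintro ⟨h1, h2⟩
    refine ⟨?_, fun i j => ?_⟩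
    · have := congrArg (Units.val) h1
      simpa using this
    · have h3 := congrArg (fun u : GL (Fin 2) (R ⧸ J) => (u : Matrix (Fin 2) (Fin 2) (R ⧸ J)) i j)
        h2
      have h4 : Ideal.Quotient.mk J ((g : M2 R) i j) = (1 : Matrix (Fin 2) (Fin 2) (R ⧸ J)) i j :=
        h3
      rw [← Ideal.Quotient.eq_zero_iff_mem, Matrix.sub_apply, map_sub, h4]
      rw [Matrix.one_apply, Matrix.one_apply]
      split_ifs <;> simp
  · rintro ⟨h1, h2⟩
    refine ⟨?_, ?_⟩
    · apply Units.ext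
      simpa using h1
    · apply Units.ext
      ext i j
      have h3 := h2 i j
      rw [← Ideal.Quotient.eq_zero_iff_mem, Matrix.sub_apply, map_sub, sub_eq_zero] at h3
      have h4 : Ideal.Quotient.mk J ((g : M2 R) i j) = (1 : Matrix (Fin 2) (Fin 2) (R ⧸ J)) i j := by
        rw [h3, Matrix.one_apply, Matrix.one_apply]
        split_ifs <;> simp
      exact h4

end Alg

section Half

variable {R : Type} [CommRing R] [Invertible (2 : R)]

theorem Lib_half : (⅟(2 : R)) * 2 = 1 := invOf_mul_self' 2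

theorem Lib_two_half (x : R) : ⅟(2 : R) * x + ⅟(2 : R) * x = x := by
  have h := Lib_half (R := R)
  linear_combination x * h

theorem Lib_Th_add (X Y : M2 R) : Th (X + Y) = Th X + Th Y := by
  simp only [Th, Matrix.trace_add, mul_add, add_smul]; abel

theorem Lib_Th_sub (X Y : M2 R) : Th (X - Y) = Th X - Th Y := by
  simp only [Th, Matrix.trace_sub, mul_sub, sub_smul]; abel

theorem Lib_Th_smul (c : R) (X : M2 R) : Th (c • X) = c • Th X := by
  simp only [Th, Matrix.trace_smul, smul_sub, smul_smul, smul_eq_mul]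
  congr 2
  ring

theorem Lib_Th_one : Th (1 : M2 R) = 0 := by
  have h := Lib_half (R := R)
  simp only [Th, Matrix.trace_fin_two, Matrix.one_apply_eq]
  have : ⅟(2 : R) * (1 + 1) = 1 := by linear_combination h
  rw [this, one_smul, sub_self]

theorem Lib_Th_of_trace (X : M2 R) (hX : Matrix.trace X = 0) : Th X = X := by
  simp [Th, hX]

theorem Lib_trace_Th (X : M2 R) : Matrix.trace (Th X) = 0 := by
  have h := Lib_half (R := R)
  simp only [Th, Matrix.trace_fin_two, Matrix.sub_apply, Matrix.smul_apply, Matrix.one_apply_eq,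
    smul_eq_mul]
  linear_combination (-(X 0 0 + X 1 1)) * h

/-- decomposition of a matrix -/
theorem Lib_decomp (g : GL (Fin 2) R) : (g : M2 R) = ht g • (1 : M2 R) + TH g := by
  simp [ht, TH, Th]

theorem Lib_trace_TH (g : GL (Fin 2) R) : Matrix.trace (TH g) = 0 := Lib_trace_Th _

/-- Theta of a product -/
theorem Lib_TH_mul (g h : GL (Fin 2) R) :
    TH (g * h) = ht g • TH h + ht h • TH g + ⅟(2 : R) • Br (TH g) (TH h) := by
  have hh := Lib_half (R := R)
  have e : ((g * h : GL (Fin 2) R) : M2 R) = (g : M2 R) * (h : M2 R) := rfl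
  have e1 := Lib_anti (TH g) (TH h) (Lib_trace_TH g) (Lib_trace_TH h)
  have e2 : TH g * TH h = ⅟(2 : R) • Br (TH g) (TH h) + (⅟(2 : R) * Bf (TH g) (TH h)) • (1 : M2 R) := by
    rw [mul_smul, ← e1, ← smul_add, Br]
    have : TH g * TH h - TH h * TH g + (TH g * TH h + TH h * TH g) = (2 : R) • (TH g * TH h) := by
      rw [two_smul]; abel
    rw [this, smul_smul, hh, one_smul]
  have e3 : ((g * h : GL (Fin 2) R) : M2 R) = (ht g * ht h + ⅟(2 : R) * Bf (TH g) (TH h)) • (1 : M2 R)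
      + (ht g • TH h + ht h • TH g + ⅟(2 : R) • Br (TH g) (TH h)) := by
    rw [e, Lib_decomp g, Lib_decomp h]
    rw [add_mul, mul_add, mul_add]
    simp only [Matrix.smul_mul, Matrix.mul_smul, one_mul, mul_one]
    rw [e2, add_smul, smul_smul, mul_comm (ht h) (ht g)]
    abel
  have e4 : TH (g * h) = Th ((g * h : GL (Fin 2) R) : M2 R) := rfl
  rw [e4, e3, Lib_Th_add, Lib_Th_smul, Lib_Th_one, smul_zero, zero_add]
  apply Lib_Th_of_trace
  rw [Matrix.trace_add, Matrix.trace_add, Matrix.trace_smul, Matrix.trace_smul, Matrix.trace_smul,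
    Lib_trace_TH, Lib_trace_TH, Lib_trace_Br]
  simp

/-- half trace of a product -/
theorem Lib_ht_mul (g h : GL (Fin 2) R) :
    ht (g * h) = ht g * ht h + ⅟(2 : R) * Bf (TH g) (TH h) := by
  have e : ((g * h : GL (Fin 2) R) : M2 R) = (g : M2 R) * (h : M2 R) := rfl
  have hh := Lib_half (R := R)
  unfold ht
  rw [e]
  have eg := Lib_decomp g
  have eh := Lib_decomp h
  simp only [TH, Th, Lib_Bf, Matrix.trace_fin_two, Matrix.mul_apply, Fin.sum_univ_two,
    Matrix.sub_apply, Matrix.smul_apply, smul_eq_mul, Matrix.one_apply_eq]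
  have o1 : (1 : M2 R) 0 1 = 0 := by simp
  have o2 : (1 : M2 R) 1 0 = 0 := by simp
  rw [o1, o2]
  linear_combination (((g : M2 R) 0 0 + (g : M2 R) 1 1) * ((h : M2 R) 0 0 + (h : M2 R) 1 1)
    * (⅟(2 : R) * ⅟(2 : R)) * (-1)) * hh

/-- the square of a traceless matrix is a scalar -/
theorem Lib_sq (X : M2 R) (hX : Matrix.trace X = 0) :
    X * X = (⅟(2 : R) * Bf X X) • (1 : M2 R) := by
  have hh := Lib_half (R := R)
  have e := Lib_anti X X hX hX
  rw [mul_smul, ← e, ← two_smul R (X * X), smul_smul, hh, one_smul]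

/-- in the special linear group, the square of the half trace is `1 + Bf X X / 2` -/
theorem Lib_ht_sq (J : Ideal R) (g : GL (Fin 2) R) (hg : g ∈ Sg J) :
    ht g ^ 2 = 1 + ⅟(2 : R) * Bf (TH g) (TH g) := by
  have hh := Lib_half (R := R)
  have hd := ((Lib_mem_Sg J g).1 hg).1
  rw [Matrix.det_fin_two] at hd
  simp only [TH, Th, ht, Lib_Bf, Matrix.trace_fin_two,
    Matrix.sub_apply, Matrix.smul_apply, smul_eq_mul, Matrix.one_apply_eq]
  have o1 : (1 : M2 R) 0 1 = 0 := by simp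
  have o2 : (1 : M2 R) 1 0 = 0 := by simp
  rw [o1, o2]
  generalize (g : M2 R) 0 0 = a at *
  generalize (g : M2 R) 0 1 = b at *
  generalize (g : M2 R) 1 0 = c at *
  generalize (g : M2 R) 1 1 = d at *
  generalize ⅟(2 : R) = t at *
  linear_combination hd + (t * (a + d) ^ 2 - t ^ 2 * (a + d) ^ 2 + (a * d - b * c)) * hh

theorem Lib_ht_sub_one (J : Ideal R) (g : GL (Fin 2) R) (hg : g ∈ Sg J) : ht g - 1 ∈ J := by
  have hh := Lib_half (R := R)
  have h := ((Lib_mem_Sg J g).1 hg).2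
  have h0 := h 0 0
  have h1 := h 1 1
  have : ht g - 1 = ⅟(2 : R) * (((g : M2 R) - 1) 0 0 + ((g : M2 R) - 1) 1 1) := by
    simp only [ht, Matrix.trace_fin_two, Matrix.sub_apply, Matrix.one_apply_eq]
    linear_combination hh
  rw [this]
  exact J.mul_mem_left _ (J.add_mem h0 h1)

theorem Lib_TH_ent (J : Ideal R) (g : GL (Fin 2) R) (hg : g ∈ Sg J) (i j : Fin 2) :
    TH g i j ∈ J := by
  have h := ((Lib_mem_Sg J g).1 hg).2 i j
  have h1 := Lib_ht_sub_one J g hg
  have : TH g i j = ((g : M2 R) - 1) i j - (ht g - 1) * (1 : M2 R) i j := by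
    have e := congrArg (fun M : M2 R => M i j) (Lib_decomp g)
    simp only [Matrix.add_apply, Matrix.smul_apply, smul_eq_mul] at e
    simp only [Matrix.sub_apply]
    rw [e]
    ring
  rw [this]
  exact J.sub_mem h (J.mul_mem_right _ h1)

/-- the inverse in the special linear group -/
theorem Lib_inv (J : Ideal R) (g : GL (Fin 2) R) (hg : g ∈ Sg J) :
    ((g⁻¹ : GL (Fin 2) R) : M2 R) = ht g • (1 : M2 R) - TH g := by
  have hs := Lib_ht_sq J g hg
  have hq := Lib_sq (TH g) (Lib_trace_TH g)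
  have key : (g : M2 R) * (ht g • (1 : M2 R) - TH g) = 1 := by
    conv_lhs => rw [Lib_decomp g]
    rw [add_mul, mul_sub, mul_sub, hq]
    simp only [Matrix.smul_mul, Matrix.mul_smul, one_mul, mul_one]
    rw [smul_smul, ← pow_two, hs, add_smul, one_smul]
    abel
  have h1 : ((g⁻¹ : GL (Fin 2) R) : M2 R) * (g : M2 R) = 1 := by
    rw [← Units.val_mul, inv_mul_cancel, Units.val_one]
  calc ((g⁻¹ : GL (Fin 2) R) : M2 R)
      = ((g⁻¹ : GL (Fin 2) R) : M2 R) * ((g : M2 R) * (ht g • (1 : M2 R) - TH g)) := by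
        rw [key, mul_one]
    _ = ht g • (1 : M2 R) - TH g := by rw [← mul_assoc, h1, one_mul]

theorem Lib_TH_inv (J : Ideal R) (g : GL (Fin 2) R) (hg : g ∈ Sg J) :
    TH g⁻¹ = -TH g := by
  have e : TH g⁻¹ = Th ((g⁻¹ : GL (Fin 2) R) : M2 R) := rfl
  rw [e, Lib_inv J g hg, Lib_Th_sub, Lib_Th_smul, Lib_Th_one, smul_zero, zero_sub,
    Lib_Th_of_trace _ (Lib_trace_TH g)]

theorem Lib_ht_inv (J : Ideal R) (g : GL (Fin 2) R) (hg : g ∈ Sg J) : ht g⁻¹ = ht g := by
  have hh := Lib_half (R := R)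
  have h := Lib_trace_TH g
  unfold ht
  rw [Lib_inv J g hg, Matrix.trace_sub, h, sub_zero, Matrix.trace_smul, Matrix.trace_fin_two]
  simp only [Matrix.one_apply_eq, smul_eq_mul, ht]
  linear_combination (⅟(2 : R) * Matrix.trace (g : M2 R)) * hh

/-- Theta of a commutator -/
theorem Lib_TH_comm (J : Ideal R) (g h : GL (Fin 2) R) (hg : g ∈ Sg J) (hh : h ∈ Sg J) :
    TH (g * h * g⁻¹ * h⁻¹)
      = (ht g * ht h + ⅟(2 : R) * Bf (TH g) (TH h)) • Br (TH g) (TH h)
        - (⅟(2 : R) * ht g) • Br (Br (TH g) (TH h)) (TH h)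
        - (⅟(2 : R) * ht h) • Br (Br (TH g) (TH h)) (TH g) := by
  have ef := Lib_half (R := R)
  set X := TH g with hX
  set Y := TH h with hY
  set Z := Br X Y with hZ
  have tX : Matrix.trace X = 0 := Lib_trace_TH g
  have tY : Matrix.trace Y = 0 := Lib_trace_TH h
  have tZ : Matrix.trace Z = 0 := Lib_trace_Br X Y
  have half2 : ∀ W : M2 R, ⅟(2 : R) • ((2 : R) • W) = W := fun W => by
    rw [smul_smul, ef, one_smul]
  have prod : ∀ U V : M2 R, Matrix.trace U = 0 → Matrix.trace V = 0 →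
      U * V = ⅟(2 : R) • Br U V + (⅟(2 : R) * Bf U V) • (1 : M2 R) := by
    intro U V hU hV
    rw [mul_smul, ← Lib_anti U V hU hV, ← smul_add, Br]
    have : U * V - V * U + (U * V + V * U) = (2 : R) • (U * V) := by
      rw [two_smul]; abel
    rw [this, half2]
  have e1 : ((g * h * g⁻¹ * h⁻¹ : GL (Fin 2) R) : M2 R)
      = 1 + Z * (((g⁻¹ : GL (Fin 2) R) : M2 R) * ((h⁻¹ : GL (Fin 2) R) : M2 R)) := by
    have c1 : (g : M2 R) * (h : M2 R) = (h : M2 R) * (g : M2 R) + Z := by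
      rw [Lib_decomp g, Lib_decomp h, hZ, Br, ← hX, ← hY, add_mul, mul_add, mul_add, add_mul,
        mul_add, mul_add]
      simp only [Matrix.smul_mul, Matrix.mul_smul, one_mul, mul_one]
      rw [smul_smul, smul_smul, mul_comm (ht g) (ht h)]
      abel
    have c2 : (g : M2 R) * ((g⁻¹ : GL (Fin 2) R) : M2 R) = 1 := by
      rw [← Units.val_mul, mul_inv_cancel, Units.val_one]
    have c3 : (h : M2 R) * ((h⁻¹ : GL (Fin 2) R) : M2 R) = 1 := by
      rw [← Units.val_mul, mul_inv_cancel, Units.val_one]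
    calc ((g * h * g⁻¹ * h⁻¹ : GL (Fin 2) R) : M2 R)
        = (g : M2 R) * (h : M2 R) * ((g⁻¹ : GL (Fin 2) R) : M2 R)
            * ((h⁻¹ : GL (Fin 2) R) : M2 R) := rfl
      _ = (h : M2 R) * ((g : M2 R) * ((g⁻¹ : GL (Fin 2) R) : M2 R))
            * ((h⁻¹ : GL (Fin 2) R) : M2 R)
          + Z * (((g⁻¹ : GL (Fin 2) R) : M2 R) * ((h⁻¹ : GL (Fin 2) R) : M2 R)) := by
          rw [c1, add_mul, add_mul]
          simp only [mul_assoc]
      _ = _ := by rw [c2, mul_one, c3]
  have e2 : Z * (((g⁻¹ : GL (Fin 2) R) : M2 R) * ((h⁻¹ : GL (Fin 2) R) : M2 R))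
      = (ht g * ht h + ⅟(2 : R) * Bf X Y) • Z - ht g • (Z * Y) - ht h • (Z * X)
        + ⅟(2 : R) • (Z * Z) := by
    rw [Lib_inv J g hg, Lib_inv J h hh, ← hX, ← hY]
    have : (ht g • (1 : M2 R) - X) * (ht h • (1 : M2 R) - Y)
        = (ht g * ht h) • (1 : M2 R) - ht g • Y - ht h • X + X * Y := by
      rw [sub_mul, mul_sub, mul_sub]
      simp only [Matrix.smul_mul, Matrix.mul_smul, one_mul, mul_one]
      rw [smul_smul, mul_comm (ht h) (ht g)]
      abel
    rw [this, prod X Y tX tY, ← hZ]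
    simp only [mul_add, mul_sub, Matrix.mul_smul, mul_one, add_smul]
    abel
  have e3 : TH (g * h * g⁻¹ * h⁻¹) = Th ((g * h * g⁻¹ * h⁻¹ : GL (Fin 2) R) : M2 R) := rfl
  have tZZ : Th (Z * Z) = 0 := by
    rw [Lib_sq Z tZ, Lib_Th_smul, Lib_Th_one, smul_zero]
  have tZY : Th (Z * Y) = ⅟(2 : R) • Br Z Y := by
    rw [prod Z Y tZ tY, Lib_Th_add, Lib_Th_smul, Lib_Th_smul, Lib_Th_one, smul_zero, add_zero,
      Lib_Th_of_trace _ (Lib_trace_Br Z Y)]
  have tZX : Th (Z * X) = ⅟(2 : R) • Br Z X := by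
    rw [prod Z X tZ tX, Lib_Th_add, Lib_Th_smul, Lib_Th_smul, Lib_Th_one, smul_zero, add_zero,
      Lib_Th_of_trace _ (Lib_trace_Br Z X)]
  rw [e3, e1, e2, Lib_Th_add, Lib_Th_one, zero_add, Lib_Th_add, Lib_Th_sub, Lib_Th_sub,
    Lib_Th_smul, Lib_Th_smul, Lib_Th_smul, Lib_Th_smul, tZZ, tZY, tZX, smul_zero, add_zero,
    Lib_Th_of_trace Z tZ, smul_smul, smul_smul, mul_comm (ht g) (⅟(2 : R)),
    mul_comm (ht h) (⅟(2 : R))]

end Half

section Top

variable {R : Type} [CommRing R] [TopologicalSpace R] [IsTopologicalRing R]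

theorem Lib_cont_Br : Continuous (fun p : M2 R × M2 R => Br p.1 p.2) := by
  unfold Br
  exact (continuous_fst.matrix_mul continuous_snd).sub (continuous_snd.matrix_mul continuous_fst)

theorem Lib_cont_Bf : Continuous (fun p : M2 R × M2 R => Bf p.1 p.2) := by
  unfold Bf
  exact (continuous_fst.matrix_mul continuous_snd).matrix_trace

variable [Invertible (2 : R)]

theorem Lib_cont_Th : Continuous (Th : M2 R → M2 R) := by
  unfold Th
  exact continuous_id.sub ((continuous_const.mul continuous_id.matrix_trace).smul continuous_const)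

theorem Lib_cont_TH : Continuous (TH : GL (Fin 2) R → M2 R) :=
  Lib_cont_Th.comp Units.continuous_val

theorem Lib_cont_ht : Continuous (ht : GL (Fin 2) R → R) := by
  unfold ht
  exact continuous_const.mul (Units.continuous_val.matrix_trace)

end Top

end Pool.Agent.PP2
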