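import Pool.Agent.helper96.PP2.SpecB

namespace Pool.Agent.PP2

open Topology Matrix Filter

/-- separation by open ideals -/
theorem SQR_sep {p : ℕ} {R : Type} [CommRing R] [TopologicalSpace R] [IsTopologicalRing R]
    [T2Space R] {J : Ideal R} (h : Setup p R J) (x : R)
    (hx : ∀ I : Ideal R, IsOpen (I : Set R) → x ∈ I) : x = 0 := by
  by_contra hne
  have h1 : {x}ᶜ ∈ 𝓝 (0 : R) := by
    apply isOpen_compl_singleton.mem_nhds
    simpa [eq_comm] using hne
  obtain ⟨I, hI, hIU⟩ := h.basis _ h1
  exact hIU (hx I hI) rfl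

/-- A contracting recursion on a closed set has a fixed point. -/
theorem SQR_fix {p : ℕ} {R : Type} [CommRing R] [TopologicalSpace R] [IsTopologicalRing R]
    [CompactSpace R] [T2Space R] {J : Ideal R} (h : Setup p R J) (φ : R → R)
    (hc : ∀ (I : Ideal R), IsOpen (I : Set R) → ∀ x y : R, x - y ∈ I → φ x - φ y ∈ I)
    (h0 : φ 0 ∈ J) (hmap : ∀ x ∈ J, φ x ∈ J)
    (hcon : ∀ n : ℕ, ∀ x ∈ J, ∀ y ∈ J, x - y ∈ J ^ n → φ x - φ y ∈ J ^ (n + 1)) :
    ∃ c ∈ J, φ c = c ∧ ∀ S : Set R, IsClosed S → (0 : R) ∈ S → (∀ x ∈ S, φ x ∈ S) → c ∈ S := by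
  let u : ℕ → R := fun n => φ^[n] 0
  have hu0 : u 0 = 0 := rfl
  have hus : ∀ n, u (n + 1) = φ (u n) := fun n => Function.iterate_succ_apply' φ n 0
  have huJ : ∀ n, u n ∈ J := by
    intro n
    induction n with
    | zero => rw [hu0]; exact J.zero_mem
    | succ n ih => rw [hus]; exact hmap _ ih
  have hstep : ∀ n, u (n + 1) - u n ∈ J ^ (n + 1) := by
    intro n
    induction n with
    | zero =>
      rw [hus, hu0, sub_zero, zero_add, pow_one]
      exact h0
    | succ n ih =>
      rw [hus (n + 1), hus n]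
      exact hcon (n + 1) _ (by rw [← hus]; exact huJ _) _ (huJ _) (by rw [← hus]; exact ih)
  have hcauchy : ∀ n k, u (n + k) - u n ∈ J ^ (n + 1) := by
    intro n k
    induction k with
    | zero => simp
    | succ k ih =>
      have h1 := hstep (n + k)
      have h2 : u (n + (k + 1)) - u n = (u (n + k + 1) - u (n + k)) + (u (n + k) - u n) := by
        rw [← add_assoc]; ring
      rw [h2]
      exact Ideal.add_mem _ (Ideal.pow_le_pow_right (by omega) h1) ih
  obtain ⟨c, hcl⟩ : ∃ c : R, MapClusterPt c atTop u := exists_clusterPt_of_compactSpace _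
  have hmem : ∀ S : Set R, IsClosed S → (∀ n, u n ∈ S) → c ∈ S := by
    intro S hS hn
    exact hS.mem_of_mapClusterPt hcl (Eventually.of_forall hn)
  have hcJ : c ∈ J := hmem J h.closed huJ
  refine ⟨c, hcJ, ?_, ?_⟩
  · have key : ∀ I : Ideal R, IsOpen (I : Set R) → φ c - c ∈ I := by
      intro I hI
      obtain ⟨n, hn⟩ := h.nil I hI
      have hIc : IsClosed (I : Set R) := by
        have := (I.toAddSubgroup).isClosed_of_isOpen hI
        exact this
      have h1 : u n - c ∈ I := by
        have hS : IsClosed {x : R | u n - x ∈ I} := hIc.preimage (by fun_prop)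
        have h2 : ∃ᶠ k in atTop, u k ∈ {x : R | u n - x ∈ I} := by
          apply Eventually.frequently
          rw [eventually_atTop]
          refine ⟨n, fun k hk => ?_⟩
          obtain ⟨j, rfl⟩ := Nat.exists_eq_add_of_le hk
          have h3 := hn (Ideal.pow_le_pow_right (Nat.le_succ n) (hcauchy n j))
          have h4 : u n - u (n + j) = -(u (n + j) - u n) := by ring
          show u n - u (n + j) ∈ I
          rw [h4]
          exact I.neg_mem h3
        have h5 : ∀ᶠ k in atTop, u k ∈ {x : R | u n - x ∈ I} := by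
          rw [eventually_atTop]
          refine ⟨n, fun k hk => ?_⟩
          obtain ⟨j, rfl⟩ := Nat.exists_eq_add_of_le hk
          have h3 := hn (Ideal.pow_le_pow_right (Nat.le_succ n) (hcauchy n j))
          have h4 : u n - u (n + j) = -(u (n + j) - u n) := by ring
          show u n - u (n + j) ∈ I
          rw [h4]
          exact I.neg_mem h3
        exact hS.mem_of_mapClusterPt hcl h5
      have h6 := hc I hI _ _ h1
      have h7 : u (n + 1) - u n ∈ I := hn (Ideal.pow_le_pow_right (Nat.le_succ n) (hstep n))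
      rw [hus] at h7
      have h8 : φ c - c = -(φ (u n) - φ c) + (φ (u n) - u n) + (u n - c) := by ring
      rw [h8]
      exact I.add_mem (I.add_mem (I.neg_mem h6) h7) h1
    exact sub_eq_zero.1 (SQR_sep h _ key)
  · intro S hS h0S hφS
    apply hmem S hS
    intro n
    induction n with
    | zero => exact h0S
    | succ n ih => rw [hus]; exact hφS _ ih

theorem SQR_row (hHAV : HAV_stmt) : SQR_stmt := by
  intro p R _ _ _ _ _ _ J hp hp2 h u hu
  have hh := Lib_half (R := R)
  obtain ⟨c, hcJ, hc, hcS⟩ := SQR_fix h (fun x => ⅟(2 : R) * (u - x ^ 2))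
    (by
      intro I hI x y hxy
      have : ⅟(2 : R) * (u - x ^ 2) - ⅟(2 : R) * (u - y ^ 2)
          = -(⅟(2 : R) * (x + y)) * (x - y) := by ring
      rw [this]
      exact I.mul_mem_left _ hxy)
    (by

      exact J.mul_mem_left _ (J.sub_mem hu (by simp)))
    (by
      intro x hx
      refine J.mul_mem_left _ (J.sub_mem hu ?_)
      rw [pow_two]
      exact J.mul_mem_left _ hx)
    (by
      intro n x hx y hy hxy
      have : ⅟(2 : R) * (u - x ^ 2) - ⅟(2 : R) * (u - y ^ 2)
          = (x - y) * (-(⅟(2 : R)) * (x + y)) := by ring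

      rw [this, pow_succ]
      exact Ideal.mul_mem_mul hxy (J.mul_mem_left _ (J.add_mem hx hy)))
  refine ⟨c, hcJ, ?_, ?_⟩
  · have h2 : ⅟(2 : R) * (u - c ^ 2) = c := hc
    have h3 : u - c ^ 2 = 2 * c := by
      have := congrArg (fun x => 2 * x) h2
      simp only [mul_invOf_cancel_left'] at this
      exact this
    linear_combination -h3
  · intro S hS hmul huS
    apply hcS (S : Set R) hS S.zero_mem
    intro x hx
    have h4 : u - x ^ 2 ∈ S := S.sub_mem huS (by rw [pow_two]; exact hmul x hx x hx)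
    exact (hHAV p R J hp hp2 h).2 S hS _ h4

end Pool.Agent.PP2
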