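import Pool.Agent.helper96.PP2.SQR

namespace Pool.Agent.PP2

open Topology Matrix Filter

theorem SQU_inv {p : ℕ} {R : Type} [CommRing R] [TopologicalSpace R] [IsTopologicalRing R]
    [CompactSpace R] [T2Space R] {J : Ideal R} (h : Setup p R J) (x : R) (hx : x ∈ J) :
    ∃ y ∈ J, (1 + x) * (1 + y) = 1 ∧
      ∀ S : AddSubgroup R, IsClosed (S : Set R) → (∀ x' ∈ S, ∀ y' ∈ S, x' * y' ∈ S) → x ∈ S →
        y ∈ S := by
  obtain ⟨c, hcJ, hc, hcS⟩ := SQR_fix h (fun y => -x - x * y)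
    (by
      intro I hI y z hyz
      have : (-x - x * y) - (-x - x * z) = -x * (y - z) := by ring
      rw [this]
      exact I.mul_mem_left _ hyz)
    (J.sub_mem (J.neg_mem hx) (J.mul_mem_right _ hx))
    (fun y hy => J.sub_mem (J.neg_mem hx) (J.mul_mem_left _ hy))
    (by
      intro n y hy z hz hyz
      have : (-x - x * y) - (-x - x * z) = (y - z) * (-x) := by ring
      rw [this, pow_succ]
      exact Ideal.mul_mem_mul hyz (J.neg_mem hx))
  refine ⟨c, hcJ, ?_, ?_⟩
  · have h2 : -x - x * c = c := hc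
    linear_combination -h2
  · intro S hS hmul hxS
    apply hcS (S : Set R) hS S.zero_mem
    intro y hy
    exact S.sub_mem (S.neg_mem hxS) (hmul x hxS y hy)

theorem SQU_row : SQU_stmt := by
  intro p R _ _ _ _ _ _ J hp hp2 h
  refine ⟨fun x hx => SQU_inv h x hx, ?_⟩
  intro c hc c' hc' heq
  have hj : ⅟(2 : R) * (c + c') ∈ J := J.mul_mem_left _ (J.add_mem hc hc')
  obtain ⟨y, _, hy, _⟩ := SQU_inv h _ hj
  have hh := Lib_half (R := R)
  have h1 : (c - c') * (2 * (1 + ⅟(2 : R) * (c + c'))) = 0 := by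
    linear_combination heq + ((c - c') * (c + c')) * hh
  have h2 : (2 * (1 + ⅟(2 : R) * (c + c'))) * (⅟(2 : R) * (1 + y)) = 1 := by
    linear_combination hy + ((1 + ⅟(2 : R) * (c + c')) * (1 + y)) * hh
  have h3 : c - c' = 0 := by
    calc c - c' = (c - c') * ((2 * (1 + ⅟(2 : R) * (c + c'))) * (⅟(2 : R) * (1 + y))) := by
          rw [h2, mul_one]
      _ = ((c - c') * (2 * (1 + ⅟(2 : R) * (c + c')))) * (⅟(2 : R) * (1 + y)) := by ring
      _ = 0 := by rw [h1, zero_mul]
  exact sub_eq_zero.1 h3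

end Pool.Agent.PP2
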