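import Pool.Agent.helper96.PP2.Lib

/-!
# Rows pg:, blocks A (cohomology) and B (uniform filtrations)

All statements are about continuous cochains with values in finite discrete modules.
Other rows appear only as hypotheses. Every docstring contains the complete proof.
-/

namespace Pool.Agent.PP2

open Topology Matrix

/-! ## Block A: general cohomology -/

/-- OPN (medium-long). Vanishing passes to open subgroups (Shapiro, degree 3).
Proof. `U` open in the compact group `G`, so of finite index. Choose `t : G -> G` constant on the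
right cosets `U x`, with `t x` in `U x` and `t 1 = 1` (so `t v = 1` for `v` in `U`), and put
`u x = x * (t x)^-1`, an element of `U`; `u (v x) = v u x` for `v` in `U`, `u v = v` for `v` in `U`;
`u` is continuous. Let `A` be a finite smooth `U`-module of p-power order. Let `I` be the set of
`φ : G -> A` with `φ (v x) = v • φ x` (`v` in `U`), a finite group of order `|A|^[G:U]`,
`G` acting by `(g φ) x = φ (x g)`. It is smooth: `φ` is locally constant (near `x` it is
`v x -> v • φ x`, and the stabiliser of `φ x` is open), and `g` fixes `φ` iff `φ (t_i g) = φ t_i`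
for the finitely many coset representatives `t_i`. Let `f` be a locally constant 3-cocycle on `U`
with values in `A`. Put `F(x0,x1,x2,x3) = u0 • f(u0^-1 u1, u1^-1 u2, u2^-1 u3)`, `ui = u xi`
(a function on `G^4` with `F(v x0, ...) = v • F(x0, ...)` and with alternating sum zero over
5-tuples), and `C(g1,g2,g3)(x) = F(x, x g1, x g1 g2, x g1 g2 g3)`. Then `C` has values in `I`, is
locally constant (check at the finitely many representatives) and is a 3-cocycle. By hypothesis
`C = d2 B` with `B : G -> G -> I` locally constant. For `a b c` in `U`: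
`f a b c = C(a,b,c)(1)` and `(a • B b c)(1) = (B b c)(a) = a • (B b c)(1)`, so
`f = d2 b'` on `U` with `b' v w = (B v w)(1)`, locally constant. -/
def OPN_stmt : Prop :=
  ∀ (p : ℕ) (G : Type) [Group G] [TopologicalSpace G] [IsTopologicalGroup G] [CompactSpace G],
    p.Prime → H3Zero p G → ∀ U : Subgroup G, IsOpen (U : Set G) → H3Zero p U

/-- CLS (medium). Vanishing passes to closed subgroups of a profinite group.
Proof. Let `H` be closed in `G`, `A` a finite smooth `H`-module of p-power order, `f` a locally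
constant 3-cocycle on `H`. The kernel `K0` of the action is open in `H`. As `H` is compact and `f`
is locally constant there is an open neighbourhood `W` of 1 in `H` with
`f (a w1) (b w2) (c w3) = f a b c` for `wi` in `W`, all `a b c`. Since `G` is profinite the open
normal subgroups form a basis at 1: choose `N` open normal in `G` with `N ∩ H ⊆ W ∩ K0`. Let
`U = H N` (open). For `u = h n` put `u • a = h • a`: well defined because
`h n = h' n'` gives `h^-1 h'` in `N ∩ H ⊆ K0`; an action since `(h n)(h' n') = h h' n''`.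
Put `F(h1 n1, h2 n2, h3 n3) = f h1 h2 h3`, well defined because `N ∩ H ⊆ W`; it is a cocycle,
locally constant (constant on cosets of `N`). By OPN for `U` we get `F = d2 B`; restrict `B` to
`H`. -/
def CLS_stmt : Prop :=
  ∀ (p : ℕ) (G : Type) [Group G] [TopologicalSpace G] [IsTopologicalGroup G] [CompactSpace G]
    [T2Space G] [TotallyDisconnectedSpace G],
    p.Prime → H3Zero p G → ∀ H : Subgroup G, IsClosed (H : Set G) → H3Zero p H

/-- ISO (short). Transport along an isomorphism of topological groups: given an `H`-module `A`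
let `G` act through `e`, move the cocycle to `G`, and move the cochain back. -/
def ISO_stmt : Prop :=
  ∀ (p : ℕ) (G H : Type) [Group G] [TopologicalSpace G] [Group H] [TopologicalSpace H]
    (_ : G ≃ₜ* H), H3Zero p G → H3Zero p H

/-- TRS (short-medium). A discrete group of prime order `p` has nonzero `H^3`.
Proof. Let `c` generate `C`, `lg : C -> ZMod p` the logarithm (`lg (x y) = lg x + lg y`,
`lg c = 1`), `car (y, z) = (val (lg y) + val (lg z)) / p`, an integer 0 or 1, where `val` is the
representative in `[0, p)`. From `p * car (y,z) = val lg y + val lg z - val lg (y z)`: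
`car (y,z) - car (x y,z) + car (x,y z) - car (x,y) = 0`. So
`f x y z = lg x * car (y,z)` in `Fp p` satisfies `d3 f = 0` (trivial action):
`d3 f x y z w = lg y car(z,w) - (lg x + lg y) car(z,w) + lg x car(yz,w) - lg x car(y,zw)
+ lg x car(y,z) = 0`. If `f = d2 h` then
`sum over j in [0,p) of f c (c^j) c = sum of (h (c^j) c - h (c^(j+1)) c + h c (c^(j+1)) - h c (c^j))
= 0` by telescoping (`c^p = 1`), while the left side is `sum over j of car (c^j, c) = 1`
(only `j = p-1` contributes). Contradiction. -/
def TRS_stmt : Prop :=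
  ∀ (p : ℕ) (C : Type) [Group C] [TopologicalSpace C] [DiscreteTopology C],
    p.Prime → Nat.card C = p → ¬ H3Zero p C

/-- TOR (short). From TRS and CLS: if `g ^ p = 1`, `g ≠ 1`, then the finite subgroup generated by
`g` is closed, discrete and of order `p`. -/
def TOR_stmt : Prop :=
  ∀ (p : ℕ) (G : Type) [Group G] [TopologicalSpace G] [IsTopologicalGroup G] [CompactSpace G]
    [T2Space G] [TotallyDisconnectedSpace G],
    p.Prime → H3Zero p G → ∀ g : G, g ^ p = 1 → g = 1

/-- ABH (medium). Commutative groups: an open subgroup containing all `p`-th powers has index at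
most `p^2`.
Proof. `Q = A / B` is a finite abelian group of exponent dividing `p`, a vector space over `ZMod p`.
If the index is larger than `p^2` then the dimension is at least 3: there are `a1 a2 a3` in `A` and
homomorphisms `x1 x2 x3 : A -> ZMod p` trivial on `B` with `x_i (a_j) = delta_ij`; they are locally
constant. `f a b c = x1 a * x2 b * x3 c` is a locally constant 3-cocycle with values in `Fp p`
(trivial action): `d3 f a b c d = x1 b x2 c x3 d - (x1 a + x1 b) x2 c x3 d + x1 a (x2 b + x2 c) x3 d
- x1 a x2 b (x3 c + x3 d) + x1 a x2 b x3 c = 0`. If `f = d2 h`, i.e.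
`f a b c = h b c - h (a b) c + h a (b c) - h a b`, take the alternating sum over the six orderings of
`(a1,a2,a3)`: the terms `h (a b) c` cancel in pairs since `a b = b a`, the same for `h a (b c)`,
and the terms `h b c` cancel the terms `h a b` because a 3-cycle is even. So the alternating sum of
`f` vanishes; but it is the determinant of the identity matrix, 1. -/
def ABH_stmt : Prop :=
  ∀ (p : ℕ) (A : Type) [Group A] [TopologicalSpace A] [IsTopologicalGroup A] [CompactSpace A],
    p.Prime → (∀ x y : A, x * y = y * x) → H3Zero p A →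
    ∀ B : Subgroup A, IsOpen (B : Set A) → (∀ a : A, a ^ p ∈ B) → B.index ≤ p ^ 2

/-- ABI (medium). Iteration of ABH, and closed subgroups.
Proof. First let `B` be open with `a^(p^n)` in `B` for all `a`. Put `B_i = {x^(p^i) y : x in A,
y in B}` (a subgroup, `A` being commutative): `B_0 = A`, `B_n = B`. The map
`x -> x^(p^i)` induces a surjection `A / B_1 -> B_i / B_(i+1)`, and `B_1` is open and contains all
`p`-th powers, so `[B_i : B_(i+1)] ≤ p^2` by ABH and `[A : B] ≤ p^(2n)`. Now let `B` be closed. In
the profinite group `A` a closed subgroup is the intersection of the open subgroups containing it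
(`B N`, `N` open normal). All these have index at most `p^(2n)`; let `B'` be one of maximal index;
for any other `B''`, `B' ∩ B''` has index at most that of `B'`, so `B' ≤ B''`. So `B = B'`. -/
def ABI_stmt : Prop :=
  ∀ (p : ℕ) (A : Type) [Group A] [TopologicalSpace A] [IsTopologicalGroup A] [CompactSpace A]
    [T2Space A] [TotallyDisconnectedSpace A],
    p.Prime → (∀ x y : A, x * y = y * x) → H3Zero p A →
    ∀ (n : ℕ) (B : Subgroup A), IsClosed (B : Set A) → (∀ a : A, a ^ (p ^ n) ∈ B) →
      B.index ≠ 0 ∧ B.index ≤ p ^ (2 * n)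

/-- E2R (medium). Degree two part of the long exact sequence of `0 -> A' -> A -> F_p -> 0`.
Proof. Write `φ_*`, `i_*` for composition. (1) `φ_* : Z2(A) -> Z2(F_p)` is surjective: for
`z` in `Z2(F_p)` compose with a set theoretic section `F_p -> A`: `c : G -> G -> A` locally
constant with `φ c = z`; `d2 c` is a 3-cocycle with values in `ker φ = i A'`, so
`d2 c = i (d2 c')` by `H3Zero` (the identity `d3 (d2 c) = 0` is a direct computation), and
`c - i c'` is in `Z2(A)` over `z`. (2) `φ_* : B2(A) -> B2(F_p)` is surjective (lift 1-cochains).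
(3) The kernel of `φ_*` on `Z2(A)` is `i_* Z2(A')`. So
`[Z2(A) : B2(A)] = [Z2(F_p) : B2(F_p)] * [i_* Z2(A') : B2(A) ∩ i_* Z2(A')]`.
(4) `i_* B2(A') ≤ B2(A) ∩ i_* Z2(A')`, and the index is `s = [Z1(F_p) : φ_* Z1(A)]`: the map
`{c : G -> A locally constant, φ_* c in Z1(F_p)} -> B2(A) ∩ i_* Z2(A')`, `c -> d1 c`, is onto, and
`d1 c` is in `i_* B2(A')` iff `c` is in `i_*(cochains) + Z1(A)` iff `φ_* c` is in `φ_* Z1(A)`;
also `c -> φ_* c` is onto `Z1(F_p)`. So
`h2(A) * s = h2(F_p) [i_* Z2(A') : B2(A) ∩ i_* Z2(A')] s = h2(F_p) [i_* Z2(A') : i_* B2(A')]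
= h2(F_p) h2(A')` (all with the convention that infinite indices are 0). -/
def E2R_stmt : Prop :=
  ∀ (p : ℕ) (G : Type) [Group G] [TopologicalSpace G] [IsTopologicalGroup G] [CompactSpace G]
    (A' A : Type) [AddCommGroup A'] [DistribMulAction G A'] [AddCommGroup A] [DistribMulAction G A]
    (i : A' →+ A) (φ : A →+ Fp p),
    p.Prime → H3Zero p G → Finite A → (∃ k : ℕ, Nat.card A' = p ^ k) → Smooth G A →
    Function.Injective i → Function.Surjective φ → (∀ (g : G) (a : A'), i (g • a) = g • i a) →
    (∀ (g : G) (a : A), φ (g • a) = φ a) → (∀ a : A, φ a = 0 ↔ ∃ a' : A', i a' = a) →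
    h2 G A * ((Z1 G A).map (φ.compLeft G)).relIndex (Z1 G (Fp p)) = h2 G (Fp p) * h2 G A'

/-- E1R (medium). Degree one part of the same long exact sequence.
Proof. `r = |φ_* Z1(A)|`, `s = [Z1(F_p) : φ_* Z1(A)]`, so `r s = |Z1(F_p)|`; since the action on
`F_p` is trivial `B1(F_p) = 0` and `h1(F_p) = |Z1(F_p)|`. As `φ_*` kills `B1(A)`,
`B1(A) ≤ i_* Z1(A') ≤ Z1(A)` and `[Z1(A) : i_* Z1(A')] = r`, so
`h1(A) = r [i_* Z1(A') : B1(A)]`. Also `h1(A') = [i_* Z1(A') : i_* B1(A')] =
[i_* Z1(A') : B1(A)] [B1(A) : i_* B1(A')]`. Finally `B1(A)` is the image of `A` under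
`m -> (g -> g m - m)` with kernel `H0(A)`, so `|B1(A)| h0(A) = |A| = p |A'| = p |B1(A')| h0(A')`,
i.e. `[B1(A) : i_* B1(A')] h0(A) = p h0(A')`. Multiply. -/
def E1R_stmt : Prop :=
  ∀ (p : ℕ) (G : Type) [Group G] [TopologicalSpace G] [IsTopologicalGroup G] [CompactSpace G]
    (A' A : Type) [AddCommGroup A'] [DistribMulAction G A'] [AddCommGroup A] [DistribMulAction G A]
    (i : A' →+ A) (φ : A →+ Fp p),
    p.Prime → Finite A → Smooth G A →
    Function.Injective i → Function.Surjective φ → (∀ (g : G) (a : A'), i (g • a) = g • i a) →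
    (∀ (g : G) (a : A), φ (g • a) = φ a) → (∀ a : A, φ a = 0 ↔ ∃ a' : A', i a' = a) →
    h1 G A * (p * h0 G A') = Nat.card ((Z1 G A).map (φ.compLeft G)) * h1 G A' * h0 G A ∧
    Nat.card ((Z1 G A).map (φ.compLeft G))
      * ((Z1 G A).map (φ.compLeft G)).relIndex (Z1 G (Fp p)) = h1 G (Fp p)

/-- SBM (medium). A nonzero finite smooth module killed by `p` over a pro-p group has a
submodule of index `p` with trivial quotient.
Proof. The kernel `K` of the action is open normal, so of index a power of `p`. `D = Hom(A, ZMod p)`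
is finite of order a power of `p`, nontrivial, and the finite `p`-group `G / K` acts on it by
`(g ψ)(a) = ψ (g^-1 a)`. The number of fixed points is congruent to `|D|`, i.e. to 0, modulo `p`;
0 is fixed, so there is a nonzero fixed `ψ`, which is surjective. Take `A' = ker ψ` with the
restricted action. -/
def SBM_stmt : Prop :=
  ∀ (p : ℕ) (G : Type) [Group G] [TopologicalSpace G] [IsTopologicalGroup G] (A : Type)
    [AddCommGroup A] [DistribMulAction G A],
    p.Prime → ProP p G → Finite A → Nontrivial A → (∀ a : A, p • a = 0) → Smooth G A →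
    ∃ (A' : Type) (_ : AddCommGroup A') (_ : DistribMulAction G A') (i : A' →+ A) (φ : A →+ Fp p),
      Function.Injective i ∧ Function.Surjective φ ∧ (∀ (g : G) (a : A'), i (g • a) = g • i a) ∧
      (∀ (g : G) (a : A), φ (g • a) = φ a) ∧ (∀ a : A, φ a = 0 ↔ ∃ a' : A', i a' = a)

/-- EUL (medium). The Euler characteristic inequality.
Proof. Induction on `|A|` (a power of `p` since `p A = 0`). `A = 0`: all numbers are 1. Otherwise
take `A'`, `φ` from SBM, `|A| = p |A'|`; `A'` is finite, killed by `p`, smooth. Let `α = h1(F_p)`,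
`β = h2(F_p)`, `r = |φ_* Z1(A)|`, `s` as in E2R, `r s = α ≠ 0`. E2R: `h2(A) s = β h2(A') ≠ 0`.
E1R: `h1(A) p h0(A') = r h1(A') h0(A) ≠ 0` (the `h0` are orders of finite groups, nonzero).
Then `h0(A) h2(A) s h0(A') = h0(A) β h2(A') h0(A') ≥ h0(A) β |A'| h1(A')` by induction, and
`|A| h1(A) s h0(A') = |A'| s (h1(A) p h0(A')) = |A'| s r h1(A') h0(A) = |A'| α h1(A') h0(A)
≤ |A'| β h1(A') h0(A)`. Cancel `s h0(A')`. -/
def EUL_stmt : Prop :=
  ∀ (p : ℕ) (G : Type) [Group G] [TopologicalSpace G] [IsTopologicalGroup G] [CompactSpace G],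
    p.Prime → ProP p G → H3Zero p G → h1 G (Fp p) ≠ 0 → h2 G (Fp p) ≠ 0 →
    h1 G (Fp p) ≤ h2 G (Fp p) →
    ∀ (A : Type) [AddCommGroup A] [DistribMulAction G A],
      Finite A → (∀ a : A, p • a = 0) → Smooth G A →
      h1 G A ≠ 0 ∧ h2 G A ≠ 0 ∧ Nat.card A * h1 G A ≤ h0 G A * h2 G A

/-- SHA (medium). Injectivity of the Shapiro map in degree two.
Proof. Let `ev f a b = (f a b).1 1` for `a b` in `N`: it maps `Z2(G, IndF)` to `Z2(N, Fp)`
(`(a • φ)(1) = φ(a) = φ(1)` for `a` in `N`). Claim: if `f` is in `Z2(G, IndF)` and `ev f` is in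
`B2(N, Fp)` then `f` is in `B2(G, IndF)`; so `Z2/B2` for `(G, IndF)` injects into `Z2/B2` for
`(N, Fp)`, which gives the row. Proof of the claim. Choose `t : G -> G` constant on right cosets
`N x`, `t x` in `N x`, `t = 1` on `N`, and `u x = x (t x)^-1` in `N`: `u (v x) = v u x`,
`u v = v` for `v` in `N`, `u` continuous. Put `F(x0,x1,x2) = (f (x0^-1 x1) (x1^-1 x2)).1 x0`;
`F(v x0, v x1, v x2) = F(x0,x1,x2)` for `v` in `N`, and
`F(x1,x2,x3) - F(x0,x2,x3) + F(x0,x1,x3) - F(x0,x1,x2) = 0` (evaluate `d2 f = 0` at `x0`).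
Let `ev f a b = b' b - b' (a b) + b' a` on `N`. Let `P(x,y) = F(x, u x, u y) - F(x, y, u y)`. From
the relations for `(x0,x1,x2,u2)`, `(x0,x1,u1,u2)`, `(x0,u0,u1,u2)` one gets
`F(x0,x1,x2) = F(u0,u1,u2) - P(x1,x2) + P(x0,x2) - P(x0,x1)`, and
`F(u0,u1,u2) = b'(u1^-1 u2) - b'(u0^-1 u2) + b'(u0^-1 u1)` (invariance under `u0` in `N`, then
`ev f`). So with `h(g)(x) = b'(u(x)^-1 u(x g)) - P(x, x g)`, an element of `IndF` for each `g`,
locally constant in `g` (look at the finitely many coset representatives `x`),
`f a b = a • h b - h (a b) + h a`. -/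
def SHA_stmt : Prop :=
  ∀ (p : ℕ) (G : Type) [Group G] [TopologicalSpace G] [IsTopologicalGroup G] [CompactSpace G]
    (N : Subgroup G), IsOpen (N : Set G) → p.Prime → h2 N (Fp p) ≠ 0 →
    h2 G (IndF p N) ≠ 0 ∧ h2 G (IndF p N) ≤ h2 N (Fp p)

/-- CIN (short-medium). Facts on the induced module of an open subgroup of a compact group: finite,
of order `p^[G:N]` (a function is determined by arbitrary values on representatives of the right
cosets; left and right cosets have the same number), killed by `p`, smooth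
(`f` is constant on the open sets `N x`; `g` fixes `f` iff `f (x g) = f x` for the finitely many
representatives `x` of the right cosets: if `x' = v x` then `f (x' g) = f (x g)`), and with fixed
elements the constant functions, `p` in number. -/
def CIN_stmt : Prop :=
  ∀ (p : ℕ) (G : Type) [Group G] [TopologicalSpace G] [IsTopologicalGroup G] [CompactSpace G]
    (N : Subgroup G), IsOpen (N : Set G) → p.Prime →
    Finite (IndF p N) ∧ Nat.card (IndF p N) = p ^ N.index ∧ (∀ a : IndF p N, p • a = 0) ∧
    Smooth G (IndF p N) ∧ h0 G (IndF p N) = p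

/-! ## Block B: uniform filtrations -/

/-- KEY (medium-long). Canonical sections are multiplicative.
Proof. Since `F 0 = ⊤`, every `v` in `F 1` is `x^p` (root), with `x` unique (inj), and then
`s v = e^p` for any `e` over `x`, `π (s v) = v`. We show by downward induction on `i`, from `n` to
1, that `s` is multiplicative on `F i`. Let `1 ≤ i`, `s` multiplicative on `F (i+1)`; show it on
`F i`. `M = s (F (i+1))` is a subgroup of `E`, normal: `e s(v) e^-1 = s(π(e) v π(e)^-1)` because
`s v = x~^p`, and `e x~^p e^-1 = (e x~ e^-1)^p`. `M ∩ ker π = 1` as `π (s v) = v` and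
`s 1 = s 1 * s 1`.
(a) For `a b` in `E` with `π a, π b` in `F (i-1)`: `π(a b a^-1 b^-1)` is in `F (i+1)` by `com`, so
`a b a^-1 b^-1 = m z` with `m` in `M`, `z` in `ker π` (central, `z^p = 1`). Modulo `M` the elements
`a`, `b` generate a group in which their commutator is central and of order dividing `p`; since
`p` is odd `(a b)^p = a^p b^p` modulo `M` (the correction is the `p (p-1)/2`-th power of the
commutator).
(b) If `v` in `F i`, `k` in `F (i+1)` then `s (v k)` is in `s(v) M`: write `v = x^p`, `v k = y^p`,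
`x y` in `F (i-1)`, `y = x r`; in the abelian group `F(i-1)/F(i+1)` we get `r^p = 1`, so
`r^p` is in `F (i+1)`, `r^p = q^p` with `q` in `F i` (root), `r = q` in `F i` (inj). By (a)
`s (v k) = (x~ r~)^p = x~^p r~^p = s(v) s(r^p)` modulo `M`, and `r^p` is in `F (i+1)`.
(c) Let `v = x^p`, `w = y^p` be in `F i`, `x y` in `F (i-1)`. By (a)
`s((x y)^p) = (x~ y~)^p = s(v) s(w) m`, `m` in `M`; applying `π`, `(x y)^p = v w k` with
`k` in `F (i+1)`; by (b) `s (v w)` is in `s((x y)^p) M = s(v) s(w) M`, and both sides lie over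
`v w`, so the factor in `M` lies over 1 and is 1. -/
def KEY_stmt : Prop :=
  ∀ (p : ℕ) (U : Type) [Group U] [TopologicalSpace U] (F : ℕ → Subgroup U) (E : Type) [Group E]
    (π : E →* U) (s : U → E) (n : ℕ),
    p.Prime → p ≠ 2 → Unif p U F → Function.Surjective π →
    (∀ z ∈ π.ker, z ^ p = 1 ∧ ∀ e : E, z * e = e * z) → (∀ e : E, s ((π e) ^ p) = e ^ p) →
    1 ≤ n → (∀ v ∈ F n, ∀ w ∈ F n, s (v * w) = s v * s w) →
    ∀ v ∈ F 1, ∀ w ∈ F 1, s (v * w) = s v * s w

/-- SEC (medium). The section for a 2-cocycle. From KEY.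
Proof. `f(1,1) = 0` and the cocycle identity give `f(1,x) = f(x,1) = 0`. `E = Fp × U` with
`(a,x)(b,y) = (a + b + f(x,y), x y)` is a group, `π` the projection, its kernel `Fp × 1` is central
and killed by `p`. If `π e = π e'` then `e^p = e'^p`. Define `s (x^p) = (0,x)^p` (well defined by
`inj`; the elements `x^p` are exactly those of `F 1`), `s v = (0,v)` off `F 1`. By compactness and
`basis` there is `m` with `f (x v) (y w) = f x y` for `v w` in `F m`. For `x` in `F m`:
`(0,x)^p = (sum of f(x, x^k) over k < p, x^p) = (0, x^p)` as `f(x,x^k) = f(1,1)`. So `s v = (0,v)` for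
`v` in `F (m+1)` and there `s` is multiplicative (`f v w = 0`). By KEY (with `n = m+1`) `s` is
multiplicative on `F 1`. Let `σ v` be the first coordinate of `s v` for `v` in `F 1`, and 0
elsewhere. First property: multiplicativity. Second: `(0,g) s(v) (0,g)^-1 = s(g v g^-1)` because
`s v` is a `p`-th power of a lift; write it as `(0,g) s(v) = s(g v g^-1) (0,g)`. Locally constant:
`σ (v w) = σ v + σ w + f v w = σ v` for `w` in `F (m+1)`, `v` in `F 1`, and `F 1` is open and
closed. -/
def SEC_stmt : Prop :=
  ∀ (p : ℕ) (U : Type) [Group U] [TopologicalSpace U] [IsTopologicalGroup U] [CompactSpace U]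
    (F : ℕ → Subgroup U), p.Prime → p ≠ 2 → Unif p U F →
    ∀ f ∈ Z2 U (Fp p), f 1 1 = 0 →
      ∃ σ : U → Fp p, IsLocallyConstant σ ∧
        (∀ v ∈ F 1, ∀ w ∈ F 1, σ (v * w) = σ v + σ w + f v w) ∧
        (∀ g : U, ∀ v ∈ F 1, f g v + σ v = σ (g * v * g⁻¹) + f (g * v * g⁻¹) g)

/-- INF (medium). Every 2-class is inflated from `U / F 1`. From SEC.
Proof. Subtracting the coboundary `d1` of the constant function `f 1 1` we may assume `f 1 1 = 0`
(then also `f 1 x = f x 1 = 0`). Let `σ` be as in SEC. Choose `t : U -> U` constant on the cosets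
`x F 1` with `t x` in `x F 1`, `t 1 = 1`, and `v x = (t x)^-1 x` in `F 1`. In the group
`E` of SEC let `s(x) = (0, t x) (σ(v x), v x) = (b x, x)`, `b x = σ(v x) + f (t x) (v x)`, locally
constant. For `v` in `F 1`: `s(x v) = s(x) s(v)` and `s(v) = (σ v, v)` (first property of `σ`), and
`s(v) s(y) = s(y) s(y^-1 v y)` (second property, which says that conjugation by any element over
`g` maps `s(v)` to `s(g v g^-1)`). Put `f' x y = f x y + b x + b y - b (x y)`, i.e.
`s(x) s(y) = (f' x y, 1) s(x y)`: a locally constant cocycle cohomologous to `f`. Then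
`s(x v) s(y) = s(x) s(y) s(y^-1 v y)` and `s(x v y) = s(x y) s(y^-1 v y)`, so
`f' (x v) y = f' x y`; and `s(x) s(y w) = s(x) s(y) s(w)`, `s(x y w) = s(x y) s(w)`, so
`f' x (y w) = f' x y`. (All can be written with `f`, `σ` only, if one prefers to avoid `E`.) -/
def INF_stmt : Prop :=
  ∀ (p : ℕ) (U : Type) [Group U] [TopologicalSpace U] [IsTopologicalGroup U] [CompactSpace U]
    (F : ℕ → Subgroup U), p.Prime → p ≠ 2 → Unif p U F →
    ∀ f ∈ Z2 U (Fp p), ∃ f' ∈ Z2 U (Fp p), f - f' ∈ B2 U (Fp p) ∧
      ∀ x y : U, ∀ v ∈ F 1, ∀ w ∈ F 1, f' (x * v) (y * w) = f' x y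

/-- H2U (short-medium). Upper bound for `H^2`. From INF.
Proof. Let `Q = U / F 1`, `|Q| = p^d`. By INF every class of `Z2/B2` is represented by a function
which factors through `Q × Q`; there are `p^(p^(2d))` functions `Q × Q -> F_p`. So `Z2/B2` is
finite with at most this number of elements (and its order is not 0). -/
def H2U_stmt : Prop :=
  ∀ (p : ℕ) (U : Type) [Group U] [TopologicalSpace U] [IsTopologicalGroup U] [CompactSpace U]
    (F : ℕ → Subgroup U) (d : ℕ), p.Prime → p ≠ 2 → Unif p U F → (F 1).index = p ^ d →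
    h2 U (Fp p) ≠ 0 ∧ h2 U (Fp p) ≤ p ^ (p ^ (2 * d))

/-- H1U (short-medium). `H^1`.
Proof. `B1(Fp) = 0` and `Z1(Fp)` is the group of locally constant homomorphisms `U -> Fp`. They
vanish on `p`-th powers, i.e. on `F 1` (root for `j = 0`, `F 0 = ⊤`), and conversely a homomorphism
vanishing on the open subgroup `F 1` is locally constant. `U / F 1` is commutative (`com 0` and
`F 2 ≤ F 1`) of exponent dividing `p` (`pow 0`) and of order `p^d`, a vector space of dimension `d`
over `ZMod p`, so it has `p^d` homomorphisms to `F_p`. -/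
def H1U_stmt : Prop :=
  ∀ (p : ℕ) (U : Type) [Group U] [TopologicalSpace U] [IsTopologicalGroup U] [CompactSpace U]
    (F : ℕ → Subgroup U) (d : ℕ), p.Prime → Unif p U F → (F 1).index = p ^ d →
    h1 U (Fp p) = p ^ d

/-- H2L (medium). Lower bound for `H^2` by cup products.
Proof. `U / F 1` is a vector space of dimension `d ≥ 3` over `ZMod p`: there are homomorphisms
`x_i : U -> Fp` and elements `e_j` of `U`, `i j` in `ZMod d`, `x_i (e_j) = delta_ij`, all `x_i`
trivial on `F 1`, hence locally constant. For `c : ZMod d -> Fp` put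
`β_c u w = sum over i of c_i x_i(u) x_(i+1)(w)`: it is in `Z2`, additive in `c`. If
`β_c = d1 b` with `b` locally constant (trivial action), i.e. `β_c u w = b w - b (u w) + b u`, then
`b` is a homomorphism on `F 1`, so it vanishes on `F 2` (every element of `F 2` is `y^p` with
`y` in `F 1`, root for `j = 1`), and `b (u c) = b u + b c` for `c` in `F 1` (as `x_i c = 0`). As
`u w = w u k` with `k = u^-1 w^-1 u w` in `F 2` we get `b (u w) = b (w u)`, so
`β_c u w = β_c w u`. With `u = e_i`, `w = e_(i+1)`: the left side is `c_i`, the right side is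
`sum over j of c_j x_j(e_(i+1)) x_(j+1)(e_i) = 0` since `j = i+1` and `j+1 = i` is impossible in
`ZMod d`, `d ≥ 3`. So `c = 0`: the `p^d` cocycles `β_c` are in different classes. -/
def H2L_stmt : Prop :=
  ∀ (p : ℕ) (U : Type) [Group U] [TopologicalSpace U] [IsTopologicalGroup U] [CompactSpace U]
    (F : ℕ → Subgroup U) (d : ℕ), p.Prime → Unif p U F → (F 1).index = p ^ d → 3 ≤ d →
    h2 U (Fp p) ≠ 0 → p ^ d ≤ h2 U (Fp p)

/-- SHF (short-medium). The shifted filtration. All fields are immediate. -/
def SHF_stmt : Prop :=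
  ∀ (p : ℕ) (U : Type) [Group U] [TopologicalSpace U] [IsTopologicalGroup U] (F : ℕ → Subgroup U),
    Unif p U F → ∀ n : ℕ, Unif p (F n) (fun j => (F (n + j)).subgroupOf (F n))

/-- IXN (medium). Indices.
Proof. `U` compact, so the open subgroups have finite index. The map `x -> x^p`, `F n -> F (n+1)`,
induces a bijection `F n / F (n+1) -> F (n+1) / F (n+2)`: in the commutative group
`F n / F (n+2)` (`com n`) the map `x -> x^p` is a homomorphism, its image is `F(n+1)/F(n+2)` (root)
and its kernel is `F(n+1)/F(n+2)`: if `x^p` is in `F (n+2)` then `x^p = y^p`, `y` in `F (n+1)`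
(root), `x = y` (inj). So all indices `[F n : F (n+1)]` are equal; multiply. -/
def IXN_stmt : Prop :=
  ∀ (p : ℕ) (U : Type) [Group U] [TopologicalSpace U] [IsTopologicalGroup U] [CompactSpace U]
    (F : ℕ → Subgroup U), p.Prime → Unif p U F → ∀ n : ℕ,
    ((F (n + 1)).subgroupOf (F n)).index = (F 1).index ∧ (F n).index = (F 1).index ^ n

/-- FNB (medium). No uniform group of dimension at least three has vanishing `H^3`.
Proof. `U` is pro-p: an open normal `V` contains some `F j` (basis), so `V.index` divides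
`(F j).index = p^(d j)` (IXN). `α = h1(U) = p^d` (H1U), `β = h2(U)` is finite (H2U) and at least
`p^d` (H2L). Apply EUL to `A = IndF p (F n)`, of order `p^(p^(d n))`, `h0 = p` (CIN, IXN):
`p^(p^(d n)) * h1(A) ≤ p * h2(A)`, `h1(A) ≥ 1`, and by SHA and H2U for the group `F n` with the
filtration SHF (its first index is `p^d` by IXN) `h2(A) ≤ h2(F n, Fp) ≤ p^(p^(2d))`. So
`p^(d n) ≤ 1 + p^(2 d)`, false for `n = 3`. -/
def FNB_stmt : Prop :=
  ∀ (p : ℕ) (U : Type) [Group U] [TopologicalSpace U] [IsTopologicalGroup U] [CompactSpace U]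
    (F : ℕ → Subgroup U) (d : ℕ), p.Prime → p ≠ 2 → Unif p U F → (F 1).index = p ^ d → 3 ≤ d →
    ¬ H3Zero p U

end Pool.Agent.PP2
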