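import Pool.Agent.helper96.PP2.Lib

/-!
# Rows pg:, block C (the theory of Pink for closed subgroups of the congruence group of SL_2)

`R` is a compact Hausdorff commutative topological ring, `J` an ideal with `Setup p R J`, `p` an odd
prime; `2` is invertible. `Sg J` is the group of matrices of determinant 1 congruent to 1 modulo `J`,
`TH g` the traceless part, `ht g` the half trace, `g = ht g + TH g`. For a closed subgroup `Γ` of
`Sg J`, `LL Γ = Lc Γ 0` is the closed additive group generated by `TH Γ`, and `Lc Γ (n+1)` is the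
closed additive group generated by the brackets of `LL Γ` and `Lc Γ n`. Basic lemmas (with proofs)
are in Lib.lean. Every docstring contains the complete proof; other rows only as hypotheses.
-/

namespace Pool.Agent.PP2

open Topology Matrix

/-- HAV (short). Closed additive groups are closed under halving.
Proof. `p^n -> 0` in `R` (`p` is in `J`, and `J^n ≤ I` for every open ideal `I`, which form a
basis). Let `n_k = (p^k+1)/2`, a natural number. `2 n_k = p^k + 1` gives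
`(n_k : R) = ⅟2 (p^k + 1) -> ⅟2`. So `n_k • X = (n_k : R) • X -> ⅟2 • X`, and `n_k • X` is in
the closed additive group. The same in `R`. -/
def HAV_stmt : Prop :=
  ∀ (p : ℕ) (R : Type) [CommRing R] [TopologicalSpace R] [IsTopologicalRing R] [CompactSpace R]
    [T2Space R] [Invertible (2 : R)] (J : Ideal R), p.Prime → p ≠ 2 → Setup p R J →
    (∀ N : AddSubgroup (M2 R), IsClosed (N : Set (M2 R)) → ∀ X ∈ N, ⅟(2 : R) • X ∈ N) ∧
    (∀ N : AddSubgroup R, IsClosed (N : Set R) → ∀ x ∈ N, ⅟(2 : R) * x ∈ N)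

/-- SQR (medium). Square roots. From HAV.
Proof. Let `c_0 = 0`, `c_(k+1) = ⅟2 (u - c_k^2)`. All `c_k` are in `J` and in every closed additive
group `S` containing `u` and closed under multiplication (HAV). `c_(k+1) - c_k =
-⅟2 (c_k - c_(k-1))(c_k + c_(k-1))` is in `J^(k+1)`. Let `c` be a cluster point of the sequence in
the compact space `R`. For an open ideal `I` choose `n` with `J^n ≤ I`; for `k ≥ n` all `c_k` are
congruent modulo `I`, and `c` is congruent to them; so `c` and `⅟2 (u - c^2)` are congruent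
modulo every open ideal `I`, hence equal (`R` is Hausdorff and the open ideals form a basis). So
`2 c + c^2 = u`, i.e. `(1 + c)^2 = 1 + u`; `c` is in `J` and in `S` since these are closed. -/
def SQR_stmt : Prop :=
  ∀ (p : ℕ) (R : Type) [CommRing R] [TopologicalSpace R] [IsTopologicalRing R] [CompactSpace R]
    [T2Space R] [Invertible (2 : R)] (J : Ideal R), p.Prime → p ≠ 2 → Setup p R J →
    ∀ u ∈ J, ∃ c ∈ J, (1 + c) ^ 2 = 1 + u ∧
      ∀ S : AddSubgroup R, IsClosed (S : Set R) → (∀ x ∈ S, ∀ y ∈ S, x * y ∈ S) → u ∈ S → c ∈ S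

/-- SQU (medium). Inverses of `1 + x`, and uniqueness of square roots.
Proof. Let `y_0 = 0`, `y_(k+1) = -x - x y_k`; `y_(k+1) - y_k` is in `J^(k+1)`. As in SQR the
sequence has a cluster point `y` with `y = -x - x y`, i.e. `(1 + x)(1 + y) = 1`; it is in `J`, and in
every closed additive group closed under multiplication and containing `x`. Uniqueness: if
`(1+c)^2 = (1+c')^2` then `(c - c') * 2 * (1 + ⅟2 (c + c')) = 0`, both `2` and `1 + ⅟2 (c+c')` are
units. -/
def SQU_stmt : Prop :=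
  ∀ (p : ℕ) (R : Type) [CommRing R] [TopologicalSpace R] [IsTopologicalRing R] [CompactSpace R]
    [T2Space R] [Invertible (2 : R)] (J : Ideal R), p.Prime → p ≠ 2 → Setup p R J →
    (∀ x ∈ J, ∃ y ∈ J, (1 + x) * (1 + y) = 1 ∧
      ∀ S : AddSubgroup R, IsClosed (S : Set R) → (∀ x' ∈ S, ∀ y' ∈ S, x' * y' ∈ S) → x ∈ S →
        y ∈ S) ∧
    (∀ c ∈ J, ∀ c' ∈ J, (1 + c) ^ 2 = (1 + c') ^ 2 → c = c')

/-- EXI (short-medium). Existence and uniqueness of the element with given traceless part.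
From SQR, SQU. Proof. `u = ⅟2 Bf X X` is in `J`; take `c` in `J` with `(1+c)^2 = 1 + u`, and
`g = (1+c) + X`, whose inverse is `(1+c) - X` because `X X = u` (Lib_sq); `det g = (1+c)^2 + det X`,
`det X = - ⅟2 Bf X X` for a traceless matrix, so `det g = 1`; and `g - 1 = c + X` has entries in `J`,
`Th g = X`. Uniqueness: by Lib_ht_sq the half traces have equal squares, and both are 1 modulo `J`
(Lib_ht_sub_one), so they are equal by SQU; use Lib_decomp. -/
def EXI_stmt : Prop :=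
  ∀ (p : ℕ) (R : Type) [CommRing R] [TopologicalSpace R] [IsTopologicalRing R] [CompactSpace R]
    [T2Space R] [Invertible (2 : R)] (J : Ideal R), p.Prime → p ≠ 2 → Setup p R J →
    (∀ X : M2 R, Matrix.trace X = 0 → (∀ i j, X i j ∈ J) → ∃ g ∈ Sg J, TH g = X) ∧
    (∀ g ∈ Sg J, ∀ h ∈ Sg J, TH g = TH h → g = h)

/-- AMU (short-medium). From HAV, SQR, SQU. Proof. `S = {s : R | s • Z in K' for all Z in K}` is a
closed additive group (`K'` is closed), closed under multiplication since `K' ≤ K`, and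
`u = ⅟2 Bf (TH g) (TH g)` is in `S` by hypothesis and HAV for `K'`. Let `c` be from SQR for `u`
(in `J` because the entries of `TH g` are); `c = ht g - 1` by SQU, since
`(1 + (ht g - 1))^2 = 1 + u` (Lib_ht_sq). So `ht g - 1` is in `S`. -/
def AMU_stmt : Prop :=
  ∀ (p : ℕ) (R : Type) [CommRing R] [TopologicalSpace R] [IsTopologicalRing R] [CompactSpace R]
    [T2Space R] [Invertible (2 : R)] (J : Ideal R), p.Prime → p ≠ 2 → Setup p R J →
    ∀ g ∈ Sg J, ∀ K' K : AddSubgroup (M2 R), IsClosed (K' : Set (M2 R)) → K' ≤ K →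
      (∀ Z ∈ K, Bf (TH g) (TH g) • Z ∈ K') → ∀ Z ∈ K, (ht g - 1) • Z ∈ K'

/-- SUB (medium). From AMU. Proof. The set `{g in Sg J | TH g in N}` is a closed subgroup.
Product: `TH (g h) = ht g • TH h + ht h • TH g + ⅟2 • Br (TH g) (TH h)` (Lib_TH_mul), and
`ht g • Y = Y + (ht g - 1) • Y` is in `N` by AMU with `K' = K = N`. Inverse: Lib_TH_inv. Unit:
`TH 1 = 0`. Closed: `TH` is continuous, `N` closed, and `Sg J` is closed (Lib_mem_Sg, `J` closed,
`R` Hausdorff). -/
def SUB_stmt : Prop :=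
  ∀ (p : ℕ) (R : Type) [CommRing R] [TopologicalSpace R] [IsTopologicalRing R] [CompactSpace R]
    [T2Space R] [Invertible (2 : R)] (J : Ideal R), p.Prime → p ≠ 2 → Setup p R J →
    IsClosed (Sg J : Set (GL (Fin 2) R)) ∧
    ∀ N : AddSubgroup (M2 R), Adm J N →
      (∀ g : GL (Fin 2) R, g ∈ ES J N ↔ g ∈ Sg J ∧ TH g ∈ N) ∧
      IsClosed (ES J N : Set (GL (Fin 2) R))

/-- LTR (short-medium). Elementary facts: all `Lc Γ n` are closed and consist of traceless matrices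
with entries in the closed ideal `J` (Lib_trace_TH, Lib_TH_ent, Lib_trace_Br; the set of such
matrices is a closed additive group containing all brackets of its elements). -/
def LTR_stmt : Prop :=
  ∀ (p : ℕ) (R : Type) [CommRing R] [TopologicalSpace R] [IsTopologicalRing R] [CompactSpace R]
    [T2Space R] [Invertible (2 : R)] (J : Ideal R), p.Prime → p ≠ 2 → Setup p R J →
    ∀ Γ : Subgroup (GL (Fin 2) R), Γ ≤ Sg J → ∀ n : ℕ,
      IsClosed (Lc Γ n : Set (M2 R)) ∧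
      ∀ X ∈ Lc Γ n, Matrix.trace X = 0 ∧ ∀ i j, X i j ∈ J

/-- LBR (short-medium). Proof. For `g h` in `Γ`: `TH (g h) - TH (h g) = Br (TH g) (TH h)`
(from Lib_TH_mul, or because `g h - h g = Br (TH g) (TH h)` is traceless). So `Br X Y` is in `LL Γ`
for `X Y` in `TH Γ`; then for `X`, `Y` in the additive group generated (bilinearity), then for the
closure (continuity, Lib_cont_Br), first in `X` with `Y` fixed, then in `Y`. -/
def LBR_stmt : Prop :=
  ∀ (R : Type) [CommRing R] [TopologicalSpace R] [IsTopologicalRing R] [Invertible (2 : R)]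
    (Γ : Subgroup (GL (Fin 2) R)), ∀ X ∈ LL Γ, ∀ Y ∈ LL Γ, Br X Y ∈ LL Γ

/-- LBF (medium). From HAV. Proof. For `g h k` in `Γ`: `g h + g^-1 h = (2 ht g) h` by Lib_inv
(`g^-1 = ht g - TH g`), so `(2 ht g) • TH h = TH (g h) + TH (g^-1 h)` is in `LL Γ`, and by halving
(HAV) `ht g • TH h` is in `LL Γ`; by additivity and continuity `ht g • Z` is in `LL Γ` for all `Z` in
`LL Γ`. By Lib_ht_mul `Bf (TH g) (TH h) = 2 (ht (g h) - ht g * ht h)`, so
`Bf (TH g) (TH h) • Z` is in `LL Γ` for `Z` in `LL Γ`. Extend to all `X Y` in `LL Γ` by additivity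
and continuity. -/
def LBF_stmt : Prop :=
  ∀ (p : ℕ) (R : Type) [CommRing R] [TopologicalSpace R] [IsTopologicalRing R] [CompactSpace R]
    [T2Space R] [Invertible (2 : R)] (J : Ideal R), p.Prime → p ≠ 2 → Setup p R J →
    ∀ Γ : Subgroup (GL (Fin 2) R), Γ ≤ Sg J →
      ∀ X ∈ LL Γ, ∀ Y ∈ LL Γ, ∀ Z ∈ LL Γ, Bf X Y • Z ∈ LL Γ

/-- LLE (medium). From LBR. Proof. First statement by induction on `n`: `Lc 1 ≤ Lc 0` is LBR; a
generator `Br X Y` of `Lc (n+2)`, `Y` in `Lc (n+1) ≤ Lc n`, is in `Lc (n+1)`. Second by induction on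
`m` for all `n`: `m = 0` is the definition of `Lc (n+1)`. For `m + 1`: the set of `X` with
`Br X Y` in the closed group `Lc (m+1+n+1)` for all `Y` in `Lc n` is a closed additive group; it
contains `Br U V`, `U` in `LL`, `V` in `Lc m`, because
`Br (Br U V) Y = Br U (Br V Y) - Br V (Br U Y)` (Jacobi), `Br V Y` is in `Lc (m+n+1)`, so the first
term is in `Lc (m+n+2)`, and `Br U Y` is in `Lc (n+1)`, so the second is in `Lc (m+(n+1)+1)`. -/
def LLE_stmt : Prop :=
  ∀ (R : Type) [CommRing R] [TopologicalSpace R] [IsTopologicalRing R] [Invertible (2 : R)]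
    (Γ : Subgroup (GL (Fin 2) R)),
    (∀ n : ℕ, Lc Γ (n + 1) ≤ Lc Γ n) ∧
    (∀ m n : ℕ, ∀ X ∈ Lc Γ m, ∀ Y ∈ Lc Γ n, Br X Y ∈ Lc Γ (m + n + 1))

/-- LCM (short-medium). From LBF. Proof. Induction on `n`; `n = 0` is LBF. For `Z = Br U V` with
`U` in `LL`, `V` in `Lc n`: `Bf X Y • Br U V = Br U (Bf X Y • V)` is in `Lc (n+1)`. Additivity and
continuity. -/
def LCM_stmt : Prop :=
  ∀ (p : ℕ) (R : Type) [CommRing R] [TopologicalSpace R] [IsTopologicalRing R] [CompactSpace R]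
    [T2Space R] [Invertible (2 : R)] (J : Ideal R), p.Prime → p ≠ 2 → Setup p R J →
    ∀ Γ : Subgroup (GL (Fin 2) R), Γ ≤ Sg J → ∀ n : ℕ,
      ∀ X ∈ LL Γ, ∀ Y ∈ LL Γ, ∀ Z ∈ Lc Γ n, Bf X Y • Z ∈ Lc Γ n

/-- LCT (medium). From HAV, LTR, LLE. Multiplication by the trace form raises the degree by two.
Proof. Write `n = m + 1`. It suffices (additivity, continuity) to take `Z = Br U V`, `U` in `LL`,
`V` in `Lc m`. All matrices are traceless (LTR). `≡` means modulo `Lc (n+2)`.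
(1) For `W` in `Lc n`, `X' Y'` in `LL`: by Lib_I1 `Br X' (Br Y' W) = 2 • (Bf X' Y' • W - Bf X' W • Y')`
and the left side is in `Lc (n+2)`, so (halving) `Bf X' Y' • W ≡ Bf X' W • Y'`.
Applied to `W = Br U V`: `Bf X Y • Br U V ≡ Tf X U V • Y`.
Applied to `W = Br V X` (in `Lc n` up to sign): `Bf U Y • Br V X ≡ Tf U V X • Y = Tf X U V • Y`.
(2) `Br V (Br Y (Br X U)) = 2 • (Bf V Y • Br X U - Bf V (Br X U) • Y)` is in `Lc (m + 2 + 1)`
(`Br X U` in `Lc 1`, `Br Y _` in `Lc 2`, LLE), so `Bf V Y • Br X U ≡ Tf V X U • Y = Tf X U V • Y`.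
(3) Lib_I2: `Tf X U V • Y = Bf Y X • Br U V + Bf Y U • Br V X + Bf Y V • Br X U ≡
3 • Tf X U V • Y`. So `2 • Tf X U V • Y ≡ 0`, `Tf X U V • Y ≡ 0` (halving) and
`Bf X Y • Br U V ≡ 0`. (Lib_Bf_comm, Lib_Tf_cycle.) -/
def LCT_stmt : Prop :=
  ∀ (p : ℕ) (R : Type) [CommRing R] [TopologicalSpace R] [IsTopologicalRing R] [CompactSpace R]
    [T2Space R] [Invertible (2 : R)] (J : Ideal R), p.Prime → p ≠ 2 → Setup p R J →
    ∀ Γ : Subgroup (GL (Fin 2) R), Γ ≤ Sg J → ∀ n : ℕ, 1 ≤ n →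
      ∀ X ∈ LL Γ, ∀ Y ∈ LL Γ, ∀ Z ∈ Lc Γ n, Bf X Y • Z ∈ Lc Γ (n + 2)

/-- LSM (short-medium). Proof. Let `J^n ≤ I`. By induction all entries of elements of `Lc m` are in
`J^(m+1) ⊔ I`, an ideal which is open (it contains `I`), hence closed: for `m = 0` Lib_TH_ent, and
the entries of `Br X Y` are in `J * (J^(m+1) ⊔ I) ≤ J^(m+2) ⊔ I`. Take `m = n`. -/
def LSM_stmt : Prop :=
  ∀ (p : ℕ) (R : Type) [CommRing R] [TopologicalSpace R] [IsTopologicalRing R] [CompactSpace R]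
    [T2Space R] [Invertible (2 : R)] (J : Ideal R), p.Prime → p ≠ 2 → Setup p R J →
    ∀ Γ : Subgroup (GL (Fin 2) R), Γ ≤ Sg J → ∀ I : Ideal R, IsOpen (I : Set R) →
      ∃ n : ℕ, ∀ X ∈ Lc Γ n, ∀ i j, X i j ∈ I

/-- ADM (short). From HAV, LTR, LLE, LCM: `Br` maps `Lc n × Lc n` to `Lc (2n+1) ≤ Lc n`, and
`Lc n ≤ LL`. -/
def ADM_stmt : Prop :=
  ∀ (p : ℕ) (R : Type) [CommRing R] [TopologicalSpace R] [IsTopologicalRing R] [CompactSpace R]
    [T2Space R] [Invertible (2 : R)] (J : Ideal R), p.Prime → p ≠ 2 → Setup p R J →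
    ∀ Γ : Subgroup (GL (Fin 2) R), Γ ≤ Sg J → ∀ n : ℕ, Adm J (Lc Γ n)

/-- CMN (medium). From AMU, LTR, LLE, LCM, LCT. Commutators.
Proof. Lib_TH_comm with `X = TH g`, `Y = TH h`, `Z = Br X Y` in `Lc (n+1)`, `a = ht g`,
`b = ht h`. (i) `(a b - 1) • Z = (a - 1) • (b • Z) + (b - 1) • Z` and `(a-1)`, `(b-1)` map
`Lc (n+1)` into `Lc (n+3)`: AMU with `K = Lc (n+1)`, `K' = Lc (n+3)`, since `Bf X X • W`,
`Bf Y Y • W` are in `Lc (n+3)` for `W` in `Lc (n+1)` (LCT, `Y` is in `Lc n ≤ LL`).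
(ii) `⅟2 Bf X Y • Z` is in `Lc (n+3)` (LCT). (iii) `Br Z Y` is in `Lc (n+1+n+1) ≤ Lc (n+2)`,
`Br Z X` in `Lc (n+2)`; multiplication by `a`, `b`, `⅟2` preserves `Lc (n+2)` (AMU with
`K = K'`). So `TH (g h g^-1 h^-1) - Z` is in `Lc (n+2)`. The second statement follows as
`Z` is in `Lc (n+1)`. -/
def CMN_stmt : Prop :=
  ∀ (p : ℕ) (R : Type) [CommRing R] [TopologicalSpace R] [IsTopologicalRing R] [CompactSpace R]
    [T2Space R] [Invertible (2 : R)] (J : Ideal R), p.Prime → p ≠ 2 → Setup p R J →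
    ∀ Γ : Subgroup (GL (Fin 2) R), Γ ≤ Sg J → ∀ n : ℕ,
      ∀ g ∈ Sg J, ∀ h ∈ Sg J, TH g ∈ LL Γ → TH h ∈ Lc Γ n →
        TH (g * h * g⁻¹ * h⁻¹) - Br (TH g) (TH h) ∈ Lc Γ (n + 2) ∧
        TH (g * h * g⁻¹ * h⁻¹) ∈ Lc Γ (n + 1)

/-- TDG (short-medium). The group `GL_2(R)` is compact and totally disconnected.
Proof. `R` is totally disconnected (Hausdorff with a basis of open ideals, whose cosets are open and
closed). The units of the compact Hausdorff ring `M_2(R)` are the closed subset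
`{(x,y) | x y = y x = 1}` of `M_2(R) × M_2(R)^op` (the topology of the units is induced by this
embedding). -/
def TDG_stmt : Prop :=
  ∀ (p : ℕ) (R : Type) [CommRing R] [TopologicalSpace R] [IsTopologicalRing R] [CompactSpace R]
    [T2Space R] (J : Ideal R), Setup p R J →
    CompactSpace (GL (Fin 2) R) ∧ T2Space (GL (Fin 2) R) ∧
    TotallyDisconnectedSpace (GL (Fin 2) R)

/-- DEN (medium-long). From AMU, LTR, LLE, LCT, CMN, TDG. Density.
Proof. Let `D n = {X in Lc n | there is h in Γ, TH h in Lc n, TH h - X in Lc (n+1)}`, `n ≥ 1`.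
It is an additive group: for `h1 h2` with `X_i = TH h_i`: `TH (h1 h2) = a1 X2 + a2 X1 + ⅟2 Br X1 X2`,
`(a1 - 1) • X2` is in `Lc (n+2)` (AMU with `K = Lc n`, `K' = Lc (n+2)`, LCT as `n ≥ 1`),
`Br X1 X2` in `Lc (2n+1) ≤ Lc (n+1)`; and `TH h^-1 = - TH h`. It is closed: it is the sum of the
compact set `TH (Γ ∩ {TH in Lc n})` and the compact group `Lc (n+1)`, `Γ` being closed in the
compact group `GL_2(R)`. Now show by induction on `n ≥ 1` that `D n = Lc n`; it suffices that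
`Br X Y` is in `D n` for `X` in `LL`, `Y` in `Lc (n-1)`; as `D n` is closed and additive, one may
take `X = TH g`, `g` in `Γ` (fix `Y`). `n = 1`: the same for `Y = TH h`, `h` in `Γ`; then
`k = g h g^-1 h^-1` does it by CMN (with index 0). `n ≥ 2`: by induction there is `h` in `Γ`,
`TH h` in `Lc (n-1)`, `TH h - Y` in `Lc n`; `k = g h g^-1 h^-1`: `TH k - Br X (TH h)` is in
`Lc (n+1)` (CMN), `TH k` in `Lc n`, and `Br X (TH h - Y)` is in `Lc (n+1)`. -/
def DEN_stmt : Prop :=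
  ∀ (p : ℕ) (R : Type) [CommRing R] [TopologicalSpace R] [IsTopologicalRing R] [CompactSpace R]
    [T2Space R] [Invertible (2 : R)] (J : Ideal R), p.Prime → p ≠ 2 → Setup p R J →
    ∀ Γ : Subgroup (GL (Fin 2) R), Γ ≤ Sg J → IsClosed (Γ : Set (GL (Fin 2) R)) →
      ∀ n : ℕ, 1 ≤ n → ∀ X ∈ Lc Γ n, ∃ h ∈ Γ, TH h ∈ Lc Γ n ∧ TH h - X ∈ Lc Γ (n + 1)

/-- APX (medium). From AMU, SQU, SUB, LTR, LLE, LCT, LSM, ADM, DEN. `Γ` contains the group of
`L_2`. Proof. Let `g` be in `ES J (Lc 1)`, i.e. in `Sg J` with `TH g` in `Lc 1` (SUB, ADM). Claim: for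
all `n ≥ 1` there is `γ` in `Γ` with `TH (γ^-1 g)` in `Lc n`. `n = 1`: `γ = 1`. Step: `g' = γ^-1 g`
(in `Sg J`), by DEN there is `h` in `Γ` with `TH h` in `Lc n`, `TH h - TH g'` in `Lc (n+1)`; then
`TH (h^-1 g') = ht h • TH g' - ht g' • TH h - ⅟2 • Br (TH h) (TH g')` (Lib_TH_mul, Lib_TH_inv,
Lib_ht_inv) is congruent to `TH g' - TH h`, i.e. to 0, modulo `Lc (n+1)` (AMU and LCT, LLE as in
DEN). Now let `I` be an open ideal, `n` from LSM: the entries of `TH g'` are in `I`, and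
`(ht g' - 1)(ht g' + 1) = ⅟2 Bf (TH g') (TH g')` is in `I`, `ht g' + 1 = 2 (1 + ⅟2 (ht g' - 1))` is
a unit (SQU), so `g'` and `g'^-1 = ht g' - TH g'` are 1 modulo `I`. So every neighbourhood of `g`
meets `Γ`; `Γ` is closed. -/
def APX_stmt : Prop :=
  ∀ (p : ℕ) (R : Type) [CommRing R] [TopologicalSpace R] [IsTopologicalRing R] [CompactSpace R]
    [T2Space R] [Invertible (2 : R)] (J : Ideal R), p.Prime → p ≠ 2 → Setup p R J →
    ∀ Γ : Subgroup (GL (Fin 2) R), Γ ≤ Sg J → IsClosed (Γ : Set (GL (Fin 2) R)) →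
      ES J (Lc Γ 1) ≤ Γ

/-- SOL (medium). From SUB, LTR, ADM, CMN. Proof. For `g h` in `Γ`, `TH (g h g^-1 h^-1)` is in
`Lc 1` (CMN with index 0, `Γ ≤ Sg J`), so all commutators of `Γ` are in `E = ES J (Lc 1)` (SUB,
ADM). For `g h` in `E`, Lib_TH_comm shows that `TH (g h g^-1 h^-1)` is a linear combination with
coefficients in `R` of brackets `Br A B` with `A B` in `Lc 1` (`Z = Br X Y` with `X Y` in `Lc 1`,
`Br Z Y`, `Br Z X`, and `Z` is in `Lc 1`). For `A B C D` in `Lc 1`: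
`Br (Br A B) (Br C D) = 2 • (Bf (Br A B) C • D - Bf (Br A B) D • C)
= 2 • (Tf C A B • D - Tf D A B • C) = 0` (Lib_I1, Lib_Bf_comm, hypothesis). So for two commutators
`k k'` of elements of `E`, `Br (TH k) (TH k') = 0`, hence `k k' = k' k` (Lib_decomp). So the
second derived group of `Γ` is commutative (generated by commuting elements) and the third is
trivial. -/
def SOL_stmt : Prop :=
  ∀ (p : ℕ) (R : Type) [CommRing R] [TopologicalSpace R] [IsTopologicalRing R] [CompactSpace R]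
    [T2Space R] [Invertible (2 : R)] (J : Ideal R), p.Prime → p ≠ 2 → Setup p R J →
    ∀ Γ : Subgroup (GL (Fin 2) R), Γ ≤ Sg J →
      (∀ X ∈ Lc Γ 1, ∀ Y ∈ Lc Γ 1, ∀ Z ∈ Lc Γ 1, ∀ W ∈ Lc Γ 1, Tf X Y Z • W = 0) →
      derivedSeries Γ 3 = ⊥

end Pool.Agent.PP2
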