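import Pool.Agent.helper96.PP2.SpecA
import Pool.Agent.helper96.PP2.SpecB

/-!
# Rows pg:, blocks D (finite generation, uniform subgroups) and F (reduction to the congruence group)

Same conventions as in SpecB. Every docstring contains the complete proof; other rows only as
hypotheses.
-/

namespace Pool.Agent.PP2

open Topology Matrix

/-! ## Block D -/

/-- HCL (short). From CLS, ISO, TDG. Proof. `K` is a closed subgroup of the compact totally
disconnected group `Γ` (closed in `GL_2(R)`), namely `K.subgroupOf Γ`, which is isomorphic to `K` as a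
topological group. -/
def HCL_stmt : Prop :=
  ∀ (p : ℕ) (R : Type) [CommRing R] [TopologicalSpace R] [IsTopologicalRing R] [CompactSpace R]
    [T2Space R] (J : Ideal R), p.Prime → Setup p R J →
    ∀ Γ K : Subgroup (GL (Fin 2) R), IsClosed (Γ : Set (GL (Fin 2) R)) →
      IsClosed (K : Set (GL (Fin 2) R)) → K ≤ Γ → H3Zero p Γ → H3Zero p K

/-- IDX (medium). From HAV, SQU, EXI, AMU, SUB. Ideals and cosets.
Proof. Let `X = TH g`, `Y = TH h`, `a = ht g`, `b = ht h`, and let `S` be the set of `s` with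
`s • N' ≤ N'`, a closed additive group closed under multiplication, containing 1 and ⅟2. By AMU
(`K = K' = N'`, hypothesis by `b2`) `a - 1`, `b - 1` are in `S`.
(⇐) Let `W = Y - X` be in `N'`. `TH (g^-1 h) = a • Y - b • X - ⅟2 • Br X Y
= a • W + (a - b) • X - ⅟2 • Br X W`. The first and third terms are in `N'`. By Lib_ht_sq
`(b - a)(b + a) = ⅟2 (Bf Y Y - Bf X X) = ⅟2 Bf W (X + Y)`; `b + a = 2 (1 + j)`,
`j = ⅟2 ((a-1) + (b-1))` in `J` and in `S`, so by SQU `(1 + j)^-1 = 1 + y`, `y` in `S`, and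
`(a - b) • X = -⅟2 ⅟2 (1 + y) • (Bf W (X + Y) • X)` is in `N'` by `b1`.
(⇒) Let `k = g^-1 h` be in `ES J N'`, `W' = TH k` in `N'`, `h = g k`:
`Y - X = a • W' + (ht k - 1) • X + ⅟2 • Br X W'`, and `(ht k - 1) * 2 (1 + ⅟2 (ht k - 1)) =
⅟2 Bf W' W'` (Lib_ht_sq), with `ht k - 1` in `S`, so as before `(ht k - 1) • X` is in `N'` by `b1`.
(Index) The map `g -> TH g` from `ES J N` to `N` is onto (EXI, SUB), and by the first part it induces
a bijection of the left cosets of `ES J N'` in `ES J N` with the cosets of `N'` in `N`.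
(Normality) `TH (g h g^-1) = (a + X) W (a - X)` with `W = TH h`, `= a^2 • W + a • Br X W - X W X`,
and `X W X = X (- X W + Bf W X) = - q • W + Bf W X • X`, `q = ⅟2 Bf X X` (Lib_anti, Lib_sq). All
terms are in `N'` (`a` preserves `N'`, `br`, `b2`, `b1`). -/
def IDX_stmt : Prop :=
  ∀ (p : ℕ) (R : Type) [CommRing R] [TopologicalSpace R] [IsTopologicalRing R] [CompactSpace R]
    [T2Space R] [Invertible (2 : R)] (J : Ideal R), p.Prime → p ≠ 2 → Setup p R J →
    ∀ N' N : AddSubgroup (M2 R), IdP J N' N →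
      (∀ g ∈ ES J N, ∀ h ∈ ES J N, (g⁻¹ * h ∈ ES J N' ↔ TH h - TH g ∈ N')) ∧
      (ES J N').relIndex (ES J N) = N'.relIndex N ∧
      (∀ g ∈ ES J N, ∀ h ∈ ES J N', g * h * g⁻¹ ∈ ES J N')

/-- CTM (short-medium). From HAV, LCM. Proof. The set of `c` with `c • Lc n ≤ Lc n` for all `n` is a
closed subring containing the values of the form (LCM), so it contains `Ct Γ`. The other statements:
`Ct Γ` is a closed subring, so it is an additive closed group containing 1, and HAV. -/
def CTM_stmt : Prop :=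
  ∀ (p : ℕ) (R : Type) [CommRing R] [TopologicalSpace R] [IsTopologicalRing R] [CompactSpace R]
    [T2Space R] [Invertible (2 : R)] (J : Ideal R), p.Prime → p ≠ 2 → Setup p R J →
    ∀ Γ : Subgroup (GL (Fin 2) R), Γ ≤ Sg J →
      IsClosed (Ct Γ : Set R) ∧ (∀ X ∈ LL Γ, ∀ Y ∈ LL Γ, Bf X Y ∈ Ct Γ) ∧
      ∀ c ∈ Ct Γ, ∀ n : ℕ, ∀ X ∈ Lc Γ n, c • X ∈ Lc Γ n

/-- MOX (short-medium). From HAV. Proof. `CX C X` is the image of the compact set `C`, so closed; it
is closed under halving (HAV); `Br (c X) (d X) = 0`; `Bf (c X) (d X) • (e X) = (c d e Bf X X) • X`. -/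
def MOX_stmt : Prop :=
  ∀ (p : ℕ) (R : Type) [CommRing R] [TopologicalSpace R] [IsTopologicalRing R] [CompactSpace R]
    [T2Space R] [Invertible (2 : R)] (J : Ideal R), p.Prime → p ≠ 2 → Setup p R J →
    ∀ (C : Subring R) (X : M2 R), IsClosed (C : Set R) → Matrix.trace X = 0 →
      (∀ i j, X i j ∈ J) → Bf X X ∈ C → Adm J (CX C X)

/-- PID (short-medium). From HAV, MOX. Proof. `N = CX C X`, `q = ⅟2 Bf X X` is in `C` (HAV).
`N' = p N + q^m N` is the sum of two compact groups, so closed; it is a `C`-submodule of `N`, all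
brackets of elements of `N` vanish, and for `W U V` in `N`, `W = w X`, `U = u X`, `V = v X`:
`Bf W U • V = (u v Bf X X) • W` is in `C • W`, which gives `b1`; `b2` and `bf` since
`Bf U V` is in `C`. -/
def PID_stmt : Prop :=
  ∀ (p : ℕ) (R : Type) [CommRing R] [TopologicalSpace R] [IsTopologicalRing R] [CompactSpace R]
    [T2Space R] [Invertible (2 : R)] (J : Ideal R), p.Prime → p ≠ 2 → Setup p R J →
    ∀ (C : Subring R) (X : M2 R), IsClosed (C : Set R) → Matrix.trace X = 0 →
      (∀ i j, X i j ∈ J) → Bf X X ∈ C →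
      IdP J ⊥ (CX C X) ∧
      ∀ m : ℕ, IdP J (sN (p : R) (CX C X) ⊔ sN ((⅟(2 : R) * Bf X X) ^ m) (CX C X)) (CX C X)

/-- POW (medium). From HAV, SQR, SQU, SUB, MOX. Powers modulo `p`.
Proof. Let `g` be in `ES J N`, `N = CX C X`: `TH g = c X`, `c` in `C` (SUB, MOX), and
`a = ht g`: `a - 1` is the element of SQR for `u = ⅟2 Bf (c X) (c X)` in `C` (uniqueness SQU,
Lib_ht_sq), so `a` is in `C` (SQR with `S = C`). The set `𝒞 = {α + β X | α β in C}` is a commutative
subring of the matrix ring, as `X X = q`, `q = ⅟2 Bf X X` in `C` (Lib_sq). In it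
`(a + c X)^(p^n) = a^(p^n) + (c X)^(p^n) + p r`, `r = α + β X` in `𝒞`
(exists_add_pow_prime_pow_eq for the commutative ring `𝒞`), and `p^n = 2 m + 1`,
`(c X)^(p^n) = c^(p^n) q^m X`. Taking traceless parts
`TH (g^(p^n)) = q^m • (c^(p^n) X) + p • (β X)`. -/
def POW_stmt : Prop :=
  ∀ (p : ℕ) (R : Type) [CommRing R] [TopologicalSpace R] [IsTopologicalRing R] [CompactSpace R]
    [T2Space R] [Invertible (2 : R)] (J : Ideal R), p.Prime → p ≠ 2 → Setup p R J →
    ∀ (C : Subring R) (X : M2 R), IsClosed (C : Set R) → Matrix.trace X = 0 →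
      (∀ i j, X i j ∈ J) → Bf X X ∈ C → ∀ g ∈ ES J (CX C X), ∀ n : ℕ,
        TH (g ^ (p ^ n)) ∈
          sN (p : R) (CX C X) ⊔ sN ((⅟(2 : R) * Bf X X) ^ ((p ^ n - 1) / 2)) (CX C X)

/-- FIT (medium). Pure algebra and topology.
Proof. Let `N_j = p N + q^j N`; `N_0 = N`, decreasing as `q N ≤ N`, `N_j / N_(j+1)` is killed by `p`.
Take `n = 3`, `m = (p^3-1)/2 ≥ 13`: `[N : N_m] ≤ p^6` and is not 0. If all `N_j / N_(j+1)`, `j < m`,
were nonzero, their orders would be powers of `p`, at least `p`, and `[N : N_m] ≥ p^13`. So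
`N_j = N_(j+1)` for some `j < m`, i.e. `q^j N ≤ p N + q^(j+1) N`; multiplying by `q` one gets
`q^j N ≤ p N + q^(j+i) N` for all `i`. As `q^i -> 0` (`q` is in `J`) and `p N` is closed (compact),
`q^j N ≤ p N` (an element of `q^j N` is `p a_i + q^(j+i) b_i`; the entries of the second term are
in any given open ideal for large `i`). So `N_j = p N`, and it has finite index since it contains
`N_m`. -/
def FIT_stmt : Prop :=
  ∀ (p : ℕ) (R : Type) [CommRing R] [TopologicalSpace R] [IsTopologicalRing R] [CompactSpace R]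
    [T2Space R] (J : Ideal R), p.Prime → p ≠ 2 → Setup p R J →
    ∀ (N : AddSubgroup (M2 R)) (q : R), IsClosed (N : Set (M2 R)) → q ∈ J →
      (∀ X ∈ N, q • X ∈ N) →
      (∀ n : ℕ, (sN (p : R) N ⊔ sN (q ^ ((p ^ n - 1) / 2)) N).relIndex N ≠ 0 ∧
        (sN (p : R) N ⊔ sN (q ^ ((p ^ n - 1) / 2)) N).relIndex N ≤ p ^ (2 * n)) →
      (sN (p : R) N).relIndex N ≠ 0

/-- AFI (medium). From ABI, SUB, IDX, MOX, PID, POW, FIT, TDG.
Proof. `N = CX C X`, `A = ES J N`, closed in `GL_2(R)` (SUB, MOX), so a profinite group (TDG); it is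
commutative (elements `a + c X` commute). For `n` let `N' = p N + q^m N`, `m = (p^n - 1)/2`,
`q = ⅟2 Bf X X`; `B = (ES J N').subgroupOf A` is closed (SUB, PID: `Adm J N'`) and contains all
`a^(p^n)` (POW, SUB). By ABI the index of `B` in `A`, which is `N'.relIndex N` (IDX), is not 0 and at
most `p^(2n)`. Apply FIT (`q` is in `J`, and `q N ≤ N` as `q` is in `C`). -/
def AFI_stmt : Prop :=
  ∀ (p : ℕ) (R : Type) [CommRing R] [TopologicalSpace R] [IsTopologicalRing R] [CompactSpace R]
    [T2Space R] [Invertible (2 : R)] (J : Ideal R), p.Prime → p ≠ 2 → Setup p R J →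
    ∀ (C : Subring R) (X : M2 R), IsClosed (C : Set R) → Matrix.trace X = 0 →
      (∀ i j, X i j ∈ J) → Bf X X ∈ C → H3Zero p (ES J (CX C X)) →
      (sN (p : R) (CX C X)).relIndex (CX C X) ≠ 0

/-- TFL (medium). From TOR, SUB, LTR, ADM, EXI, APX, HCL, IDX, CTM, MOX, PID, AFI, TDG.
`L_2` has no `p`-torsion. Proof. Let `X` be in `Lc 1`, `p • X = 0`, `N = CX (Ct Γ) X ≤ Lc 1` (CTM).
`A = ES J N ≤ ES J (Lc 1) ≤ Γ` (APX), closed (SUB), so `H3Zero p A` (HCL); by AFI `p N`, which is 0,
has finite index in `N`, so `N` is finite, and `p N = 0` so `|N|` is a power of `p`. IDX with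
`N' = ⊥` (PID; `ES J ⊥ = ⊥` by SUB and uniqueness in EXI) gives `|A| = |N|`. If `X ≠ 0` then
`p` divides `|A|` and `A` has an element of order `p` (Cauchy), against TOR for the profinite group
`A`. -/
def TFL_stmt : Prop :=
  ∀ (p : ℕ) (R : Type) [CommRing R] [TopologicalSpace R] [IsTopologicalRing R] [CompactSpace R]
    [T2Space R] [Invertible (2 : R)] (J : Ideal R), p.Prime → p ≠ 2 → Setup p R J →
    ∀ Γ : Subgroup (GL (Fin 2) R), Γ ≤ Sg J → IsClosed (Γ : Set (GL (Fin 2) R)) → H3Zero p Γ →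
      ∀ X ∈ Lc Γ 1, (p : R) • X = 0 → X = 0

/-- VAD (medium). From HAV, SUB, LTR, LLE, ADM, APX, HCL, CTM, MOX, AFI.
Proof. `C = Ct Γ`, `w1 = Br Y Z`, `w2 = Br Z X`, `w3 = Br X Y` in `Lc 1`, `V = C w1 + C w2 + C w3`, a
sum of compact groups contained in `Lc 1` (CTM), a `C`-module. `Bf U W` is in `C` for `U W` in `V`, so
`bf`, and `half` by HAV. Brackets: by Lib_I1 `Br (Br Y Z) (Br Z X) =
2 • (Bf (Br Y Z) Z • X - Bf (Br Y Z) X • Z) = - (2 Tf X Y Z) • Z`, as `Bf (Br Y Z) Z = Tf Z Y Z = 0`;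
and `Tf X Y Z • Z = Bf Z X • w1 + Bf Z Y • w2 + Bf Z Z • w3` is in `V` (Lib_I2). Similarly (cyclic
permutation) for the other pairs; extend by `C`-bilinearity. Finite index: `CX C w_i` is admissible
(MOX), `ES J (CX C w_i)` is closed and contained in `ES J (Lc 1) ≤ Γ`, so it has vanishing `H^3` (HCL)
and `p CX C w_i` has finite index in `CX C w_i` (AFI); the sum map from the product of the three
groups is onto `V` and maps `p` times to `p V`. -/
def VAD_stmt : Prop :=
  ∀ (p : ℕ) (R : Type) [CommRing R] [TopologicalSpace R] [IsTopologicalRing R] [CompactSpace R]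
    [T2Space R] [Invertible (2 : R)] (J : Ideal R), p.Prime → p ≠ 2 → Setup p R J →
    ∀ Γ : Subgroup (GL (Fin 2) R), Γ ≤ Sg J → IsClosed (Γ : Set (GL (Fin 2) R)) → H3Zero p Γ →
      ∀ X ∈ Lc Γ 1, ∀ Y ∈ Lc Γ 1, ∀ Z ∈ Lc Γ 1,
        ∃ V : AddSubgroup (M2 R), Adm J V ∧ V ≤ Lc Γ 1 ∧ Br Y Z ∈ V ∧ Br Z X ∈ V ∧ Br X Y ∈ V ∧
          (sN (p : R) V).relIndex V ≠ 0

/-- RNK (medium-long). Pure algebra.
Proof. `V / p V` is finite and killed by `p`, of order `p^d`. As `V` has no `p`-torsion,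
multiplication by `p^i` induces `V / p V = p^i V / p^(i+1) V`, so `[V : p^m V] = p^(d m)`.
Suppose `d ≤ 2`. Let `w1 = Br Y Z`, `w2 = Br Z X`, `w3 = Br X Y`, `T = Tf X Y Z`. Let `n ≥ 2`,
`m = (3n-1)/2` (integer division), so `2 m < 3 n` and `m ≥ n`. The `p^(3n)` elements
`i w1 + j w2 + k w3`, `0 ≤ i j k < p^n`, cannot be all different modulo `p^m V`; a difference gives
integers `(i,j,k) ≠ 0`, of absolute value less than `p^n`, with `i w1 + j w2 + k w3` in `p^m V`. Let
`p^v` be the exact power of `p` dividing all of `i j k`, `v < n`; dividing (no torsion):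
`i' w1 + j' w2 + k' w3` in `p^(m-v) V`, one of `i' j' k'` prime to `p`. Pair with `X`, `Y`, `Z`:
`Bf X w1 = T`, `Bf X w2 = Bf X w3 = 0`, `Bf Y w2 = T`, `Bf Y w1 = Bf Y w3 = 0`, `Bf Z w3 = T`,
`Bf Z w1 = Bf Z w2 = 0` (Lib_Tf_cycle, Lib_Tf_swap, Lib_Tf_self). So `i' T`, `j' T`, `k' T` are in
`p^(m-v) R ≤ p^(m-n) R`; an integer prime to `p` is a unit of `R` (`x i' = 1 - y p`, and `1 - y p`
is a unit: SQU, `p` in `J`), so `T` is in `p^(m-n) R` and, `m - n` being unbounded, in every open ideal: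
`T = 0`. Contradiction, so `d ≥ 3`. -/
def RNK_stmt : Prop :=
  ∀ (p : ℕ) (R : Type) [CommRing R] [TopologicalSpace R] [IsTopologicalRing R] [CompactSpace R]
    [T2Space R] [Invertible (2 : R)] (J : Ideal R), p.Prime → p ≠ 2 → Setup p R J →
    ∀ (V : AddSubgroup (M2 R)) (X Y Z : M2 R), Br Y Z ∈ V → Br Z X ∈ V → Br X Y ∈ V →
      (∀ W ∈ V, (p : R) • W = 0 → W = 0) → (sN (p : R) V).relIndex V ≠ 0 → Tf X Y Z ≠ 0 →
      ∃ d : ℕ, 3 ≤ d ∧ (sN (p : R) V).relIndex V = p ^ d

/-- PMV (short-medium). From HAV. Proof. `p^m V` is compact, so closed; the other properties by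
bilinearity: with `W = p^m' w`, `U = p^m u`, `V' = p^m v`: `Br W U = p^(m') p^m Br w u`,
`Bf W U • V' = p^(m') p^(2m) Bf w u • v`, etc. -/
def PMV_stmt : Prop :=
  ∀ (p : ℕ) (R : Type) [CommRing R] [TopologicalSpace R] [IsTopologicalRing R] [CompactSpace R]
    [T2Space R] [Invertible (2 : R)] (J : Ideal R), p.Prime → p ≠ 2 → Setup p R J →
    ∀ V : AddSubgroup (M2 R), Adm J V → ∀ m m' : ℕ, m ≤ m' →
      Adm J (sN ((p : R) ^ m) V) ∧ IdP J (sN ((p : R) ^ m') V) (sN ((p : R) ^ m) V)

/-- PWT (medium). From HAV, SQR, SQU. The `p`-th power.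
Proof. Let `S_V = {s | s • V ≤ V}`, a closed subring, `q' = ⅟2 Bf X' X'` in `S_V`, `X = TH g = p^m X'`,
`q = p^(2m) q'`, `X X = q` (Lib_sq). The set `q S_V` is a closed (compact) additive group, closed under
multiplication, containing `q`, so `a = ht g` satisfies `a - 1` in `q S_V` (SQR, SQU, Lib_ht_sq). By
induction on `k`: `g^k = P_k + Q_k X`, `P_k` in `1 + q S_V`, `Q_k` in `k + q S_V`, with
`P_(k+1) = a P_k + q Q_k`, `Q_(k+1) = P_k + a Q_k`. For `k = p`, `Q_p = p + q s`, and
`TH (g^p) = Q_p • X = (p + p^(2m) q' s) p^m • X' = p^(m+1) (1 + p t) • X'` with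
`t = p^(2m-2) q' s` in `S_V` (`m ≥ 1`). -/
def PWT_stmt : Prop :=
  ∀ (p : ℕ) (R : Type) [CommRing R] [TopologicalSpace R] [IsTopologicalRing R] [CompactSpace R]
    [T2Space R] [Invertible (2 : R)] (J : Ideal R), p.Prime → p ≠ 2 → Setup p R J →
    ∀ V : AddSubgroup (M2 R), Adm J V → ∀ m : ℕ, 1 ≤ m → ∀ g ∈ Sg J, ∀ X' ∈ V,
      TH g = (p : R) ^ m • X' →
      ∃ t : R, (∀ W ∈ V, t • W ∈ V) ∧
        TH (g ^ p) = ((p : R) ^ (m + 1) * (1 + (p : R) * t)) • X'

/-- UPI (medium). From SQU, EXI, SUB, PMV, PWT. Powers: image and injectivity.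
Proof. First statement: PWT, as `(1 + p t) • X'` is in `V`. Injectivity: let `TH g = p^m X'`,
`TH h = p^m Y'`, `g^p = h^p`. By PWT and the absence of torsion
`(1 + p t) • X' = (1 + p t') • Y'`. `1 + p t'` is a unit (SQU), so `Y'` is a multiple of `X'`,
`g` and `h` commute (Lib_decomp), `k = g^-1 h` is in `ES J (p^m V)`, `k^p = 1`, `TH k = p^m W'`,
`0 = TH (k^p) = p^(m+1) (1 + p t'') • W'`, so `(1 + p t'') • W' = 0`, `W' = 0`, `TH k = 0`, and
`k = 1` by EXI. -/
def UPI_stmt : Prop :=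
  ∀ (p : ℕ) (R : Type) [CommRing R] [TopologicalSpace R] [IsTopologicalRing R] [CompactSpace R]
    [T2Space R] [Invertible (2 : R)] (J : Ideal R), p.Prime → p ≠ 2 → Setup p R J →
    ∀ V : AddSubgroup (M2 R), Adm J V → (∀ W ∈ V, (p : R) • W = 0 → W = 0) →
      ∀ m : ℕ, 1 ≤ m →
        (∀ g ∈ ES J (sN ((p : R) ^ m) V), g ^ p ∈ ES J (sN ((p : R) ^ (m + 1)) V)) ∧
        (∀ g ∈ ES J (sN ((p : R) ^ m) V), ∀ h ∈ ES J (sN ((p : R) ^ m) V), g ^ p = h ^ p → g = h)

/-- URT (medium-long). From HAV, EXI, SUB, IDX, MOX, PMV, PWT, UBA, TDG. Roots.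
Proof. Let `TH h = p^(m+1) Y'`, `Y'` in `V`, `S = {s | s • V ≤ V}`, a closed subring containing
`Bf Y' Y'`, and `V0 = CX S Y' ≤ V`: admissible (MOX), and all elements of `ES J V0` commute with each
other. `N_j = p^j V0`. Claim: for `j ≥ m` and `h'` in `ES J N_(j+1)` there is `g'` in `ES J N_j` with
`(g'^p)^-1 h'` in `ES J N_(j+2)`: if `TH h' = p^(j+1) s Y'` take `g'` in `Sg J` with
`TH g' = p^j s Y'` (EXI), by PWT for `V0`: `TH (g'^p) = p^(j+1) (1 + p t) • (s Y')`, so
`TH h' - TH (g'^p)` is in `p^(j+2) V0` and IDX (with PMV) gives the claim. Starting with `h`, choose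
inductively `g_j` in `ES J N_j`, and let `G_n = g_m g_(m+1) ... g_(m+n)`; then
`(G_n^p)^-1 h` is in `ES J N_(m+n+2)`, which tends to 1 (UBA for `V0`). All `G_n` are in the compact
group `ES J N_m`; let `G` be a cluster point: `G^p = h` (the map `x -> (x^p)^-1 h` is continuous, the
sequence of its values at `G_n` tends to 1), and `ES J N_m ≤ ES J (p^m V)`. -/
def URT_stmt : Prop :=
  ∀ (p : ℕ) (R : Type) [CommRing R] [TopologicalSpace R] [IsTopologicalRing R] [CompactSpace R]
    [T2Space R] [Invertible (2 : R)] (J : Ideal R), p.Prime → p ≠ 2 → Setup p R J →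
    ∀ V : AddSubgroup (M2 R), Adm J V → ∀ m : ℕ, 1 ≤ m →
      ∀ h ∈ ES J (sN ((p : R) ^ (m + 1)) V), ∃ g ∈ ES J (sN ((p : R) ^ m) V), g ^ p = h

/-- UBA (short-medium). From SQU, SUB, PMV. Proof. Given a neighbourhood `U` of 1 there is an open
ideal `I` such that `U` contains all `g` with `g` and `g^-1` congruent to 1 modulo `I`. Choose `m`
with `p^m` in `I` (`p` in `J`, `J^m ≤ I`). For `g` in `ES J (p^m V)` the entries of `TH g` are in `I`,
`(ht g - 1)(ht g + 1) = ⅟2 Bf (TH g) (TH g)` is in `I`, and `ht g + 1 = 2 (1 + ⅟2 (ht g - 1))` is a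
unit (SQU), so `ht g - 1` is in `I`; and `g^-1 = ht g - TH g`. -/
def UBA_stmt : Prop :=
  ∀ (p : ℕ) (R : Type) [CommRing R] [TopologicalSpace R] [IsTopologicalRing R] [CompactSpace R]
    [T2Space R] [Invertible (2 : R)] (J : Ideal R), p.Prime → p ≠ 2 → Setup p R J →
    ∀ V : AddSubgroup (M2 R), Adm J V → ∀ U ∈ 𝓝 (1 : GL (Fin 2) R),
      ∃ m : ℕ, (ES J (sN ((p : R) ^ m) V) : Set (GL (Fin 2) R)) ⊆ U

/-- UCO (short-medium). From AMU, SUB, PMV. Commutators. Proof. Lib_TH_comm with `X = p^(2+j) x`,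
`Y = p^(2+j) y`: `Z = Br X Y = p^(4+2j) Br x y`, and all terms are in
`K = p^(4+2j) V ≤ p^(2+(j+2)) V` (multiplication by `ht g`, `ht h` preserves `K`: AMU with
`K = K'`). -/
def UCO_stmt : Prop :=
  ∀ (p : ℕ) (R : Type) [CommRing R] [TopologicalSpace R] [IsTopologicalRing R] [CompactSpace R]
    [T2Space R] [Invertible (2 : R)] (J : Ideal R), p.Prime → p ≠ 2 → Setup p R J →
    ∀ V : AddSubgroup (M2 R), Adm J V → ∀ j : ℕ,
      ∀ g ∈ ES J (sN ((p : R) ^ (2 + j)) V), ∀ h ∈ ES J (sN ((p : R) ^ (2 + j)) V),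
        g * h * g⁻¹ * h⁻¹ ∈ ES J (sN ((p : R) ^ (2 + (j + 2))) V)

/-- UNF (medium). From SUB, IDX, PMV, UPI, URT, UBA, UCO. Assembly.
Proof. `U = ES J (p^2 V)`, `F j = (ES J (p^(2+j) V)).subgroupOf U`. `top`: `j = 0`. `anti`: PMV. `nor`:
IDX. `com`: UCO. `pow`, `inj`: UPI. `root`: URT. `basis`: UBA. Index: by IDX
`[ES(p^(2+j) V) : ES(p^(2+j+1) V)] = [p^(2+j) V : p^(2+j+1) V] = [V : p V] = p^d` (no torsion);
`op`: `F j` is closed (SUB) of finite index, so open in `U`. -/
def UNF_stmt : Prop :=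
  ∀ (p : ℕ) (R : Type) [CommRing R] [TopologicalSpace R] [IsTopologicalRing R] [CompactSpace R]
    [T2Space R] [Invertible (2 : R)] (J : Ideal R), p.Prime → p ≠ 2 → Setup p R J →
    ∀ (V : AddSubgroup (M2 R)) (d : ℕ), Adm J V → (∀ W ∈ V, (p : R) • W = 0 → W = 0) →
      (sN (p : R) V).relIndex V = p ^ d →
      Unif p (ES J (sN ((p : R) ^ 2) V))
        (fun j => (ES J (sN ((p : R) ^ (2 + j)) V)).subgroupOf (ES J (sN ((p : R) ^ 2) V))) ∧
      ((ES J (sN ((p : R) ^ (2 + 1)) V)).subgroupOf (ES J (sN ((p : R) ^ 2) V))).index = p ^ d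

/-- MTH (short-medium). From FNB, SUB, ADM, APX, SOL, TDG, HCL, TFL, VAD, RNK, PMV, UNF. Main theorem for
closed subgroups of the congruence group. Proof. If `Tf X Y Z • W = 0` for all `X Y Z W` in `Lc 1`,
use SOL. Otherwise `Tf X Y Z ≠ 0` for some `X Y Z` in `Lc 1`; take `V` from VAD; it has no
`p`-torsion (TFL); `[V : p V] = p^d` with `d ≥ 3` (RNK); `U = ES J (p^2 V)` is closed and contained in
`ES J (Lc 1) ≤ Γ` (APX), so `H3Zero p U` (HCL), against UNF and FNB. -/
def MTH_stmt : Prop :=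
  ∀ (p : ℕ) (R : Type) [CommRing R] [TopologicalSpace R] [IsTopologicalRing R] [CompactSpace R]
    [T2Space R] [Invertible (2 : R)] (J : Ideal R), p.Prime → p ≠ 2 → Setup p R J →
    ∀ Γ : Subgroup (GL (Fin 2) R), Γ ≤ Sg J → IsClosed (Γ : Set (GL (Fin 2) R)) → H3Zero p Γ →
      derivedSeries Γ 3 = ⊥

/-! ## Block F -/

/-- IDL (medium). Open ideals form a basis of neighbourhoods of zero in a profinite commutative ring.
Proof. Let `U` be a neighbourhood of 0. The additive group of `R` is profinite, so `U` contains an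
open additive subgroup `V`. `I = {x | r x in V for all r in R}` is an ideal contained in `V`. It is
open: the set `{(r,x) | r x in V}` is open and contains `R × {0}`, so by the tube lemma it contains
`R × W` for a neighbourhood `W` of 0; `W ≤ I`. -/
def IDL_stmt : Prop :=
  ∀ (R : Type) [CommRing R] [TopologicalSpace R] [IsTopologicalRing R] [CompactSpace R]
    [T2Space R] [TotallyDisconnectedSpace R],
    ∀ U ∈ 𝓝 (0 : R), ∃ I : Ideal R, IsOpen (I : Set R) ∧ (I : Set R) ⊆ U

/-- JNI (medium). The ideal of topologically nilpotent elements.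
Proof. `J = {x | for every open ideal I some power of x is in I}` is an ideal; it is closed: if `x` is
in the closure and `I` is open, there is `y` in `J` with `x - y` in `I`, so `x^n - y^n` is in `I`.
For an open ideal `I` the ring `R / I` is finite (`R` compact), the image of `J` is an ideal of
nilpotent elements, finitely generated, so nilpotent: `J^n ≤ I`. -/
def JNI_stmt : Prop :=
  ∀ (R : Type) [CommRing R] [TopologicalSpace R] [IsTopologicalRing R] [CompactSpace R]
    [T2Space R],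
    ∃ J : Ideal R, (∀ x : R, x ∈ J ↔ ∀ I : Ideal R, IsOpen (I : Set R) → ∃ n : ℕ, x ^ n ∈ I) ∧
      IsClosed (J : Set R) ∧ ∀ I : Ideal R, IsOpen (I : Set R) → ∃ n : ℕ, J ^ n ≤ I

/-- ABP (medium). Finite `p`-subgroups of `GL_2` of a field are commutative, `p` odd.
Proof. Let `P` be a finite `p`-group in `GL_2(k)`, not commutative. The commutator subgroup `P'` is a
nontrivial normal subgroup of `P`; `P` acts on it by conjugation, so the number of fixed points is
divisible by `p` and there is `x ≠ 1` in `P'` central in `P`. `det x = 1`. `x` is not a scalar: if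
`x = c` then `c^2 = 1` and `c^(p^r) = 1`, `p` odd, so `c = 1`. The centraliser in `M_2(k)` of a
matrix `x` which is not a scalar is `{a + b x}`, which is commutative (over any field: there is a
vector `v` with `v, x v` independent, and a matrix commuting with `x` is determined by its value
`a v + b x v` at `v`). `P` is contained in it. -/
def ABP_stmt : Prop :=
  ∀ (p : ℕ) (k : Type) [Field k] (P : Subgroup (GL (Fin 2) k)),
    p.Prime → p ≠ 2 → Finite P → IsPGroup p P → ∀ x ∈ P, ∀ y ∈ P, x * y = y * x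

/-- GCJ (medium). From ABP. Proof. Let `c = g h g^-1 h^-1`, `x` an entry of `ρ c - 1`, `I` an open
ideal. For each maximal ideal `m` containing `I` the map `G -> GL_2(R/m)` has open kernel (`m` is open)
so, `G` being pro-p, its image is a finite `p`-group (its order is the index of an open normal
subgroup), hence commutative (ABP) and `ρ c` is 1 modulo `m`. So `x` is in all maximal ideals
containing `I`, and its image in the finite ring `R / I` is nilpotent (Jacobson radical of an Artinian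
ring). So `x` is in `J`; `det ρ c = 1` since `R` is commutative; use Lib_mem_Sg. -/
def GCJ_stmt : Prop :=
  ∀ (p : ℕ) (R : Type) [CommRing R] [TopologicalSpace R] [IsTopologicalRing R] [CompactSpace R]
    [T2Space R] (J : Ideal R) (G : Type) [Group G] [TopologicalSpace G] [IsTopologicalGroup G]
    (ρ : G →* GL (Fin 2) R), p.Prime → p ≠ 2 →
    (∀ x : R, x ∈ J ↔ ∀ I : Ideal R, IsOpen (I : Set R) → ∃ n : ℕ, x ^ n ∈ I) →
    ProP p G → Continuous ρ → ∀ g h : G, ρ (g * h * g⁻¹ * h⁻¹) ∈ Sg J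

/-- PRM (medium). Elements congruent to 1 modulo the part of `R` where `p` is invertible.
Proof. `J` as in JNI, `I0 = ⨅ n, (p^n)`. Let `I` be an open ideal, `A = R / I`, finite, `Jb` the image
of `J`, nilpotent. `X`, the image of `g - 1`, is a matrix over `A` with entries in `Jb` and in
`F = ⨅ n, p^n A`; multiplication by `p` on the finite ideal `F` is bijective
(`p^n A` stabilises at `F`, so `p F = F`). Choose `n` with `g^(p^n) = 1` modulo `I`, `P = p^n`:
`0 = (1 + X)^P - 1 = P X + X^2 (...)` with a polynomial in `X` with integer coefficients. If the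
entries of `X` are in `Jb^k ∩ F` (`k ≥ 1`) then those of `P X` are in `Jb^(k+1) ∩ F`; let `e` be an
integer with `e P y = y` for all `y` in `F` (some power of the bijection `y -> P y` of the finite
set `F` is the identity, `P^i y = y`, `i ≥ 1`, take `e = P^(i-1)`), so `X = e (P X)` has entries in
`Jb^(k+1)`. So `X = 0` for every `I`, and `g = 1` (the open ideals form a basis, `R` Hausdorff). -/
def PRM_stmt : Prop :=
  ∀ (p : ℕ) (R : Type) [CommRing R] [TopologicalSpace R] [IsTopologicalRing R] [CompactSpace R]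
    [T2Space R] (J : Ideal R), p.Prime →
    (∀ U ∈ 𝓝 (0 : R), ∃ I : Ideal R, IsOpen (I : Set R) ∧ (I : Set R) ⊆ U) →
    (∀ I : Ideal R, IsOpen (I : Set R) → ∃ n : ℕ, J ^ n ≤ I) →
    ∀ g : GL (Fin 2) R, g ∈ Sg J →
      (∀ (n : ℕ) (i j : Fin 2), ((g : M2 R) - 1) i j ∈ Ideal.span {(p : R) ^ n}) →
      (∀ I : Ideal R, IsOpen (I : Set R) → ∃ n : ℕ, ∀ i j : Fin 2,
        (((g ^ (p ^ n) : GL (Fin 2) R) : M2 R) - 1) i j ∈ I) →
      g = 1

/-- QTR (medium). The quotient of `R` in which `p` is topologically nilpotent.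
Proof. `I0 = ⨅ n, (p^n)` is closed (each `p^n R` is the image of a compact set). `S = R / I0` with the
quotient topology is a compact Hausdorff topological ring, `π` is continuous and open, the images of
the open ideals of `R` are open ideals of `S` and form a basis at 0. If `I` is an open ideal of `S`,
its preimage `I'` is open and contains the intersection `I0` of the decreasing closed sets `p^n R`, so
by compactness `p^n R ≤ I'` for some `n`, and `p^n` is in `I`. -/
def QTR_stmt : Prop :=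
  ∀ (p : ℕ) (R : Type) [CommRing R] [TopologicalSpace R] [IsTopologicalRing R] [CompactSpace R]
    [T2Space R], (∀ U ∈ 𝓝 (0 : R), ∃ I : Ideal R, IsOpen (I : Set R) ∧ (I : Set R) ⊆ U) →
    ∃ (S : Type) (_ : CommRing S) (_ : TopologicalSpace S) (π : R →+* S),
      IsTopologicalRing S ∧ CompactSpace S ∧ T2Space S ∧ Continuous π ∧ Function.Surjective π ∧
      (∀ x : R, π x = 0 ↔ ∀ n : ℕ, x ∈ Ideal.span {(p : R) ^ n}) ∧
      (∀ U ∈ 𝓝 (0 : S), ∃ I : Ideal S, IsOpen (I : Set S) ∧ (I : Set S) ⊆ U) ∧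
      (∀ I : Ideal S, IsOpen (I : Set S) → ∃ n : ℕ, (p : S) ^ n ∈ I)

/-- FIN (medium-long). From CLS, ISO, MTH, TDG, IDL, JNI, GCJ, PRM, QTR. The theorem.
Proof. Let `G1` be the closure of the commutator subgroup of `G`, a closed subgroup, `H3Zero p G1`
(CLS). Let `J` be from JNI for `R` (IDL gives the basis); by GCJ `ρ` maps commutators, hence the
commutator subgroup, hence (`Sg J` is closed as `J` is closed and `R` Hausdorff) `G1`, into `Sg J`. Let
`π : R -> S` be from QTR, `JS` from JNI for `S`; `π` maps `J` into `JS` (the preimage of an open ideal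
is open). In `S` the prime `p` is in `JS`, so `Setup p S JS` holds, and 2 is invertible in `S`:
`2 * ((p+1)/2) = 1 + p` and `1 + p` is a unit, since `p` is nilpotent modulo every open ideal: the closed
ideal generated by `1 + p` is contained in no proper open ideal (if `S` is not zero; or: the sequence
of the inverses `1 - p + p^2 - ...` has a cluster point). Let
`ρ' : G1 -> GL_2(S)` be the composition, continuous, with image in `Sg JS`. It is injective: if
`ρ' g = 1` then `ρ g - 1` has entries in all `p^n R`, and for every open ideal `I` of `R` some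
`ρ(g)^(p^n)` is 1 modulo `I` (the kernel of `G -> GL_2(R/I)` is an open normal subgroup, so of index
`p^n`, and `g^(p^n)` is in it), so `ρ g = 1` by PRM and `g = 1`. So `Γ = ρ'(G1)` is a closed
(compact) subgroup of `Sg JS`, isomorphic to `G1` as a topological group (continuous bijection of
compact Hausdorff groups), `H3Zero p Γ` (ISO), and MTH gives `derivedSeries Γ 3 = ⊥`, hence
`derivedSeries G1 3 = ⊥`, and, since the commutator subgroup of `G` is contained in `G1`,
`derivedSeries G 4 = ⊥`. -/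
def FIN_stmt : Prop :=
  ∀ (p : ℕ) (R : Type) [CommRing R] [TopologicalSpace R] [IsTopologicalRing R] [CompactSpace R]
    [T2Space R] [TotallyDisconnectedSpace R] (G : Type) [Group G] [TopologicalSpace G]
    [IsTopologicalGroup G] [CompactSpace G] [T2Space G] [TotallyDisconnectedSpace G]
    (ρ : G →* GL (Fin 2) R), p.Prime → p ≠ 2 → ProP p G → H3Zero p G → Continuous ρ →
    Function.Injective ρ → derivedSeries G 4 = ⊥

end Pool.Agent.PP2
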